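import Mathlib

section

set_option autoImplicit false

open scoped Real UpperHalfPlane
open InnerProductGeometry

namespace Pool.Agent.HypPack

noncomputable section

/-- Normalised distance `(cosh d - 1) / h`. -/
def R (h : ℝ) (x y : ℍ) : ℝ := (Real.cosh (dist x y) - 1) / h

/-- Real part of `y` in the frame where `x` is moved to `i`. -/
def uu (x y : ℍ) : ℝ := (y.re - x.re) / x.im

/-- Imaginary part of `y` in the frame where `x` is moved to `i`. -/
def vv (x y : ℍ) : ℝ := y.im / x.im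

/-- The chart at `x`: the spatial hyperboloid coordinates, divided by `√(2h)`. -/
def P (h : ℝ) (x y : ℍ) : ℂ :=
  ⟨(uu x y / vv x y) / Real.sqrt (2 * h),
    ((uu x y ^ 2 + vv x y ^ 2 - 1) / (2 * vv x y)) / Real.sqrt (2 * h)⟩

/-- The angle at `x` between `y` and `z`. -/
def ang (h : ℝ) (x y z : ℍ) : ℝ := angle (P h x y) (P h x z)

theorem cosh_dist_eq (x y : ℍ) :
    Real.cosh (dist x y) = 1 + ((x.re - y.re) ^ 2 + (x.im - y.im) ^ 2) / (2 * x.im * y.im) := by
  rw [UpperHalfPlane.cosh_dist]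
  congr 2
  rw [Complex.dist_eq, ← Complex.normSq_eq_norm_sq, Complex.normSq_apply]
  simp only [Complex.sub_re, Complex.sub_im, UpperHalfPlane.coe_re, UpperHalfPlane.coe_im]
  ring

theorem R_eq (h : ℝ) (x y : ℍ) :
    R h x y = ((x.re - y.re) ^ 2 + (x.im - y.im) ^ 2) / (2 * x.im * y.im) / h := by
  rw [R, cosh_dist_eq]
  ring

theorem R_comm (h : ℝ) (x y : ℍ) : R h x y = R h y x := by
  rw [R, R, dist_comm]

theorem R_self (h : ℝ) (x : ℍ) : R h x x = 0 := by
  rw [R, dist_self]; simp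

theorem R_nonneg {h : ℝ} (hh : 0 < h) (x y : ℍ) : 0 ≤ R h x y := by
  rw [R]
  exact div_nonneg (by linarith [Real.one_le_cosh (dist x y)]) hh.le

theorem P_self (h : ℝ) (x : ℍ) : P h x x = 0 := by
  have : x.im ≠ 0 := x.im_ne_zero
  apply Complex.ext <;> simp [P, uu, vv, this]

theorem chart {h : ℝ} (hh : 0 < h) (x y z : ℍ) :
    ‖P h x y - P h x z‖ ^ 2 = R h y z + h / 2 * (R h x y - R h x z) ^ 2 := by
  have hx : 0 < x.im := x.im_pos
  have hy : 0 < y.im := y.im_pos
  have hz : 0 < z.im := z.im_pos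
  have hs : Real.sqrt (2 * h) ^ 2 = 2 * h := Real.sq_sqrt (by linarith)
  have hs0 : Real.sqrt (2 * h) ≠ 0 := by positivity
  rw [← Complex.normSq_eq_norm_sq, Complex.normSq_apply, R_eq, R_eq, R_eq]
  simp only [P, uu, vv, Complex.sub_re, Complex.sub_im]
  rw [← sub_div, ← sub_div, div_mul_div_comm, div_mul_div_comm, ← pow_two (Real.sqrt (2 * h)), hs]
  field_simp
  ring

theorem norm_P_sq {h : ℝ} (hh : 0 < h) (x y : ℍ) :
    ‖P h x y‖ ^ 2 = R h x y + h / 2 * (R h x y) ^ 2 := by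
  have := chart hh x y x
  rw [P_self, sub_zero, R_self, sub_zero, R_comm h y x] at this
  exact this

theorem ang_comm (h : ℝ) (x y z : ℍ) : ang h x y z = ang h x z y := by
  rw [ang, ang, angle_comm]

end

end Pool.Agent.HypPack
end

section

set_option autoImplicit false

open scoped Real UpperHalfPlane

namespace Pool.Agent.HypPack

/-! ### Abstract vertex types of a relation `nr` (near) -/

section Abstract

variable {V : Type*}

/-- `x` has exactly the six near neighbours `a,…,f`, which form an induced 6-cycle. -/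
def HexAt (nr : V → V → Prop) (x a b c d e f : V) : Prop :=
  (∀ y, nr x y ↔ (y = a ∨ y = b ∨ y = c ∨ y = d ∨ y = e ∨ y = f)) ∧
  [a, b, c, d, e, f].Nodup ∧
  (nr a b ∧ nr b c ∧ nr c d ∧ nr d e ∧ nr e f ∧ nr f a) ∧
  (¬ nr a c ∧ ¬ nr a d ∧ ¬ nr a e ∧ ¬ nr b d ∧ ¬ nr b e ∧ ¬ nr b f ∧ ¬ nr c e ∧ ¬ nr c f ∧
    ¬ nr d f)

/-- `x` has exactly the five near neighbours `a,…,e`, in this cyclic order. Consecutive ones may
or may not be near each other, the others are not. -/
def PentAt (nr : V → V → Prop) (an : V → V → V → ℝ) (x a b c d e : V) : Prop :=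
  (∀ y, nr x y ↔ (y = a ∨ y = b ∨ y = c ∨ y = d ∨ y = e)) ∧
  [a, b, c, d, e].Nodup ∧
  (¬ nr a c ∧ ¬ nr b d ∧ ¬ nr c e ∧ ¬ nr d a ∧ ¬ nr e b) ∧
  an x a b + an x b c + an x c d + an x d e + an x e a = 2 * π

/-- `x y w z` is an induced near 4-cycle for some `w` (so `y x z` is a rhombus corner at `x`). -/
def RH (nr : V → V → Prop) (x y z : V) : Prop :=
  nr x y ∧ nr x z ∧ y ≠ z ∧ ¬ nr y z ∧ ∃ w, w ≠ x ∧ nr w y ∧ nr w z ∧ ¬ nr x w

/-- `yz` is a near non-contact pair in the link of `x` (a support rim). -/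
def Rim (nr ct : V → V → Prop) (x y z : V) : Prop :=
  nr x y ∧ nr x z ∧ nr y z ∧ ¬ ct y z

def IsW (nr : V → V → Prop) (x : V) : Prop := ∃ a b c d e f, HexAt nr x a b c d e f

/-- one non-triangular corner `(q, p)`, not a rhombus corner -/
def U1 (nr : V → V → Prop) (an : V → V → V → ℝ) (x p m₁ m₂ m₃ q : V) : Prop :=
  PentAt nr an x p m₁ m₂ m₃ q ∧ nr p m₁ ∧ nr m₁ m₂ ∧ nr m₂ m₃ ∧ nr m₃ q ∧ ¬ nr q p ∧
    ∀ w, nr w p → nr w q → w = x

/-- two adjacent rhombus corners -/
def U2a (nr : V → V → Prop) (an : V → V → V → ℝ) (x a b c d e : V) : Prop :=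
  PentAt nr an x a b c d e ∧ nr a b ∧ nr b c ∧ nr c d ∧ RH nr x d e ∧ RH nr x e a

/-- two non-adjacent rhombus corners -/
def U2b (nr : V → V → Prop) (an : V → V → V → ℝ) (x a b c d e : V) : Prop :=
  PentAt nr an x a b c d e ∧ nr a b ∧ nr b c ∧ RH nr x c d ∧ nr d e ∧ RH nr x e a

/-- The local facts available at good vertices. -/
structure Local (nr ct : V → V → Prop) (g : V → V → ℝ) (an : V → V → V → ℝ)
    (Good : V → Prop) : Prop where
  nr_symm : ∀ x y, nr x y → nr y x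
  nr_irrefl : ∀ x, ¬ nr x x
  ct_nr : ∀ x y, ct x y → nr x y
  ct_symm : ∀ x y, ct x y → ct y x
  g_symm : ∀ x y, g x y = g y x
  an_symm : ∀ x y z, an x y z = an x z y
  /-- two distinct points have at most two common near neighbours -/
  common : ∀ y z a b c, y ≠ z → a ≠ b → a ≠ c → b ≠ c → nr y a → nr z a → nr y b → nr z b →
    nr y c → nr z c → False
  /-- near triangle with contact side opposite to `x` -/
  tri : ∀ x y z, nr x y → nr x z → ct y z → an x y z < π / 3
  /-- adjacent angles of a contact rhombus `x y w z` -/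
  rhomb : ∀ x y w z, ct x y → ct y w → ct w z → ct z x → x ≠ w → y ≠ z →
    an x y z + an y x w ≤ π
  types : ∀ x, Good x → IsW nr x ∨ (∃ p m₁ m₂ m₃ q, U1 nr an x p m₁ m₂ m₃ q) ∨
    (∃ a b c d e, U2a nr an x a b c d e) ∨ (∃ a b c d e, U2b nr an x a b c d e)
  w_rim : ∀ x, Good x → IsW nr x → ∃ y z, Rim nr ct x y z
  w_uniq : ∀ x y z y' z', Good x → Rim nr ct x y z → Rim nr ct x y' z' →
    (y' = y ∧ z' = z) ∨ (y' = z ∧ z' = y)
  w_gap : ∀ x y z u, Good x → Rim nr ct x y z → nr x u → ¬ ct x u → g x u < g y z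
  u_rim : ∀ x y z, Good x → ¬ IsW nr x → ¬ Rim nr ct x y z
  supp : ∀ y z, Good y → nr y z → ¬ ct y z →
    ∃ c d, c ≠ d ∧ nr c y ∧ nr c z ∧ nr d y ∧ nr d z ∧
      (Good c → IsW nr c) ∧ (Good d → IsW nr d)
  /-- non-consecutive pairs are not rhombus corners -/
  rh_cons : ∀ x a b c d e, Good x → PentAt nr an x a b c d e → ¬ RH nr x a c
  /-- there is no chain of six `U1` vertices around a hole -/
  hole : ∀ u m m' : ℕ → V, (∀ i, i < 6 →
      PentAt nr an (u (i + 1)) (u (i + 2)) (m (i + 1)) (m' i) (m i) (u i) ∧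
      ct (u (i + 2)) (m (i + 1)) ∧ ct (m (i + 1)) (m' i) ∧ ct (m' i) (m i) ∧ ct (m i) (u i)) →
    False

/-- `Good` holds in the ball of radius `k` around `x`. -/
def GoodK (nr : V → V → Prop) (Good : V → Prop) : ℕ → V → Prop
  | 0, x => Good x
  | k + 1, x => GoodK nr Good k x ∧ ∀ y, nr x y → GoodK nr Good k y

end Abstract

/-! ### The concrete situation -/

/-- Standing hypotheses: `S` is a finite packing, `h = cosh (2r) - 1`, and `κ` is the near scale. -/
structure Hyp (S : Finset ℍ) (h κ : ℝ) : Prop where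
  hpos : 0 < h
  hk : 10 ^ 6 * h ≤ κ
  kh : 1000 * κ ^ 2 ≤ h
  kle : κ ≤ 1 / 10 ^ 30
  sep : ∀ x ∈ S, ∀ y ∈ S, x ≠ y → 1 ≤ R h x y

def Near (S : Finset ℍ) (h κ : ℝ) (x y : ℍ) : Prop :=
  x ∈ S ∧ y ∈ S ∧ x ≠ y ∧ R h x y ≤ 1 + κ

def Cont (S : Finset ℍ) (h : ℝ) (x y : ℍ) : Prop :=
  x ∈ S ∧ y ∈ S ∧ x ≠ y ∧ R h x y = 1

def Inter (S : Finset ℍ) (h κ : ℝ) (x y : ℍ) : Prop :=
  x ∈ S ∧ y ∈ S ∧ 1 + κ < R h x y ∧ R h x y ≤ 1 + 1000 * κ

open Classical in
/-- near degree -/
noncomputable def ndeg (S : Finset ℍ) (h κ : ℝ) (x : ℍ) : ℕ := (S.filter (Near S h κ x)).card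

open Classical in
/-- contact degree -/
noncomputable def cdeg (S : Finset ℍ) (h : ℝ) (x : ℍ) : ℕ := (S.filter (Cont S h x)).card

open Classical in
/-- number of ordered support rims at `x` -/
noncomputable def ro (S : Finset ℍ) (h κ : ℝ) (x : ℍ) : ℕ :=
  ((S ×ˢ S).filter (fun p => Rim (Near S h κ) (Cont S h) x p.1 p.2)).card

open Classical in
/-- number of common near neighbours of `y, z` having six near neighbours -/
noncomputable def apW (S : Finset ℍ) (h κ : ℝ) (y z : ℍ) : ℕ :=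
  (S.filter (fun v => Near S h κ v y ∧ Near S h κ v z ∧ ndeg S h κ v = 6)).card

open Classical in
/-- number of ordered intermediate pairs -/
noncomputable def interCard (S : Finset ℍ) (h κ : ℝ) : ℕ :=
  ((S ×ˢ S).filter (fun p => Inter S h κ p.1 p.2)).card

def Clean (S : Finset ℍ) (h κ : ℝ) (x : ℍ) : Prop :=
  5 ≤ ndeg S h κ x ∧ (ndeg S h κ x = 6 → ro S h κ x ≤ 2) ∧
  (∀ z, Near S h κ x z → ¬ Cont S h x z → 2 ≤ apW S h κ x z) ∧
  (∀ z, ¬ Inter S h κ x z)

def CleanN (S : Finset ℍ) (h κ : ℝ) (x : ℍ) : Prop :=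
  Clean S h κ x ∧ ∀ y, Near S h κ x y → Clean S h κ y

open Classical in
/-- sum over ordered rhombus corners at `x` of `π/2 - angle` -/
noncomputable def GG (S : Finset ℍ) (h κ : ℝ) (x : ℍ) : ℝ :=
  ∑ y ∈ S, ∑ z ∈ S, if RH (Near S h κ) x y z then π / 2 - ang h x y z else 0

/-- The good vertices. -/
def Good (S : Finset ℍ) (h κ : ℝ) (x : ℍ) : Prop :=
  x ∈ S ∧ CleanN S h κ x ∧ GG S h κ x < 1 / 100

end Pool.Agent.HypPack
end

section

set_option autoImplicit false

open scoped Real UpperHalfPlane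

namespace Pool.Agent.HypPack

theorem bad_near_symm {S : Finset ℍ} {h κ : ℝ} {x y : ℍ} (hn : Near S h κ x y) :
    Near S h κ y x := by
  obtain ⟨h1, h2, h3, h4⟩ := hn
  exact ⟨h2, h1, h3.symm, by rw [R_comm]; exact h4⟩

theorem bad_cont_symm {S : Finset ℍ} {h : ℝ} {x y : ℍ} (hn : Cont S h x y) :
    Cont S h y x := by
  obtain ⟨h1, h2, h3, h4⟩ := hn
  exact ⟨h2, h1, h3.symm, by rw [R_comm]; exact h4⟩

theorem bad_cont_near {S : Finset ℍ} {h κ : ℝ} (hκ : 0 < κ) {x y : ℍ} (hn : Cont S h x y) :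
    Near S h κ x y := by
  obtain ⟨h1, h2, h3, h4⟩ := hn
  exact ⟨h1, h2, h3, by rw [h4]; linarith⟩

open Classical in
/-- number of near non-contact neighbours -/
noncomputable def kdeg (S : Finset ℍ) (h κ : ℝ) (x : ℍ) : ℕ :=
  (S.filter (fun z => Near S h κ x z ∧ ¬ Cont S h x z)).card

theorem bad_deg_split {S : Finset ℍ} {h κ : ℝ} (hκ : 0 < κ) (x : ℍ) :
    ndeg S h κ x = cdeg S h x + kdeg S h κ x := by
  classical
  unfold ndeg cdeg kdeg
  rw [← Finset.card_union_of_disjoint]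
  · congr 1
    ext z
    simp only [Finset.mem_union, Finset.mem_filter]
    constructor
    · rintro ⟨hz, hn⟩
      by_cases hc : Cont S h x z
      · exact Or.inl ⟨hz, hc⟩
      · exact Or.inr ⟨hz, hn, hc⟩
    · rintro (⟨hz, hc⟩ | ⟨hz, hn, -⟩)
      · exact ⟨hz, bad_cont_near hκ hc⟩
      · exact ⟨hz, hn⟩
  · rw [Finset.disjoint_left]
    intro z hz hz'
    simp only [Finset.mem_filter] at hz hz'
    exact hz'.2.2 hz.2

open Classical in
/-- ordered near non-contact pairs -/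
noncomputable def TT (S : Finset ℍ) (h κ : ℝ) : Finset (ℍ × ℍ) :=
  (S ×ˢ S).filter (fun p => Near S h κ p.1 p.2 ∧ ¬ Cont S h p.1 p.2)

theorem bad_sum_kdeg (S : Finset ℍ) (h κ : ℝ) :
    ∑ x ∈ S, kdeg S h κ x = (TT S h κ).card := by
  classical
  unfold kdeg TT
  rw [Finset.card_filter, Finset.sum_product]
  refine Finset.sum_congr rfl fun x _ => ?_
  rw [Finset.card_filter]

/-- double counting of the rims -/
theorem bad_sum_ro (S : Finset ℍ) (h κ : ℝ) :
    open Classical in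
    ∑ x ∈ S.filter (fun x => ndeg S h κ x = 6), ro S h κ x =
      ∑ p ∈ TT S h κ, apW S h κ p.1 p.2 := by
  classical
  have e1 : ∀ x, ro S h κ x =
      ((TT S h κ).filter (fun p => Near S h κ x p.1 ∧ Near S h κ x p.2)).card := by
    intro x
    unfold ro TT
    rw [Finset.filter_filter]
    congr 1
    ext p
    rw [Finset.mem_filter, Finset.mem_filter]
    simp only [Rim]
    tauto
  have e2 : ∀ p : ℍ × ℍ, apW S h κ p.1 p.2 =
      ((S.filter (fun x => ndeg S h κ x = 6)).filter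
        (fun x => Near S h κ x p.1 ∧ Near S h κ x p.2)).card := by
    intro p
    unfold apW
    rw [Finset.filter_filter]
    congr 1
    apply Finset.filter_congr
    intro v _
    tauto
  simp only [e1, e2, Finset.card_filter]
  rw [Finset.sum_comm]

/-- TASK B -/
theorem bad_card {S : Finset ℍ} {h κ : ℝ}
    (deg6 : ∀ x ∈ S, ndeg S h κ x ≤ 6)
    (common : ∀ y z a b c, y ≠ z → a ≠ b → a ≠ c → b ≠ c → Near S h κ y a → Near S h κ z a →
      Near S h κ y b → Near S h κ z b → Near S h κ y c → Near S h κ z c → False)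
    (six_rim : ∀ x ∈ S, ndeg S h κ x = 6 →
      (∃ y z, Rim (Near S h κ) (Cont S h) x y z) ∨
        ∃ y z, Near S h κ x y ∧ Near S h κ x z ∧ Inter S h κ y z)
    (hκ : 0 < κ) :
    open Classical in
    (((S.filter (fun x => ¬ Clean S h κ x)).card : ℝ)) ≤
      2 * ∑ x ∈ S, (5 - (cdeg S h x : ℝ)) + 13 * (interCard S h κ : ℝ) := by
  classical
  set W := S.filter (fun x => ndeg S h κ x = 6) with hW
  set U := S.filter (fun x => ¬ ndeg S h κ x = 6) with hU
  set T := TT S h κ with hT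
  set IP := (S ×ˢ S).filter (fun p => Inter S h κ p.1 p.2) with hIP
  have hIPcard : interCard S h κ = IP.card := rfl
  set B1 := S.filter (fun x => ndeg S h κ x ≤ 4) with hB1
  set B2 := W.filter (fun x => 3 ≤ ro S h κ x) with hB2
  set B3 := T.filter (fun p => apW S h κ p.1 p.2 < 2) with hB3
  set B4 := W.filter (fun x => ro S h κ x < 2) with hB4
  -- pairs in `T` have at most two common near neighbours
  have hap : ∀ p ∈ T, apW S h κ p.1 p.2 ≤ 2 := by
    intro p hp
    rw [hT, TT, Finset.mem_filter] at hp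
    obtain ⟨hp1, hpn, hpc⟩ := hp
    by_contra hcon
    push Not at hcon
    unfold apW at hcon
    obtain ⟨a, b, c, ha, hb, hc, hab, hac, hbc⟩ := Finset.two_lt_card_iff.1 hcon
    simp only [Finset.mem_filter] at ha hb hc
    exact common p.1 p.2 a b c hpn.2.2.1 hab hac hbc (bad_near_symm ha.2.1)
      (bad_near_symm ha.2.2.1) (bad_near_symm hb.2.1) (bad_near_symm hb.2.2.1)
      (bad_near_symm hc.2.1) (bad_near_symm hc.2.2.1)
  -- the identity
  have hid : ∑ x ∈ S, (5 - (cdeg S h x : ℝ)) =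
      ∑ x ∈ U, (5 - (ndeg S h κ x : ℝ)) + 1 / 2 * ∑ p ∈ T, (2 - (apW S h κ p.1 p.2 : ℝ)) +
        1 / 2 * ∑ x ∈ W, ((ro S h κ x : ℝ) - 2) := by
    have h1 : ∑ x ∈ S, (5 - (cdeg S h x : ℝ)) =
        ∑ x ∈ S, (5 - (ndeg S h κ x : ℝ)) + (T.card : ℝ) := by
      have h2 : (T.card : ℝ) = ∑ x ∈ S, (kdeg S h κ x : ℝ) := by
        rw [hT, ← bad_sum_kdeg]
        push_cast
        rfl
      rw [h2, ← Finset.sum_add_distrib]
      refine Finset.sum_congr rfl fun x _ => ?_
      rw [bad_deg_split hκ x]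
      push_cast
      ring
    have h3 : ∑ x ∈ S, (5 - (ndeg S h κ x : ℝ)) =
        ∑ x ∈ W, (5 - (ndeg S h κ x : ℝ)) + ∑ x ∈ U, (5 - (ndeg S h κ x : ℝ)) :=
      (Finset.sum_filter_add_sum_filter_not S _ _).symm
    have h4 : ∑ x ∈ W, (5 - (ndeg S h κ x : ℝ)) = - (W.card : ℝ) := by
      have : ∀ x ∈ W, (5 - (ndeg S h κ x : ℝ)) = -1 := by
        intro x hx
        rw [hW, Finset.mem_filter] at hx
        rw [hx.2]
        norm_num
      rw [Finset.sum_congr rfl this]
      simp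
    have h5 : ∑ x ∈ W, (ro S h κ x : ℝ) = ∑ p ∈ T, (apW S h κ p.1 p.2 : ℝ) := by
      have := bad_sum_ro S h κ
      exact_mod_cast this
    rw [h1, h3, h4, Finset.sum_sub_distrib, Finset.sum_sub_distrib (s := W), h5]
    simp
    ring
  -- lower bounds of the three sums
  have hS1 : (B1.card : ℝ) ≤ ∑ x ∈ U, (5 - (ndeg S h κ x : ℝ)) := by
    have hsub : B1 ⊆ U := by
      intro x hx
      rw [hB1, Finset.mem_filter] at hx
      rw [hU, Finset.mem_filter]
      exact ⟨hx.1, by omega⟩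
    calc (B1.card : ℝ) = ∑ x ∈ B1, (1 : ℝ) := by simp
      _ ≤ ∑ x ∈ B1, (5 - (ndeg S h κ x : ℝ)) := by
        refine Finset.sum_le_sum fun x hx => ?_
        rw [hB1, Finset.mem_filter] at hx
        have : (ndeg S h κ x : ℝ) ≤ 4 := by exact_mod_cast hx.2
        linarith
      _ ≤ ∑ x ∈ U, (5 - (ndeg S h κ x : ℝ)) := by
        refine Finset.sum_le_sum_of_subset_of_nonneg hsub fun x hx _ => ?_
        rw [hU, Finset.mem_filter] at hx
        have h6 := deg6 x hx.1
        have : ndeg S h κ x ≤ 5 := by omega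
        have : (ndeg S h κ x : ℝ) ≤ 5 := by exact_mod_cast this
        linarith
  have hS3 : (B3.card : ℝ) ≤ ∑ p ∈ T, (2 - (apW S h κ p.1 p.2 : ℝ)) := by
    calc (B3.card : ℝ) = ∑ p ∈ B3, (1 : ℝ) := by simp
      _ ≤ ∑ p ∈ B3, (2 - (apW S h κ p.1 p.2 : ℝ)) := by
        refine Finset.sum_le_sum fun p hp => ?_
        rw [hB3, Finset.mem_filter] at hp
        have : apW S h κ p.1 p.2 ≤ 1 := by omega
        have : (apW S h κ p.1 p.2 : ℝ) ≤ 1 := by exact_mod_cast this
        linarith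
      _ ≤ ∑ p ∈ T, (2 - (apW S h κ p.1 p.2 : ℝ)) := by
        refine Finset.sum_le_sum_of_subset_of_nonneg (Finset.filter_subset _ _) fun p hp _ => ?_
        have : (apW S h κ p.1 p.2 : ℝ) ≤ 2 := by exact_mod_cast hap p hp
        linarith
  have hS2 : (B2.card : ℝ) - 2 * (B4.card : ℝ) ≤ ∑ x ∈ W, ((ro S h κ x : ℝ) - 2) := by
    have h1 : ∀ x ∈ W, (if 3 ≤ ro S h κ x then (1 : ℝ) else 0) -
        2 * (if ro S h κ x < 2 then (1 : ℝ) else 0) ≤ (ro S h κ x : ℝ) - 2 := by
      intro x _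
      have hr0 : (0 : ℝ) ≤ (ro S h κ x : ℝ) := Nat.cast_nonneg _
      by_cases h3 : 3 ≤ ro S h κ x
      · have h3' : (3 : ℝ) ≤ (ro S h κ x : ℝ) := by exact_mod_cast h3
        rw [if_pos h3, if_neg (by omega)]
        linarith
      · rw [if_neg h3]
        by_cases h2 : ro S h κ x < 2
        · rw [if_pos h2]
          linarith
        · rw [if_neg h2]
          have : (2 : ℝ) ≤ (ro S h κ x : ℝ) := by
            have : 2 ≤ ro S h κ x := by omega
            exact_mod_cast this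
          linarith
    calc (B2.card : ℝ) - 2 * (B4.card : ℝ) =
        ∑ x ∈ W, ((if 3 ≤ ro S h κ x then (1 : ℝ) else 0) -
          2 * (if ro S h κ x < 2 then (1 : ℝ) else 0)) := by
          rw [Finset.sum_sub_distrib, ← Finset.mul_sum, hB2, hB4, Finset.card_filter,
            Finset.card_filter]
          push_cast
          rfl
      _ ≤ _ := Finset.sum_le_sum h1
  -- `B4` is small
  have hB4card : B4.card ≤ 6 * IP.card := by
    have hsub : B4 ⊆ IP.biUnion (fun p => S.filter (fun x => Near S h κ p.1 x)) := by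
      intro x hx
      rw [hB4, hW, Finset.mem_filter, Finset.mem_filter] at hx
      obtain ⟨⟨hxS, hx6⟩, hxr⟩ := hx
      rcases six_rim x hxS hx6 with ⟨y, z, hr⟩ | ⟨y, z, hxy, hxz, hI⟩
      · exfalso
        obtain ⟨h1, h2, h3, h4⟩ := hr
        have hyz : y ≠ z := h3.2.2.1
        have hsub2 : ({(y, z), (z, y)} : Finset (ℍ × ℍ)) ⊆
            (S ×ˢ S).filter (fun p => Rim (Near S h κ) (Cont S h) x p.1 p.2) := by
          intro p hp
          simp only [Finset.mem_insert, Finset.mem_singleton] at hp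
          rcases hp with rfl | rfl
          · simp only [Finset.mem_filter, Finset.mem_product]
            exact ⟨⟨h1.2.1, h2.2.1⟩, h1, h2, h3, h4⟩
          · simp only [Finset.mem_filter, Finset.mem_product]
            exact ⟨⟨h2.2.1, h1.2.1⟩, h2, h1, bad_near_symm h3, fun hc => h4 (bad_cont_symm hc)⟩
        have hc2 : ({(y, z), (z, y)} : Finset (ℍ × ℍ)).card = 2 := by
          apply Finset.card_pair
          intro he
          exact hyz (Prod.mk.inj he).1
        have := Finset.card_le_card hsub2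
        rw [hc2] at this
        have hro : ro S h κ x =
          ((S ×ˢ S).filter (fun p => Rim (Near S h κ) (Cont S h) x p.1 p.2)).card := rfl
        omega
      · rw [Finset.mem_biUnion]
        refine ⟨(y, z), ?_, ?_⟩
        · rw [hIP, Finset.mem_filter, Finset.mem_product]
          exact ⟨⟨hI.1, hI.2.1⟩, hI⟩
        · rw [Finset.mem_filter]
          exact ⟨hxS, bad_near_symm hxy⟩
    calc B4.card ≤ (IP.biUnion (fun p => S.filter (fun x => Near S h κ p.1 x))).card :=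
          Finset.card_le_card hsub
      _ ≤ ∑ p ∈ IP, (S.filter (fun x => Near S h κ p.1 x)).card := Finset.card_biUnion_le
      _ ≤ ∑ p ∈ IP, 6 := by
          refine Finset.sum_le_sum fun p hp => ?_
          rw [hIP, Finset.mem_filter, Finset.mem_product] at hp
          exact deg6 p.1 hp.1.1
      _ = 6 * IP.card := by rw [Finset.sum_const, smul_eq_mul, mul_comm]
  -- the bad vertices
  have hbad : (S.filter (fun x => ¬ Clean S h κ x)).card ≤
      B1.card + B2.card + B3.card + IP.card := by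
    have hsub : S.filter (fun x => ¬ Clean S h κ x) ⊆
        ((B1 ∪ B2) ∪ B3.image Prod.fst) ∪ IP.image Prod.fst := by
      intro x hx
      rw [Finset.mem_filter] at hx
      obtain ⟨hxS, hxc⟩ := hx
      simp only [Finset.mem_union, Finset.mem_image]
      by_contra hcon
      push Not at hcon
      obtain ⟨⟨⟨n1, n2⟩, n3⟩, n4⟩ := hcon
      apply hxc
      refine ⟨?_, ?_, ?_, ?_⟩
      · by_contra h5
        apply n1
        rw [hB1, Finset.mem_filter]
        exact ⟨hxS, by omega⟩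
      · intro h6
        by_contra h5
        apply n2
        rw [hB2, hW, Finset.mem_filter, Finset.mem_filter]
        exact ⟨⟨hxS, h6⟩, by omega⟩
      · intro z hz hzc
        by_contra h5
        apply n3 (x, z) _ rfl
        rw [hB3, hT, TT, Finset.mem_filter, Finset.mem_filter, Finset.mem_product]
        have h5' : apW S h κ x z < 2 := by omega
        exact ⟨⟨⟨hxS, hz.2.1⟩, hz, hzc⟩, h5'⟩
      · intro z hz
        apply n4 (x, z) _ rfl
        rw [hIP, Finset.mem_filter, Finset.mem_product]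
        exact ⟨⟨hxS, hz.2.1⟩, hz⟩
    calc (S.filter (fun x => ¬ Clean S h κ x)).card ≤
        (((B1 ∪ B2) ∪ B3.image Prod.fst) ∪ IP.image Prod.fst).card := Finset.card_le_card hsub
      _ ≤ ((B1 ∪ B2) ∪ B3.image Prod.fst).card + (IP.image Prod.fst).card :=
          Finset.card_union_le _ _
      _ ≤ ((B1 ∪ B2).card + (B3.image Prod.fst).card) + (IP.image Prod.fst).card := by
          gcongr
          exact Finset.card_union_le _ _
      _ ≤ ((B1.card + B2.card) + B3.card) + IP.card := by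
          gcongr
          · exact Finset.card_union_le _ _
          · exact Finset.card_image_le
          · exact Finset.card_image_le
      _ = _ := rfl
  have hbad' : ((S.filter (fun x => ¬ Clean S h κ x)).card : ℝ) ≤
      (B1.card : ℝ) + B2.card + B3.card + IP.card := by exact_mod_cast hbad
  have hB4' : (B4.card : ℝ) ≤ 6 * (IP.card : ℝ) := by exact_mod_cast hB4card
  rw [hIPcard, hid]
  have hb1 : (0 : ℝ) ≤ (B1.card : ℝ) := Nat.cast_nonneg _
  linarith

end Pool.Agent.HypPack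
end

section

set_option autoImplicit false
set_option linter.unusedVariables false
open scoped Real UpperHalfPlane

namespace Pool.Agent.HypPack

section Comb

variable {V : Type*} {nr ct : V → V → Prop} {g : V → V → ℝ} {an : V → V → V → ℝ}
    {Good : V → Prop}

theorem GoodK.good : ∀ {k : ℕ} {x : V}, GoodK nr Good k x → Good x
  | 0, _, h => h
  | k + 1, _, h => GoodK.good (k := k) h.1

theorem GoodK.mono {j k : ℕ} (hjk : j ≤ k) {x : V} (h : GoodK nr Good k x) :
    GoodK nr Good j x := by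
  induction hjk with
  | refl => exact h
  | step _ ih => exact ih h.1

theorem GoodK.step {k : ℕ} {x y : V} (h : GoodK nr Good (k + 1) x) (hy : nr x y) :
    GoodK nr Good k y := h.2 y hy

/-! hexagons -/

theorem HexAt.rot (sy : ∀ x y, nr x y → nr y x) {x a b c d e f : V}
    (h : HexAt nr x a b c d e f) : HexAt nr x b c d e f a := by
  obtain ⟨h1, h2, ⟨n1, n2, n3, n4, n5, n6⟩, ⟨m1, m2, m3, m4, m5, m6, m7, m8, m9⟩⟩ := h
  refine ⟨fun y => by rw [h1 y]; tauto, ?_, ⟨n2, n3, n4, n5, n6, n1⟩, ?_⟩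
  · exact (List.perm_append_comm (l₁ := [a]) (l₂ := [b, c, d, e, f])).nodup_iff.mp h2
  · exact ⟨m4, m5, m6, m7, m8, fun h => m1 (sy _ _ h), m9, fun h => m2 (sy _ _ h),
      fun h => m3 (sy _ _ h)⟩

theorem HexAt.refl' (sy : ∀ x y, nr x y → nr y x) {x a b c d e f : V}
    (h : HexAt nr x a b c d e f) : HexAt nr x a f e d c b := by
  obtain ⟨h1, h2, ⟨n1, n2, n3, n4, n5, n6⟩, ⟨m1, m2, m3, m4, m5, m6, m7, m8, m9⟩⟩ := h
  refine ⟨fun y => by rw [h1 y]; tauto, ?_, ⟨sy _ _ n6, sy _ _ n5, sy _ _ n4, sy _ _ n3,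
    sy _ _ n2, sy _ _ n1⟩, ?_⟩
  · exact ((List.reverse_perm [b, c, d, e, f]).symm.cons a).nodup_iff.mp h2
  · exact ⟨m3, m2, m1, fun h => m9 (sy _ _ h), fun h => m8 (sy _ _ h), fun h => m6 (sy _ _ h),
      fun h => m7 (sy _ _ h), fun h => m5 (sy _ _ h), fun h => m4 (sy _ _ h)⟩

/-- elements of the link near the first vertex -/
theorem HexAt.link (ir : ∀ x, ¬ nr x x) {x a b c d e f y : V}
    (h : HexAt nr x a b c d e f) (hy : nr x y) (hay : nr a y) : y = b ∨ y = f := by
  obtain ⟨h1, h2, ⟨n1, n2, n3, n4, n5, n6⟩, ⟨m1, m2, m3, m4, m5, m6, m7, m8, m9⟩⟩ := h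
  rcases (h1 y).mp hy with rfl | rfl | rfl | rfl | rfl | rfl
  · exact absurd hay (ir _)
  · exact Or.inl rfl
  · exact absurd hay m1
  · exact absurd hay m2
  · exact absurd hay m3
  · exact Or.inr rfl

theorem IsW.at (sy : ∀ x y, nr x y → nr y x) {x y : V} (hx : IsW nr x) (hy : nr x y) :
    ∃ b c d e f, HexAt nr x y b c d e f := by
  obtain ⟨a, b, c, d, e, f, h⟩ := hx
  have h2 := h.rot sy
  have h3 := h2.rot sy
  have h4 := h3.rot sy
  have h5 := h4.rot sy
  have h6 := h5.rot sy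
  rcases (h.1 y).mp hy with rfl | rfl | rfl | rfl | rfl | rfl
  · exact ⟨_, _, _, _, _, h⟩
  · exact ⟨_, _, _, _, _, h2⟩
  · exact ⟨_, _, _, _, _, h3⟩
  · exact ⟨_, _, _, _, _, h4⟩
  · exact ⟨_, _, _, _, _, h5⟩
  · exact ⟨_, _, _, _, _, h6⟩

/-- the hexagon of `x` seen from `y` with a prescribed second vertex -/
theorem IsW.at2 (sy : ∀ x y, nr x y → nr y x) (ir : ∀ x, ¬ nr x x) {x y z : V}
    (hx : IsW nr x) (hy : nr x y) (hz : nr x z) (hyz : nr y z) :
    ∃ c d e f, HexAt nr x y z c d e f := by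
  obtain ⟨b, c, d, e, f, h⟩ := hx.at sy hy
  rcases h.link ir hz hyz with rfl | rfl
  · exact ⟨_, _, _, _, h⟩
  · exact ⟨_, _, _, _, h.refl' sy⟩

/-! pentagons -/

theorem PentAt.rot (sy : ∀ x y, nr x y → nr y x) {x a b c d e : V}
    (h : PentAt nr an x a b c d e) : PentAt nr an x b c d e a := by
  obtain ⟨h1, h2, ⟨m1, m2, m3, m4, m5⟩, hs⟩ := h
  refine ⟨fun y => by rw [h1 y]; tauto, ?_, ⟨m2, m3, m4, m5, m1⟩, by linarith⟩
  exact (List.perm_append_comm (l₁ := [a]) (l₂ := [b, c, d, e])).nodup_iff.mp h2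

theorem PentAt.refl' (sy : ∀ x y, nr x y → nr y x) (as : ∀ x y z, an x y z = an x z y)
    {x a b c d e : V} (h : PentAt nr an x a b c d e) : PentAt nr an x a e d c b := by
  obtain ⟨h1, h2, ⟨m1, m2, m3, m4, m5⟩, hs⟩ := h
  refine ⟨fun y => by rw [h1 y]; tauto, ?_, ⟨fun h => m4 (sy _ _ h), fun h => m3 (sy _ _ h),
    fun h => m2 (sy _ _ h), fun h => m1 (sy _ _ h), fun h => m5 (sy _ _ h)⟩, ?_⟩
  · exact ((List.reverse_perm [b, c, d, e]).symm.cons a).nodup_iff.mp h2
  · rw [as x a e, as x e d, as x d c, as x c b, as x b a]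
    linarith

theorem RH.symmC (sy : ∀ x y, nr x y → nr y x) {x y z : V} (h : RH nr x y z) : RH nr x z y := by
  obtain ⟨h1, h2, h3, h4, w, h5, h6, h7, h8⟩ := h
  exact ⟨h2, h1, h3.symm, fun h => h4 (sy _ _ h), w, h5, h7, h6, h8⟩

theorem pent_not_W {x a b c d e : V} (h : PentAt nr an x a b c d e) : ¬ IsW nr x := by
  classical
  rintro ⟨p, q, r, s, t, u, h'⟩
  have hsub : [p, q, r, s, t, u].toFinset ⊆ [a, b, c, d, e].toFinset := by
    intro y hy
    have : nr x y := by
      rw [h'.1 y]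
      simpa using hy
    rw [h.1 y] at this
    simpa using this
  have h1 := Finset.card_le_card hsub
  rw [List.toFinset_card_of_nodup h'.2.1] at h1
  have h2 := List.toFinset_card_le [a, b, c, d, e]
  simp at h1 h2
  omega

/-- the two elements of the link common to two adjacent vertices -/
def D2 (nr : V → V → Prop) (a v : V) : Prop :=
  nr a v ∧ ∃ s t, s ≠ t ∧ nr a s ∧ nr a t ∧ nr v s ∧ nr v t

theorem U1.d2 (sy : ∀ x y, nr x y → nr y x) (ir : ∀ x, ¬ nr x x) {x p m₁ m₂ m₃ q v : V}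
    (h : U1 nr an x p m₁ m₂ m₃ q) (hv : D2 nr x v) : v = m₁ ∨ v = m₂ ∨ v = m₃ := by
  obtain ⟨⟨h1, h2, ⟨k1, k2, k3, k4, k5⟩, hs⟩, n1, n2, n3, n4, n5, n6⟩ := h
  obtain ⟨hxv, s, t, hst, hs1, ht1, hvs, hvt⟩ := hv
  rcases (h1 v).mp hxv with rfl | rfl | rfl | rfl | rfl
  · exfalso
    have key : ∀ y, nr x y → nr v y → y = m₁ := by
      intro y hy hvy
      rcases (h1 y).mp hy with rfl | rfl | rfl | rfl | rfl
      · exact absurd hvy (ir _)
      · rfl
      · exact absurd hvy k1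
      · exact absurd (sy _ _ hvy) k4
      · exact absurd (sy _ _ hvy) n5
    exact hst ((key s hs1 hvs).trans (key t ht1 hvt).symm)
  · exact Or.inl rfl
  · exact Or.inr (Or.inl rfl)
  · exact Or.inr (Or.inr rfl)
  · exfalso
    have key : ∀ y, nr x y → nr v y → y = m₃ := by
      intro y hy hvy
      rcases (h1 y).mp hy with rfl | rfl | rfl | rfl | rfl
      · exact absurd hvy n5
      · exact absurd hvy k5
      · exact absurd (sy _ _ hvy) k3
      · rfl
      · exact absurd hvy (ir _)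
    exact hst ((key s hs1 hvs).trans (key t ht1 hvt).symm)

theorem U2a.d2 (sy : ∀ x y, nr x y → nr y x) (ir : ∀ x, ¬ nr x x) {x a b c d e v : V}
    (h : U2a nr an x a b c d e) (hv : D2 nr x v) : v = b ∨ v = c := by
  obtain ⟨⟨h1, h2, ⟨k1, k2, k3, k4, k5⟩, hs⟩, n1, n2, n3, r1, r2⟩ := h
  have n4 := r1.2.2.2.1
  have n5 := r2.2.2.2.1
  obtain ⟨hxv, s, t, hst, hs1, ht1, hvs, hvt⟩ := hv
  rcases (h1 v).mp hxv with rfl | rfl | rfl | rfl | rfl
  · exfalso
    have key : ∀ y, nr x y → nr v y → y = b := by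
      intro y hy hvy
      rcases (h1 y).mp hy with rfl | rfl | rfl | rfl | rfl
      · exact absurd hvy (ir _)
      · rfl
      · exact absurd hvy k1
      · exact absurd (sy _ _ hvy) k4
      · exact absurd (sy _ _ hvy) n5
    exact hst ((key s hs1 hvs).trans (key t ht1 hvt).symm)
  · exact Or.inl rfl
  · exact Or.inr rfl
  · exfalso
    have key : ∀ y, nr x y → nr v y → y = c := by
      intro y hy hvy
      rcases (h1 y).mp hy with rfl | rfl | rfl | rfl | rfl
      · exact absurd hvy k4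
      · exact absurd (sy _ _ hvy) k2
      · rfl
      · exact absurd hvy (ir _)
      · exact absurd hvy n4
    exact hst ((key s hs1 hvs).trans (key t ht1 hvt).symm)
  · exfalso
    rcases (h1 s).mp hs1 with rfl | rfl | rfl | rfl | rfl
    · exact n5 hvs
    · exact k5 hvs
    · exact k3 (sy _ _ hvs)
    · exact n4 (sy _ _ hvs)
    · exact ir _ hvs

theorem U2b.d2 (sy : ∀ x y, nr x y → nr y x) (ir : ∀ x, ¬ nr x x) {x a b c d e v : V}
    (h : U2b nr an x a b c d e) (hv : D2 nr x v) : v = b := by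
  obtain ⟨⟨h1, h2, ⟨k1, k2, k3, k4, k5⟩, hs⟩, n1, n2, r1, n3, r2⟩ := h
  have n4 := r1.2.2.2.1
  have n5 := r2.2.2.2.1
  obtain ⟨hxv, s, t, hst, hs1, ht1, hvs, hvt⟩ := hv
  rcases (h1 v).mp hxv with rfl | rfl | rfl | rfl | rfl
  · exfalso
    have key : ∀ y, nr x y → nr v y → y = b := by
      intro y hy hvy
      rcases (h1 y).mp hy with rfl | rfl | rfl | rfl | rfl
      · exact absurd hvy (ir _)
      · rfl
      · exact absurd hvy k1
      · exact absurd (sy _ _ hvy) k4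
      · exact absurd (sy _ _ hvy) n5
    exact hst ((key s hs1 hvs).trans (key t ht1 hvt).symm)
  · rfl
  · exfalso
    have key : ∀ y, nr x y → nr v y → y = b := by
      intro y hy hvy
      rcases (h1 y).mp hy with rfl | rfl | rfl | rfl | rfl
      · exact absurd (sy _ _ hvy) k1
      · rfl
      · exact absurd hvy (ir _)
      · exact absurd hvy n4
      · exact absurd hvy k3
    exact hst ((key s hs1 hvs).trans (key t ht1 hvt).symm)
  · exfalso
    have key : ∀ y, nr x y → nr v y → y = e := by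
      intro y hy hvy
      rcases (h1 y).mp hy with rfl | rfl | rfl | rfl | rfl
      · exact absurd hvy k4
      · exact absurd (sy _ _ hvy) k2
      · exact absurd (sy _ _ hvy) n4
      · exact absurd hvy (ir _)
      · rfl
    exact hst ((key s hs1 hvs).trans (key t ht1 hvt).symm)
  · exfalso
    have key : ∀ y, nr x y → nr v y → y = d := by
      intro y hy hvy
      rcases (h1 y).mp hy with rfl | rfl | rfl | rfl | rfl
      · exact absurd hvy n5
      · exact absurd hvy k5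
      · exact absurd (sy _ _ hvy) k3
      · rfl
      · exact absurd hvy (ir _)
    exact hst ((key s hs1 hvs).trans (key t ht1 hvt).symm)

/-! ### W vertices -/

theorem C1 (L : Local nr ct g an Good) {a b c : V} (hab : nr a b) (hbc : nr b c) (hac : nr a c)
    (ga : Good a) (gc : Good c) (cab : ¬ ct a b) (cbc : ¬ ct b c) : False := by
  have sy := L.nr_symm
  have r1 : Rim nr ct c a b := ⟨sy _ _ hac, sy _ _ hbc, hab, cab⟩
  have r2 : Rim nr ct a b c := ⟨hab, hac, hbc, cbc⟩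
  have w1 := L.w_gap c a b b gc r1 (sy _ _ hbc) (fun h => cbc (L.ct_symm _ _ h))
  have w2 := L.w_gap a b c b ga r2 hab cab
  rw [L.g_symm b c] at w2
  exact lt_asymm w1 w2

theorem C2 (L : Local nr ct g an Good) {v b c x y z d p q : V}
    (H : HexAt nr v b c x y z d) (gv : Good v) (gc : Good c) (gd : Good d)
    (hvb : ¬ ct v b) (hR : Rim nr ct v p q) :
    (p = x ∧ q = y) ∨ (p = y ∧ q = x) ∨ (p = y ∧ q = z) ∨ (p = z ∧ q = y) := by
  have sy := L.nr_symm
  have ir := L.nr_irrefl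
  have H' := H
  obtain ⟨h1, h2, ⟨n1, n2, n3, n4, n5, n6⟩, ⟨m1, m2, m3, m4, m5, m6, m7, m8, m9⟩⟩ := H'
  obtain ⟨hp, hq, hpq, hct⟩ := hR
  have vb : nr v b := (h1 b).mpr (by tauto)
  have vc : nr v c := (h1 c).mpr (by tauto)
  have vx : nr v x := (h1 x).mpr (by tauto)
  have vy : nr v y := (h1 y).mpr (by tauto)
  have vz : nr v z := (h1 z).mpr (by tauto)
  have vd : nr v d := (h1 d).mpr (by tauto)
  -- excluded pairs
  have e1 : ¬ (¬ ct b c) := fun h => C1 L vb n1 vc gv gc hvb h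
  have e2 : ¬ (¬ ct b d) := fun h => C1 L vb (sy _ _ n6) vd gv gd hvb h
  have e3 : ¬ (¬ ct c x) := by
    intro h
    have w1 := L.w_gap v c x b gv ⟨vc, vx, n2, h⟩ vb hvb
    have w2 := L.w_gap c v b x gc ⟨sy _ _ vc, sy _ _ n1, vb, hvb⟩ n2 h
    exact lt_asymm w1 w2
  have e4 : ¬ (¬ ct z d) := by
    intro h
    have w1 := L.w_gap v z d b gv ⟨vz, vd, n5, h⟩ vb hvb
    have w2 := L.w_gap d v b z gd ⟨sy _ _ vd, n6, vb, hvb⟩ (sy _ _ n5)
      (fun h' => h (L.ct_symm _ _ h'))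
    rw [L.g_symm d z] at w2
    exact lt_asymm w1 w2
  have hct' : ¬ ct q p := fun h => hct (L.ct_symm _ _ h)
  have hqp : nr q p := sy _ _ hpq
  rcases (h1 p).mp hp with rfl | rfl | rfl | rfl | rfl | rfl <;>
    rcases (h1 q).mp hq with rfl | rfl | rfl | rfl | rfl | rfl <;>
    first
    | exact absurd hpq (ir _)
    | exact absurd hpq (by assumption)
    | exact absurd hqp (by assumption)
    | exact absurd hct (by assumption)
    | exact absurd hct' (by assumption)
    | tauto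

theorem C3 (L : Local nr ct g an Good) {v b b' : V} (gv : Good v) (hW : IsW nr v)
    (gn : ∀ y, nr v y → Good y) (hb : nr v b) (hb' : nr v b') (cb : ¬ ct v b)
    (cb' : ¬ ct v b') : b = b' := by
  have sy := L.nr_symm
  have ir := L.nr_irrefl
  obtain ⟨c, x, y, z, d, H⟩ := hW.at sy hb
  have H' := H
  obtain ⟨h1, h2, ⟨n1, n2, n3, n4, n5, n6⟩, ⟨m1, m2, m3, m4, m5, m6, m7, m8, m9⟩⟩ := H'
  have vb : nr v b := (h1 b).mpr (by tauto)
  have vc : nr v c := (h1 c).mpr (by tauto)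
  have vx : nr v x := (h1 x).mpr (by tauto)
  have vy : nr v y := (h1 y).mpr (by tauto)
  have vz : nr v z := (h1 z).mpr (by tauto)
  have vd : nr v d := (h1 d).mpr (by tauto)
  obtain ⟨p, q, hR⟩ := L.w_rim v gv hW
  have k := C2 L H gv (gn c vc) (gn d vd) cb hR
  simp only [List.nodup_cons, List.mem_cons, List.not_mem_nil, or_false, not_or,
    List.nodup_nil, and_true, not_false_eq_true] at h2
  obtain ⟨⟨a1, a2, a3, a4, a5⟩, ⟨b1, b2, b3, b4⟩, ⟨c1, c2, c3⟩, ⟨d1, d2⟩, e1⟩ := h2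
  have H2 := H.rot sy
  have H3 := H2.rot sy
  have H4 := H3.rot sy
  have H5 := H4.rot sy
  rcases (h1 b').mp hb' with h | h | h | h | h | h
  · exact h.symm
  · subst h
    exact (C1 L (sy _ _ vb) vc n1 (gn _ vb) (gn _ vc) (fun h => cb (L.ct_symm _ _ h)) cb').elim
  · subst h
    have k' := C2 L H3 gv (gn _ vy) (gn _ vc) cb' hR
    exfalso
    rcases k with ⟨rfl, rfl⟩ | ⟨rfl, rfl⟩ | ⟨rfl, rfl⟩ | ⟨rfl, rfl⟩ <;>
      rcases k' with ⟨r1, r2⟩ | ⟨r1, r2⟩ | ⟨r1, r2⟩ | ⟨r1, r2⟩ <;> simp_all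
  · subst h
    have k' := C2 L H4 gv (gn _ vz) (gn _ vx) cb' hR
    exfalso
    rcases k with ⟨rfl, rfl⟩ | ⟨rfl, rfl⟩ | ⟨rfl, rfl⟩ | ⟨rfl, rfl⟩ <;>
      rcases k' with ⟨r1, r2⟩ | ⟨r1, r2⟩ | ⟨r1, r2⟩ | ⟨r1, r2⟩ <;> simp_all
  · subst h
    have k' := C2 L H5 gv (gn _ vd) (gn _ vy) cb' hR
    exfalso
    rcases k with ⟨rfl, rfl⟩ | ⟨rfl, rfl⟩ | ⟨rfl, rfl⟩ | ⟨rfl, rfl⟩ <;>
      rcases k' with ⟨r1, r2⟩ | ⟨r1, r2⟩ | ⟨r1, r2⟩ | ⟨r1, r2⟩ <;> simp_all
  · subst h
    exact (C1 L (sy _ _ vb) vd (sy _ _ n6) (gn _ vb) (gn _ vd)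
      (fun h => cb (L.ct_symm _ _ h)) cb').elim

/-! ### Step 1: no U1 vertices -/

/-- the only common near neighbour of `x` and `p` is `m₁` -/
theorem U1.common_eq (sy : ∀ x y, nr x y → nr y x) (ir : ∀ x, ¬ nr x x) {x p m₁ m₂ m₃ q y : V}
    (h : U1 nr an x p m₁ m₂ m₃ q) (hy : nr x y) (hpy : nr p y) : y = m₁ := by
  obtain ⟨⟨h1, h2, ⟨k1, k2, k3, k4, k5⟩, hs⟩, n1, n2, n3, n4, n5, n6⟩ := h
  rcases (h1 y).mp hy with rfl | rfl | rfl | rfl | rfl
  · exact absurd hpy (ir _)
  · rfl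
  · exact absurd hpy k1
  · exact absurd (sy _ _ hpy) k4
  · exact absurd (sy _ _ hpy) n5

/-- a rhombus corner at `p` with one side `x` is impossible -/
theorem U1.no_rh (L : Local nr ct g an Good) {x p m₁ m₂ m₃ q t : V}
    (gx : Good x) (h : U1 nr an x p m₁ m₂ m₃ q) (hr : RH nr p x t) : False := by
  have sy := L.nr_symm
  obtain ⟨r1, r2, r3, r4, w, r5, r6, r7, r8⟩ := hr
  have hxw : RH nr x p w := ⟨sy _ _ r1, sy _ _ r6, r5.symm, r8, t, r3.symm, sy _ _ r2,
    sy _ _ r7, r4⟩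
  obtain ⟨P, n1, n2, n3, n4, n5, n6⟩ := h
  have P' := P
  obtain ⟨h1, h2, ⟨k1, k2, k3, k4, k5⟩, hs⟩ := P'
  rcases (h1 w).mp (sy _ _ r6) with h | h | h | h | h
  · exact r5 h
  · subst h
    exact r8 n1
  · subst h
    exact L.rh_cons x _ _ _ _ _ gx P hxw
  · subst h
    exact L.rh_cons x _ _ _ _ _ gx (((P.rot sy).rot sy).rot sy) (hxw.symmC sy)
  · subst h
    exact r3 (n6 t (sy _ _ r2) (sy _ _ r7)).symm

theorem U1.next (L : Local nr ct g an Good) {x p m₁ m₂ m₃ q : V}
    (gx : Good x) (gp : Good p) (h : U1 nr an x p m₁ m₂ m₃ q) :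
    ∃ u n₁ n₂, U1 nr an p u n₁ n₂ m₁ x := by
  have sy := L.nr_symm
  have ir := L.nr_irrefl
  have as := L.an_symm
  have hx' := h
  obtain ⟨⟨h1, h2, ⟨k1, k2, k3, k4, k5⟩, hs⟩, n1, n2, n3, n4, n5, n6⟩ := hx'
  have hxp : nr x p := (h1 p).mpr (by tauto)
  have hxm : nr x m₁ := (h1 m₁).mpr (by tauto)
  have hpx := sy _ _ hxp
  -- x is not in D2 p
  have nd : ¬ D2 nr p x := by
    rintro ⟨_, s, t, hst, ps, pt, xs, xt⟩
    exact hst ((h.common_eq sy ir xs ps).trans (h.common_eq sy ir xt pt).symm)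
  rcases L.types p gp with hW | ⟨u, n₁, n₂, n₃, v, hU⟩ | ⟨a, b, c, d, e, hU⟩ |
    ⟨a, b, c, d, e, hU⟩
  · exfalso
    obtain ⟨b, c, d, e, f, H⟩ := hW.at sy hpx
    obtain ⟨g1, g2, ⟨l1, l2, l3, l4, l5, l6⟩, _⟩ := H
    apply nd
    refine ⟨hpx, b, f, ?_, (g1 b).mpr (by tauto), (g1 f).mpr (by tauto), l1, sy _ _ l6⟩
    simp only [List.nodup_cons, List.mem_cons, List.not_mem_nil, or_false, not_or] at g2
    exact g2.2.1.2.2.2
  · have hU' := hU
    obtain ⟨P, q1, q2, q3, q4, q5, q6⟩ := hU'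
    have P' := P
    obtain ⟨g1, g2, ⟨l1, l2, l3, l4, l5⟩, gs⟩ := P'
    have pu : nr p u := (g1 u).mpr (by tauto)
    have p1 : nr p n₁ := (g1 n₁).mpr (by tauto)
    have p2 : nr p n₂ := (g1 n₂).mpr (by tauto)
    have p3 : nr p n₃ := (g1 n₃).mpr (by tauto)
    have pv : nr p v := (g1 v).mpr (by tauto)
    simp only [List.nodup_cons, List.mem_cons, List.not_mem_nil, or_false, not_or,
      List.nodup_nil, and_true, not_false_eq_true] at g2
    obtain ⟨⟨a1, a2, a3, a4⟩, ⟨b1, b2, b3⟩, ⟨c1, c2⟩, d1⟩ := g2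
    rcases (g1 x).mp hpx with hh | hh | hh | hh | hh
    · -- x = u: reflect
      subst hh
      have e1 : n₁ = m₁ := h.common_eq sy ir q1 p1
      subst e1
      refine ⟨v, n₃, n₂, ?_, sy _ _ q4, sy _ _ q3, sy _ _ q2, sy _ _ q1, fun h => q5 (sy _ _ h),
        fun w hw hw' => q6 w hw' hw⟩
      exact ((((P.refl' sy as).rot sy)))
    · subst hh
      exact absurd ⟨hpx, u, n₂, a2, pu, p2, sy _ _ q1, q2⟩ nd
    · subst hh
      exact absurd ⟨hpx, n₁, n₃, b2, p1, p3, sy _ _ q2, q3⟩ nd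
    · subst hh
      exact absurd ⟨hpx, n₂, v, c2, p2, pv, sy _ _ q3, q4⟩ nd
    · subst hh
      have e1 : n₃ = m₁ := h.common_eq sy ir (sy _ _ q4) p3
      subst e1
      exact ⟨u, n₁, n₂, hU⟩
  · exfalso
    obtain ⟨P, q1, q2, q3, q4, q5⟩ := hU
    obtain ⟨g1, g2, ⟨l1, l2, l3, l4, l5⟩, gs⟩ := P
    have pa : nr p a := (g1 a).mpr (by tauto)
    have pb : nr p b := (g1 b).mpr (by tauto)
    have pc : nr p c := (g1 c).mpr (by tauto)
    have pd : nr p d := (g1 d).mpr (by tauto)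
    simp only [List.nodup_cons, List.mem_cons, List.not_mem_nil, or_false, not_or,
      List.nodup_nil, and_true, not_false_eq_true] at g2
    obtain ⟨⟨a1, a2, a3, a4⟩, ⟨b1, b2, b3⟩, ⟨c1, c2⟩, d1⟩ := g2
    rcases (g1 x).mp hpx with hh | hh | hh | hh | hh
    · subst hh
      exact h.no_rh L gx (q5.symmC sy)
    · subst hh
      exact nd ⟨hpx, a, c, a2, pa, pc, sy _ _ q1, q2⟩
    · subst hh
      exact nd ⟨hpx, b, d, b2, pb, pd, sy _ _ q2, q3⟩
    · subst hh
      exact h.no_rh L gx q4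
    · subst hh
      exact h.no_rh L gx q5
  · exfalso
    obtain ⟨P, q1, q2, q3, q4, q5⟩ := hU
    obtain ⟨g1, g2, ⟨l1, l2, l3, l4, l5⟩, gs⟩ := P
    have pa : nr p a := (g1 a).mpr (by tauto)
    have pb : nr p b := (g1 b).mpr (by tauto)
    have pc : nr p c := (g1 c).mpr (by tauto)
    simp only [List.nodup_cons, List.mem_cons, List.not_mem_nil, or_false, not_or,
      List.nodup_nil, and_true, not_false_eq_true] at g2
    obtain ⟨⟨a1, a2, a3, a4⟩, ⟨b1, b2, b3⟩, ⟨c1, c2⟩, d1⟩ := g2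
    rcases (g1 x).mp hpx with hh | hh | hh | hh | hh
    · subst hh
      exact h.no_rh L gx (q5.symmC sy)
    · subst hh
      exact nd ⟨hpx, a, c, a2, pa, pc, sy _ _ q1, q2⟩
    · subst hh
      exact h.no_rh L gx q3
    · subst hh
      exact h.no_rh L gx (q3.symmC sy)
    · subst hh
      exact h.no_rh L gx q5

/-- rims of a U1 vertex are contacts -/
theorem U1.contacts (L : Local nr ct g an Good) {x p m₁ m₂ m₃ q : V}
    (gx : Good x) (h : U1 nr an x p m₁ m₂ m₃ q) :
    ct p m₁ ∧ ct m₁ m₂ ∧ ct m₂ m₃ ∧ ct m₃ q := by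
  obtain ⟨P, n1, n2, n3, n4, n5, n6⟩ := h
  have hW := pent_not_W P
  obtain ⟨h1, h2, ⟨k1, k2, k3, k4, k5⟩, hs⟩ := P
  have xp : nr x p := (h1 p).mpr (by tauto)
  have x1 : nr x m₁ := (h1 m₁).mpr (by tauto)
  have x2 : nr x m₂ := (h1 m₂).mpr (by tauto)
  have x3 : nr x m₃ := (h1 m₃).mpr (by tauto)
  have xq : nr x q := (h1 q).mpr (by tauto)
  have key : ∀ y z, nr x y → nr x z → nr y z → ct y z := by
    intro y z hy hz hyz
    by_contra hc
    exact L.u_rim x y z gx hW ⟨hy, hz, hyz, hc⟩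
  exact ⟨key _ _ xp x1 n1, key _ _ x1 x2 n2, key _ _ x2 x3 n3, key _ _ x3 xq n4⟩

theorem no_U1 (L : Local nr ct g an Good) {x : V} (hx : GoodK nr Good 8 x)
    {p m₁ m₂ m₃ q : V} (h1 : U1 nr an x p m₁ m₂ m₃ q) : False := by
  have sy := L.nr_symm
  have np : ∀ {x p m₁ m₂ m₃ q : V}, U1 nr an x p m₁ m₂ m₃ q → nr x p := by
    intro x p m₁ m₂ m₃ q h
    exact (h.1.1 p).mpr (by tauto)
  have g2 := hx.step (np h1)
  obtain ⟨u3, a1, a2, h2⟩ := h1.next L hx.good g2.good
  have g3 := g2.step (np h2)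
  obtain ⟨u4, b1, b2, h3⟩ := h2.next L g2.good g3.good
  have g4 := g3.step (np h3)
  obtain ⟨u5, c1, c2, h4⟩ := h3.next L g3.good g4.good
  have g5 := g4.step (np h4)
  obtain ⟨u6, d1, d2, h5⟩ := h4.next L g4.good g5.good
  have g6 := g5.step (np h5)
  obtain ⟨u7, e1, e2, h6⟩ := h5.next L g5.good g6.good
  have k1 := h1.contacts L hx.good
  have k2 := h2.contacts L g2.good
  have k3 := h3.contacts L g3.good
  have k4 := h4.contacts L g4.good
  have k5 := h5.contacts L g5.good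
  have k6 := h6.contacts L g6.good
  apply L.hole
    (fun n => match n with
      | 0 => q | 1 => x | 2 => p | 3 => u3 | 4 => u4 | 5 => u5 | 6 => u6 | _ => u7)
    (fun n => match n with
      | 0 => m₃ | 1 => m₁ | 2 => a1 | 3 => b1 | 4 => c1 | 5 => d1 | _ => e1)
    (fun n => match n with
      | 0 => m₂ | 1 => a2 | 2 => b2 | 3 => c2 | 4 => d2 | _ => e2)
  intro i hi
  interval_cases i
  · exact ⟨h1.1, k1⟩
  · exact ⟨h2.1, k2⟩
  · exact ⟨h3.1, k3⟩
  · exact ⟨h4.1, k4⟩
  · exact ⟨h5.1, k5⟩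
  · exact ⟨h6.1, k6⟩

/-! ### Step 2: no W vertices -/

/-- every common near neighbour of a non-contact near pair is W -/
theorem apex_W (L : Local nr ct g an Good) {a b v : V} (ga : GoodK nr Good 1 a)
    (hab : nr a b) (cab : ¬ ct a b) (hva : nr v a) (hvb : nr v b) : IsW nr v := by
  have sy := L.nr_symm
  obtain ⟨c, d, hcd, ca, cb, da, db, wc, wd⟩ := L.supp a b ga.good hab cab
  have gc : Good c := (ga.step (sy _ _ ca)).good
  have gd : Good d := (ga.step (sy _ _ da)).good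
  have hne : a ≠ b := by
    rintro rfl
    exact L.nr_irrefl _ hab
  by_cases h1 : v = c
  · rw [h1]
    exact wc gc
  · by_cases h2 : v = d
    · rw [h2]
      exact wd gd
    · exfalso
      exact L.common a b c d v hne hcd (fun h => h1 h.symm) (fun h => h2 h.symm)
        (sy _ _ ca) (sy _ _ cb) (sy _ _ da) (sy _ _ db) (sy _ _ hva) (sy _ _ hvb)

/-- both ends of a non-contact near pair are W -/
theorem end_W (L : Local nr ct g an Good) {a b : V} (ga : GoodK nr Good 8 a)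
    (hab : nr a b) (cab : ¬ ct a b) : IsW nr a := by
  have sy := L.nr_symm
  have ir := L.nr_irrefl
  obtain ⟨c, d, hcd, ca, cb, da, db, _, _⟩ := L.supp a b ga.good hab cab
  have g1 : GoodK nr Good 1 a := ga.mono (by norm_num)
  have Wc : IsW nr c := apex_W L g1 hab cab ca cb
  have Wd : IsW nr d := apex_W L g1 hab cab da db
  obtain ⟨x1, x2, x3, p, Hc⟩ := Wc.at2 sy ir ca cb hab
  obtain ⟨y1, y2, y3, p', Hd⟩ := Wd.at2 sy ir da db hab
  have nbp : ¬ nr b p := Hc.2.2.2.2.2.2.2.2.1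
  have nbp' : ¬ nr b p' := Hd.2.2.2.2.2.2.2.2.1
  have cp : nr c p := (Hc.1 p).mpr (by tauto)
  have dp' : nr d p' := (Hd.1 p').mpr (by tauto)
  have pa : nr p a := Hc.2.2.1.2.2.2.2.2
  have p'a : nr p' a := Hd.2.2.1.2.2.2.2.2
  have hbp : b ≠ p := by
    rintro rfl
    have := Hc.2.1
    simp at this
  have hbp' : b ≠ p' := by
    rintro rfl
    have := Hd.2.1
    simp at this
  have hbc : b ≠ c := by
    rintro rfl
    exact ir _ cb
  have hbd : b ≠ d := by
    rintro rfl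
    exact ir _ db
  have Db : D2 nr a b := ⟨hab, c, d, hcd, sy _ _ ca, sy _ _ da, sy _ _ cb, sy _ _ db⟩
  have Dc : D2 nr a c := ⟨sy _ _ ca, b, p, hbp, hab, sy _ _ pa, cb, cp⟩
  have Dd : D2 nr a d := ⟨sy _ _ da, b, p', hbp', hab, sy _ _ p'a, db, dp'⟩
  rcases L.types a ga.good with hW | ⟨u, n₁, n₂, n₃, v, hU⟩ | ⟨a1, b1, c1, d1, e1, hU⟩ |
    ⟨a1, b1, c1, d1, e1, hU⟩
  · exact hW
  · exact (no_U1 L ga hU).elim
  · exfalso
    rcases hU.d2 sy ir Db with h | h <;> rcases hU.d2 sy ir Dc with h' | h' <;>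
      rcases hU.d2 sy ir Dd with h'' | h'' <;> subst h <;> simp_all
  · exfalso
    exact hbc ((hU.d2 sy ir Db).trans (hU.d2 sy ir Dc).symm)

/-- induction step around the W vertex `c` with rim `ab` -/
theorem W_step (L : Local nr ct g an Good) {c a b p v q y : V} (gc : Good c)
    (hR : Rim nr ct c a b) (gv : GoodK nr Good 8 v)
    (cp : nr c p) (cv : nr c v) (cq : nr c q) (pv : nr p v) (vq : nr v q) (hpq : p ≠ q)
    (py : nr p y) (vy : nr v y) (cvy : ¬ ct v y) (hyc : y ≠ c) (hg : g a b < g v y) :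
    ∃ w, nr v w ∧ nr q w ∧ ¬ ct q w ∧ w ≠ c ∧ g a b < g q w := by
  have sy := L.nr_symm
  have ir := L.nr_irrefl
  have Wv : IsW nr v := end_W L gv vy cvy
  obtain ⟨s1, s2, s3, s4, H⟩ := Wv.at2 sy ir vy (sy _ _ pv) (sy _ _ py)
  -- H : HexAt v y p s1 s2 s3 s4
  have H2 := H.rot sy
  have e1 : s1 = c := by
    rcases H2.link ir (sy _ _ cv) (sy _ _ cp) with h | h
    · exact h.symm
    · exact absurd h.symm hyc
  subst e1
  have H3 := H2.rot sy
  have e2 : s2 = q := by
    rcases H3.link ir vq cq with h | h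
    · exact h.symm
    · exact absurd h.symm hpq
  subst e2
  obtain ⟨r, t, hRv⟩ := L.w_rim v gv.good Wv
  have hp' : Good p := (gv.step (sy _ _ pv)).good
  have vs4 : nr v s4 := (H.1 s4).mpr (by tauto)
  have gs4 : Good s4 := (gv.step vs4).good
  have hnd := H.2.1
  simp only [List.nodup_cons, List.mem_cons, List.not_mem_nil, or_false, not_or,
    List.nodup_nil, and_true, not_false_eq_true] at hnd
  have vs3 : nr v s3 := (H.1 s3).mpr (by tauto)
  have qs3 : nr s2 s3 := H.2.2.1.2.2.2.1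
  -- a rim pair {c, q} at v is impossible
  have no1 : ¬ Rim nr ct v s1 s2 := by
    intro hr
    have w1 := L.w_gap v s1 s2 y gv.good hr vy cvy
    have w2 := L.w_gap s1 a b s2 gc hR cq hr.2.2.2
    linarith
  have sec : Rim nr ct v s2 s3 → ∃ w, nr v w ∧ nr s2 w ∧ ¬ ct s2 w ∧ w ≠ s1 ∧
      g a b < g s2 w := by
    intro hr
    have w1 := L.w_gap v s2 s3 y gv.good hr vy cvy
    exact ⟨s3, vs3, qs3, hr.2.2.2, fun h => hnd.2.2.1.2.1 h.symm, by linarith⟩
  have rsym : ∀ y z, Rim nr ct v y z → Rim nr ct v z y := fun y z h =>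
    ⟨h.2.1, h.1, sy _ _ h.2.2.1, fun h' => h.2.2.2 (L.ct_symm _ _ h')⟩
  rcases C2 L H gv.good hp' gs4 cvy hRv with ⟨rfl, rfl⟩ | ⟨rfl, rfl⟩ | ⟨rfl, rfl⟩ | ⟨rfl, rfl⟩
  · exact absurd hRv no1
  · exact absurd (rsym _ _ hRv) no1
  · exact sec hRv
  · exact sec (rsym _ _ hRv)

/-- the contradiction around `c`, given the first step on the side of `c` -/
theorem W_around (L : Local nr ct g an Good) {c a b n y z d : V} (gc : GoodK nr Good 10 c)
    (hWc : IsW nr c) (hR : Rim nr ct c a b) (H : HexAt nr a b c n y z d)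
    (hn : Rim nr ct a n y) : False := by
  have sy := L.nr_symm
  have ir := L.nr_irrefl
  obtain ⟨ca, cb, hab, cab⟩ := hR
  have hR : Rim nr ct c a b := ⟨ca, cb, hab, cab⟩
  have cn : nr c n := H.2.2.1.2.1
  have an' : nr a n := hn.1
  have hnd := H.2.1
  simp only [List.nodup_cons, List.mem_cons, List.not_mem_nil, or_false, not_or,
    List.nodup_nil, and_true, not_false_eq_true] at hnd
  obtain ⟨m2, m3, m4, t, Hc⟩ := hWc.at2 sy ir ca cn an'
  -- Hc : HexAt c a n m2 m3 m4 t, so t = b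
  have et : t = b := by
    rcases Hc.link ir cb hab with h | h
    · exact absurd h hnd.1.2.1
    · exact h.symm
  subst et
  have ga : GoodK nr Good 9 a := gc.step ca
  have gb : GoodK nr Good 9 t := gc.step cb
  have hnd2 := Hc.2.1
  simp only [List.nodup_cons, List.mem_cons, List.not_mem_nil, or_false, not_or,
    List.nodup_nil, and_true, not_false_eq_true] at hnd2
  obtain ⟨hc1, hc2, ⟨q1, q2, q3, q4, q5, q6⟩, ⟨r1, r2, r3, r4, r5, r6, r7, r8, r9⟩⟩ := Hc
  have cm2 : nr c m2 := (hc1 m2).mpr (by tauto)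
  have cm3 : nr c m3 := (hc1 m3).mpr (by tauto)
  have cm4 : nr c m4 := (hc1 m4).mpr (by tauto)
  have g1 := (gc.step cn).mono (by norm_num : 8 ≤ 9)
  have g2 := (gc.step cm2).mono (by norm_num : 8 ≤ 9)
  have g3 := (gc.step cm3).mono (by norm_num : 8 ≤ 9)
  have g4 := (gc.step cm4).mono (by norm_num : 8 ≤ 9)
  have hg1 : g a t < g n y := L.w_gap a n y t ga.good hn hab cab
  have ayn := hn.2.1
  obtain ⟨y2, v2, w2, c2, d2, hg2⟩ := W_step L gc.good hR g1 ca cn cm2 an' q2
    (fun h => hnd2.1.2.1 h) ayn hn.2.2.1 hn.2.2.2 (fun h => hnd.2.1.2.1 h.symm) hg1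
  obtain ⟨y3, v3, w3, c3, d3, hg3⟩ := W_step L gc.good hR g2 cn cm2 cm3 q2 q3
    (fun h => hnd2.2.1.2.1 h) v2 w2 c2 d2 hg2
  obtain ⟨y4, v4, w4, c4, d4, hg4⟩ := W_step L gc.good hR g3 cm2 cm3 cm4 q3 q4
    (fun h => hnd2.2.2.1.2.1 h) v3 w3 c3 d3 hg3
  obtain ⟨y5, v5, w5, c5, d5, hg5⟩ := W_step L gc.good hR g4 cm3 cm4 cb q4 q5
    (fun h => hnd2.2.2.2.1.2 h) v4 w4 c4 d4 hg4
  have Wb : IsW nr t := end_W L (gb.mono (by norm_num)) w5 c5
  have e := C3 L gb.good Wb (fun y hy => (gb.step hy).good) (sy _ _ hab) w5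
    (fun h => cab (L.ct_symm _ _ h)) c5
  subst e
  exact r3 (sy _ _ v5)

theorem no_W (L : Local nr ct g an Good) {c₀ : V} (hx : GoodK nr Good 12 c₀) : ¬ IsW nr c₀ := by
  intro hW
  have sy := L.nr_symm
  have ir := L.nr_irrefl
  obtain ⟨a, b, hR⟩ := L.w_rim c₀ hx.good hW
  obtain ⟨ca, cb, hab, cab⟩ := id hR
  have ga : GoodK nr Good 11 a := hx.step ca
  have gb : GoodK nr Good 11 b := hx.step cb
  have Wa : IsW nr a := end_W L (ga.mono (by norm_num)) hab cab
  obtain ⟨n, y, z, d, H⟩ := Wa.at2 sy ir hab (sy _ _ ca) (sy _ _ cb)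
  -- H : HexAt a b c₀ n y z d
  have ad : nr a d := (H.1 d).mpr (by tauto)
  have bd : nr d b := H.2.2.1.2.2.2.2.2
  have gd : GoodK nr Good 10 d := ga.step ad
  have Wd : IsW nr d := apex_W L (ga.mono (by norm_num)) hab cab (sy _ _ ad) bd
  obtain ⟨r, t, hRa⟩ := L.w_rim a ga.good Wa
  have rsym : ∀ y z, Rim nr ct a y z → Rim nr ct a z y := fun y z h =>
    ⟨h.2.1, h.1, sy _ _ h.2.2.1, fun h' => h.2.2.2 (L.ct_symm _ _ h')⟩
  have one : ¬ Rim nr ct a n y := fun h => W_around L (hx.mono (by norm_num)) hW hR H h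
  have two : ¬ Rim nr ct a y z := by
    intro h
    exact W_around L gd Wd ⟨sy _ _ ad, bd, hab, cab⟩ (H.refl' sy) (rsym _ _ h)
  rcases C2 L H ga.good hx.good gd.good cab hRa with ⟨rfl, rfl⟩ | ⟨rfl, rfl⟩ | ⟨rfl, rfl⟩ |
    ⟨rfl, rfl⟩
  · exact one hRa
  · exact one (rsym _ _ hRa)
  · exact two hRa
  · exact two (rsym _ _ hRa)

/-! ### Step 3 -/

theorem all_ct (L : Local nr ct g an Good) {y z : V} (hy : GoodK nr Good 13 y) (hyz : nr y z) :
    ct y z := by
  by_contra hc
  obtain ⟨c, d, hcd, ca, cb, da, db, _, _⟩ := L.supp y z hy.good hyz hc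
  have := apex_W L (hy.mono (by norm_num)) hyz hc ca cb
  exact no_W L (hy.step (L.nr_symm _ _ ca)) this

theorem types3 (L : Local nr ct g an Good) {x : V} (hx : GoodK nr Good 12 x) :
    (∃ a b c d e, U2a nr an x a b c d e) ∨ (∃ a b c d e, U2b nr an x a b c d e) := by
  rcases L.types x hx.good with hW | ⟨u, n₁, n₂, n₃, v, hU⟩ | h | h
  · exact absurd hW (no_W L hx)
  · exact (no_U1 L (hx.mono (by norm_num)) hU).elim
  · exact Or.inl h
  · exact Or.inr h

theorem U2a.sum (L : Local nr ct g an Good) {x a b c d e : V} (hx : GoodK nr Good 14 x)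
    (h : U2a nr an x a b c d e) : π < an x d e + an x e a := by
  obtain ⟨⟨h1, h2, _, hs⟩, q1, q2, q3, q4, q5⟩ := h
  have xa : nr x a := (h1 a).mpr (by tauto)
  have xb : nr x b := (h1 b).mpr (by tauto)
  have xc : nr x c := (h1 c).mpr (by tauto)
  have xd : nr x d := (h1 d).mpr (by tauto)
  have t1 := L.tri x a b xa xb (all_ct L (hx.step xa) q1)
  have t2 := L.tri x b c xb xc (all_ct L (hx.step xb) q2)
  have t3 := L.tri x c d xc xd (all_ct L (hx.step xc) q3)
  linarith

theorem U2b.sum (L : Local nr ct g an Good) {x a b c d e : V} (hx : GoodK nr Good 14 x)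
    (h : U2b nr an x a b c d e) : π < an x c d + an x e a := by
  obtain ⟨⟨h1, h2, _, hs⟩, q1, q2, q3, q4, q5⟩ := h
  have xa : nr x a := (h1 a).mpr (by tauto)
  have xb : nr x b := (h1 b).mpr (by tauto)
  have xc : nr x c := (h1 c).mpr (by tauto)
  have xd : nr x d := (h1 d).mpr (by tauto)
  have xe : nr x e := (h1 e).mpr (by tauto)
  have t1 := L.tri x a b xa xb (all_ct L (hx.step xa) q1)
  have t2 := L.tri x b c xb xc (all_ct L (hx.step xb) q2)
  have t3 := L.tri x d e xd xe (all_ct L (hx.step xd) q4)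
  linarith

/-- two distinct rhombus corners at a vertex have angle sum above `π` -/
theorem two_RH (L : Local nr ct g an Good) {x p q r s : V} (hx : GoodK nr Good 14 x)
    (h1 : RH nr x p q) (h2 : RH nr x r s) (hne : ¬ (p = r ∧ q = s)) (hne' : ¬ (p = s ∧ q = r)) :
    π < an x p q + an x r s := by
  have sy := L.nr_symm
  have as := L.an_symm
  -- in a pentagon, RH pairs are consecutive
  have cons : ∀ {a b c d e p q : V}, PentAt nr an x a b c d e → RH nr x p q →
      (p = a ∧ q = b ∨ p = b ∧ q = a) ∨ (p = b ∧ q = c ∨ p = c ∧ q = b) ∨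
      (p = c ∧ q = d ∨ p = d ∧ q = c) ∨ (p = d ∧ q = e ∨ p = e ∧ q = d) ∨
      (p = e ∧ q = a ∨ p = a ∧ q = e) := by
    intro a b c d e p q P hr
    have P2 := P.rot sy
    have P3 := P2.rot sy
    have P4 := P3.rot sy
    have P5 := P4.rot sy
    have k1 := L.rh_cons x _ _ _ _ _ hx.good P
    have k2 := L.rh_cons x _ _ _ _ _ hx.good P2
    have k3 := L.rh_cons x _ _ _ _ _ hx.good P3
    have k4 := L.rh_cons x _ _ _ _ _ hx.good P4
    have k5 := L.rh_cons x _ _ _ _ _ hx.good P5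
    have hr' := hr.symmC sy
    have hpq := hr.2.2.1
    rcases (P.1 p).mp hr.1 with rfl | rfl | rfl | rfl | rfl <;>
      rcases (P.1 q).mp hr.2.1 with rfl | rfl | rfl | rfl | rfl <;>
      first
      | exact Or.inl (Or.inl ⟨rfl, rfl⟩)
      | exact Or.inl (Or.inr ⟨rfl, rfl⟩)
      | exact Or.inr (Or.inl (Or.inl ⟨rfl, rfl⟩))
      | exact Or.inr (Or.inl (Or.inr ⟨rfl, rfl⟩))
      | exact Or.inr (Or.inr (Or.inl (Or.inl ⟨rfl, rfl⟩)))
      | exact Or.inr (Or.inr (Or.inl (Or.inr ⟨rfl, rfl⟩)))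
      | exact Or.inr (Or.inr (Or.inr (Or.inl (Or.inl ⟨rfl, rfl⟩))))
      | exact Or.inr (Or.inr (Or.inr (Or.inl (Or.inr ⟨rfl, rfl⟩))))
      | exact Or.inr (Or.inr (Or.inr (Or.inr (Or.inl ⟨rfl, rfl⟩))))
      | exact Or.inr (Or.inr (Or.inr (Or.inr (Or.inr ⟨rfl, rfl⟩))))
      | exact absurd rfl hpq
      | exact absurd hr (by assumption)
      | exact absurd hr' (by assumption)
  have nn : ∀ {p q : V}, RH nr x p q → ¬ nr p q := fun h => h.2.2.2.1
  have as1 := as x p q
  have as2 := as x r s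
  rcases types3 L (hx.mono (by norm_num)) with ⟨a, b, c, d, e, hU⟩ | ⟨a, b, c, d, e, hU⟩
  · have hs := hU.sum L hx
    obtain ⟨P, q1, q2, q3, q4, q5⟩ := hU
    have two : ∀ {p q : V}, RH nr x p q →
        (p = d ∧ q = e ∨ p = e ∧ q = d) ∨ (p = e ∧ q = a ∨ p = a ∧ q = e) := by
      intro p q hr
      have := nn hr
      have := nn (hr.symmC sy)
      rcases cons P hr with (⟨rfl, rfl⟩ | ⟨rfl, rfl⟩) | (⟨rfl, rfl⟩ | ⟨rfl, rfl⟩) |
        (⟨rfl, rfl⟩ | ⟨rfl, rfl⟩) | h | h
      · contradiction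
      · contradiction
      · contradiction
      · contradiction
      · contradiction
      · contradiction
      · exact Or.inl h
      · exact Or.inr h
    rcases two h1 with (⟨rfl, rfl⟩ | ⟨rfl, rfl⟩) | (⟨rfl, rfl⟩ | ⟨rfl, rfl⟩) <;>
      rcases two h2 with (⟨e1, e2⟩ | ⟨e1, e2⟩) | (⟨e1, e2⟩ | ⟨e1, e2⟩) <;> subst e1 <;>
      subst e2 <;>
      first
      | exact absurd ⟨rfl, rfl⟩ hne
      | exact absurd ⟨rfl, rfl⟩ hne'
      | linarith
  · have hs := hU.sum L hx
    obtain ⟨P, q1, q2, q3, q4, q5⟩ := hU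
    have two : ∀ {p q : V}, RH nr x p q →
        (p = c ∧ q = d ∨ p = d ∧ q = c) ∨ (p = e ∧ q = a ∨ p = a ∧ q = e) := by
      intro p q hr
      have := nn hr
      have := nn (hr.symmC sy)
      rcases cons P hr with (⟨rfl, rfl⟩ | ⟨rfl, rfl⟩) | (⟨rfl, rfl⟩ | ⟨rfl, rfl⟩) |
        h | (⟨rfl, rfl⟩ | ⟨rfl, rfl⟩) | h
      · contradiction
      · contradiction
      · contradiction
      · contradiction
      · exact Or.inl h
      · contradiction
      · contradiction
      · exact Or.inr h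
    rcases two h1 with (⟨rfl, rfl⟩ | ⟨rfl, rfl⟩) | (⟨rfl, rfl⟩ | ⟨rfl, rfl⟩) <;>
      rcases two h2 with (⟨e1, e2⟩ | ⟨e1, e2⟩) | (⟨e1, e2⟩ | ⟨e1, e2⟩) <;> subst e1 <;>
      subst e2 <;>
      first
      | exact absurd ⟨rfl, rfl⟩ hne
      | exact absurd ⟨rfl, rfl⟩ hne'
      | linarith

/-- a rhombus corner at `x` with witness `w` gives a rhombus corner at `p` -/
theorem RH.move (sy : ∀ x y, nr x y → nr y x) {x p q w : V} (h1 : nr x p) (h2 : nr x q)
    (h3 : p ≠ q) (h4 : ¬ nr p q) (h5 : w ≠ x) (h6 : nr w p) (h7 : nr w q) (h8 : ¬ nr x w) :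
    RH nr p x w :=
  ⟨sy _ _ h1, sy _ _ h6, h5.symm, h8, q, h3.symm, sy _ _ h2, sy _ _ h7, h4⟩

/-- contact rhombus inequality in terms of RH data -/
theorem rh_le (L : Local nr ct g an Good) {x p q w : V} (hx : GoodK nr Good 15 x)
    (h1 : nr x p) (h2 : nr x q)
    (h3 : p ≠ q) (h5 : w ≠ x) (h6 : nr w p) (h7 : nr w q) :
    an x p q + an p x w ≤ π := by
  have sy := L.nr_symm
  exact L.rhomb x p w q (all_ct L (hx.mono (by norm_num)) h1)
    (all_ct L ((hx.step h1).mono (by norm_num)) (sy _ _ h6))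
    (L.ct_symm _ _ (all_ct L ((hx.step h2).mono (by norm_num)) (sy _ _ h7)))
    (L.ct_symm _ _ (all_ct L (hx.mono (by norm_num)) h2)) h5.symm h3

theorem no_U2a (L : Local nr ct g an Good) {x a b c d e : V} (hx : GoodK nr Good 16 x)
    (h : U2a nr an x a b c d e) : False := by
  have sy := L.nr_symm
  have as := L.an_symm
  have hs := h.sum L (hx.mono (by norm_num))
  obtain ⟨P, q1, q2, q3, q4, q5⟩ := h
  obtain ⟨xd, xe, hde, nde, w1, hw1, w1d, w1e, nxw1⟩ := q4
  obtain ⟨_, xa, hea, nea, w2, hw2, w2e, w2a, nxw2⟩ := q5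
  have hda : d ≠ a := by
    rintro rfl
    have := P.2.1
    simp at this
  have hww : w1 ≠ w2 := by
    rintro rfl
    exact L.common x w1 a d e hw1.symm hda.symm hea.symm hde xa w2a xd w1d xe w1e
  have ge : GoodK nr Good 15 e := hx.step xe
  have r1 : RH nr e x w1 := RH.move sy xe xd hde.symm (fun h => nde (sy _ _ h)) hw1 w1e w1d nxw1
  have r2 : RH nr e x w2 := RH.move sy xe xa hea nea hw2 w2e w2a nxw2
  have s1 := two_RH L (ge.mono (by norm_num)) r1 r2 (fun h => hww h.2)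
    (fun h => r2.2.2.1 h.1)
  have t1 := rh_le L (hx.mono (by norm_num)) xe xd hde.symm hw1 w1e w1d
  have t2 := rh_le L (hx.mono (by norm_num)) xe xa hea hw2 w2e w2a
  rw [as x e d] at t1
  linarith

/-- one corner of the final configuration -/
theorem corner (L : Local nr ct g an Good) {x b c d d' : V} (hx : GoodK nr Good 16 x)
    (xb : nr x b) (h1 : RH nr x c d) (h2 : RH nr b c d') :
    ∃ w w', an x c d + an c x w ≤ π ∧ an b c d' + an c b w' ≤ π ∧
      π < an c x w + an c b w' := by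
  have sy := L.nr_symm
  obtain ⟨xc, xd, hcd, ncd, w, hw, wc, wd, nxw⟩ := h1
  obtain ⟨bc, bd, hcd', ncd', w', hw', wc', wd', nbw'⟩ := h2
  have gb : GoodK nr Good 15 b := hx.step xb
  have gc : GoodK nr Good 15 c := hx.step xc
  have r1 : RH nr c x w := RH.move sy xc xd hcd ncd hw wc wd nxw
  have r2 : RH nr c b w' := RH.move sy bc bd hcd' ncd' hw' wc' wd' nbw'
  have hxb : x ≠ b := by
    rintro rfl
    exact L.nr_irrefl _ xb
  refine ⟨w, w', rh_le L (hx.mono (by norm_num)) xc xd hcd hw wc wd,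
    rh_le L gb bc bd hcd' hw' wc' wd', ?_⟩
  apply two_RH L (gc.mono (by norm_num)) r1 r2 (fun h => hxb h.1)
  rintro ⟨_, h⟩
  subst h
  exact nxw xb

theorem no_good {V : Type*} {nr ct : V → V → Prop} {g : V → V → ℝ} {an : V → V → V → ℝ}
    {Good : V → Prop} (L : Local nr ct g an Good) (x : V) : ¬ GoodK nr Good 20 x := by
  intro hx
  have sy := L.nr_symm
  have ir := L.nr_irrefl
  have as := L.an_symm
  rcases types3 L (hx.mono (by norm_num)) with ⟨a, b, c, d, e, hU⟩ | ⟨a, b, c, d, e, hU⟩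
  · exact no_U2a L (hx.mono (by norm_num)) hU
  · have hU' := hU
    obtain ⟨P, q1, q2, q3, q4, q5⟩ := hU'
    have P' := P
    obtain ⟨h1, h2, ⟨k1, k2, k3, k4, k5⟩, hs⟩ := P'
    have hsx := hU.sum L (hx.mono (by norm_num))
    have xa : nr x a := (h1 a).mpr (by tauto)
    have xb : nr x b := (h1 b).mpr (by tauto)
    have xc : nr x c := (h1 c).mpr (by tauto)
    simp only [List.nodup_cons, List.mem_cons, List.not_mem_nil, or_false, not_or,
      List.nodup_nil, and_true, not_false_eq_true] at h2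
    have gb : GoodK nr Good 19 b := hx.step xb
    -- the type of b
    have Dx : D2 nr b x := ⟨sy _ _ xb, a, c, h2.1.2.1, sy _ _ q1, q2, xa, xc⟩
    have fin : ∀ d' e', U2b nr an b a x c d' e' → False := by
      intro d' e' hB
      have hsb := hB.sum L (gb.mono (by norm_num))
      obtain ⟨Pb, _, _, r3, _, r5⟩ := hB
      obtain ⟨w, w', i1, i2, i3⟩ := corner L (hx.mono (by norm_num)) xb q3 r3
      obtain ⟨v, v', j1, j2, j3⟩ := corner L (hx.mono (by norm_num)) xb (q5.symmC sy)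
        (r5.symmC sy)
      rw [as x a e] at j1
      rw [as b a e'] at j2
      linarith
    rcases types3 L (gb.mono (by norm_num)) with ⟨a', b', c', d', e', hB⟩ |
      ⟨a', b', c', d', e', hB⟩
    · exact no_U2a L (gb.mono (by norm_num)) hB
    · have eb : x = b' := hB.d2 sy ir Dx
      subst eb
      have hB' := hB
      obtain ⟨Pb, r1, r2, r3, r4, r5⟩ := hB'
      have Pb' := Pb
      obtain ⟨g1, g2, ⟨l1, l2, l3, l4, l5⟩, gs⟩ := Pb'
      have ba : nr b a := sy _ _ q1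
      have bc : nr b c := q2
      have hac := h2.1.2.1
      -- a and c are among a', c'
      have mem : ∀ y, nr b y → nr x y → y = a' ∨ y = c' := by
        intro y hy hxy
        rcases (g1 y).mp hy with h | h | h | h | h
        · exact Or.inl h
        · subst h
          exact absurd hxy (ir _)
        · exact Or.inr h
        · subst h
          exact absurd hxy l2
        · subst h
          exact absurd (sy _ _ hxy) l5
      rcases mem a ba xa with ea | ea <;> rcases mem c bc xc with ec | ec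
      · exact hac (ea.trans ec.symm)
      · subst ea
        subst ec
        exact fin _ _ hB
      · subst ea
        subst ec
        apply fin e' d'
        refine ⟨(((Pb.refl' sy as).rot sy).rot sy).rot sy, sy _ _ r2, sy _ _ r1, ?_, sy _ _ r4, ?_⟩
        · exact r5.symmC sy
        · exact r3.symmC sy
      · exact hac (ea.trans ec.symm)

end Comb

end Pool.Agent.HypPack
end

section

set_option autoImplicit false

open scoped Real UpperHalfPlane

namespace Pool.Agent.HypPack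

theorem near_symm' {S : Finset ℍ} {h κ : ℝ} {x y : ℍ} (H : Near S h κ x y) :
    Near S h κ y x := by
  obtain ⟨hx, hy, hne, hr⟩ := H
  refine ⟨hy, hx, hne.symm, ?_⟩
  have : R h y x = R h x y := by
    unfold R
    rw [dist_comm]
  rw [this]; exact hr

open Classical in
/-- the set of points of `S` in `Y` or near a point of `Y` has at most `7 |Y|` elements -/
theorem nbhd_card {S : Finset ℍ} {h κ : ℝ} (deg6 : ∀ x ∈ S, ndeg S h κ x ≤ 6)
    (Y : Finset ℍ) (hY : Y ⊆ S) (Z : Finset ℍ) (hZS : Z ⊆ S)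
    (hZ : ∀ x ∈ Z, x ∈ Y ∨ ∃ y ∈ Y, Near S h κ x y) :
    Z.card ≤ 7 * Y.card := by
  have hsub : Z ⊆ Y ∪ Y.biUnion (fun y => S.filter (Near S h κ y)) := by
    intro x hx
    rcases hZ x hx with h1 | ⟨y, hy, hxy⟩
    · exact Finset.mem_union_left _ h1
    · apply Finset.mem_union_right
      rw [Finset.mem_biUnion]
      exact ⟨y, hy, Finset.mem_filter.mpr ⟨hZS hx, near_symm' hxy⟩⟩
  calc Z.card ≤ (Y ∪ Y.biUnion (fun y => S.filter (Near S h κ y))).card :=
        Finset.card_le_card hsub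
    _ ≤ Y.card + (Y.biUnion (fun y => S.filter (Near S h κ y))).card := Finset.card_union_le _ _
    _ ≤ Y.card + Y.card * 6 := by
        apply Nat.add_le_add_left
        apply Finset.card_biUnion_le_card_mul
        intro y hy
        exact deg6 y (hY hy)
    _ = 7 * Y.card := by ring

open Classical in
theorem goodK_card {S : Finset ℍ} {h κ : ℝ} (deg6 : ∀ x ∈ S, ndeg S h κ x ≤ 6) (k : ℕ) :
    (S.filter (fun x => ¬ GoodK (Near S h κ) (Good S h κ) k x)).card ≤
      7 ^ k * (S.filter (fun x => ¬ Good S h κ x)).card := by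
  induction k with
  | zero => simp [GoodK]
  | succ k ih =>
    have h1 := nbhd_card deg6 (S.filter (fun x => ¬ GoodK (Near S h κ) (Good S h κ) k x))
      (Finset.filter_subset _ _) (S.filter (fun x => ¬ GoodK (Near S h κ) (Good S h κ) (k+1) x))
      (Finset.filter_subset _ _) (by
        intro x hx
        rw [Finset.mem_filter] at hx
        obtain ⟨hxS, hx⟩ := hx
        by_cases hk : GoodK (Near S h κ) (Good S h κ) k x
        · right
          have : ¬ ∀ y, Near S h κ x y → GoodK (Near S h κ) (Good S h κ) k y := by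
            intro hall
            exact hx ⟨hk, hall⟩
          push Not at this
          obtain ⟨y, hxy, hy⟩ := this
          exact ⟨y, Finset.mem_filter.mpr ⟨hxy.2.1, hy⟩, hxy⟩
        · left
          exact Finset.mem_filter.mpr ⟨hxS, hk⟩)
    calc _ ≤ 7 * (S.filter (fun x => ¬ GoodK (Near S h κ) (Good S h κ) k x)).card := h1
      _ ≤ 7 * (7 ^ k * (S.filter (fun x => ¬ Good S h κ x)).card) := Nat.mul_le_mul_left _ ih
      _ = _ := by ring

/-- TASK K (file Cover.lean) -/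
theorem cover_bound {S : Finset ℍ} {h κ : ℝ}
    (deg6 : ∀ x ∈ S, ndeg S h κ x ≤ 6)
    (hsum : |∑ x ∈ S, GG S h κ x| ≤ 1 / 10 ^ 25 * (S.card : ℝ))
    (hlow : ∀ x ∈ S, -100 ≤ GG S h κ x)
    (hclean : ∀ x ∈ S, CleanN S h κ x → -(1 / 10 ^ 25) ≤ GG S h κ x)
    (hgood : ∀ x, ¬ GoodK (Near S h κ) (Good S h κ) 20 x) :
    open Classical in
    (S.card : ℝ) ≤ 10 ^ 24 * ((S.filter (fun x => ¬ Clean S h κ x)).card : ℝ) := by
  classical
  have e1 : S.filter (fun x => ¬ GoodK (Near S h κ) (Good S h κ) 20 x) = S :=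
    Finset.filter_true_of_mem (fun x _ => hgood x)
  have h1 := goodK_card deg6 20
  rw [e1] at h1
  -- the vertices that are not `CleanN`
  set Bd := S.filter (fun x => ¬ Clean S h κ x) with hBd
  set NB := S.filter (fun x => ¬ CleanN S h κ x) with hNB
  set F := S.filter (fun x => CleanN S h κ x ∧ 1 / 100 ≤ GG S h κ x) with hF
  set F' := S.filter (fun x => CleanN S h κ x ∧ ¬ 1 / 100 ≤ GG S h κ x) with hF'
  have hNBcard : NB.card ≤ 7 * Bd.card := by
    apply nbhd_card deg6 Bd (Finset.filter_subset _ _) NB (Finset.filter_subset _ _)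
    intro x hx
    rw [hNB, Finset.mem_filter] at hx
    obtain ⟨hxS, hx⟩ := hx
    by_cases hc : Clean S h κ x
    · right
      have : ¬ ∀ y, Near S h κ x y → Clean S h κ y := fun hall => hx ⟨hc, hall⟩
      push Not at this
      obtain ⟨y, hxy, hy⟩ := this
      exact ⟨y, Finset.mem_filter.mpr ⟨hxy.2.1, hy⟩, hxy⟩
    · left
      exact Finset.mem_filter.mpr ⟨hxS, hc⟩
  have hA : S.filter (fun x => ¬ Good S h κ x) ⊆ NB ∪ F := by
    intro x hx
    rw [Finset.mem_filter] at hx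
    obtain ⟨hxS, hx⟩ := hx
    by_cases hc : CleanN S h κ x
    · apply Finset.mem_union_right
      rw [hF, Finset.mem_filter]
      refine ⟨hxS, hc, ?_⟩
      by_contra hlt
      push Not at hlt
      exact hx ⟨hxS, hc, hlt⟩
    · apply Finset.mem_union_left
      exact Finset.mem_filter.mpr ⟨hxS, hc⟩
  have hAcard : (S.filter (fun x => ¬ Good S h κ x)).card ≤ NB.card + F.card :=
    (Finset.card_le_card hA).trans (Finset.card_union_le _ _)
  -- the sum
  have hsplit : ∑ x ∈ S, GG S h κ x =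
      ∑ x ∈ NB, GG S h κ x + (∑ x ∈ F, GG S h κ x + ∑ x ∈ F', GG S h κ x) := by
    have a1 : ∑ x ∈ S, GG S h κ x = ∑ x ∈ S.filter (fun x => ¬ CleanN S h κ x), GG S h κ x +
        ∑ x ∈ S.filter (fun x => ¬ ¬ CleanN S h κ x), GG S h κ x :=
      (Finset.sum_filter_add_sum_filter_not S (fun x => ¬ CleanN S h κ x) _).symm
    have a2 : ∑ x ∈ S.filter (fun x => ¬ ¬ CleanN S h κ x), GG S h κ x =
        ∑ x ∈ F, GG S h κ x + ∑ x ∈ F', GG S h κ x := by
      rw [← Finset.sum_filter_add_sum_filter_not (S.filter (fun x => ¬ ¬ CleanN S h κ x))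
        (fun x => 1 / 100 ≤ GG S h κ x), Finset.filter_filter, Finset.filter_filter]
      simp only [not_not, hF, hF']
    rw [a1, a2]
  have s1 : -100 * (NB.card : ℝ) ≤ ∑ x ∈ NB, GG S h κ x := by
    have := Finset.card_nsmul_le_sum NB (fun x => GG S h κ x) (-100) (by
      intro x hx
      exact hlow x (Finset.mem_filter.mp hx).1)
    rw [nsmul_eq_mul] at this
    linarith
  have s2 : (1 / 100) * (F.card : ℝ) ≤ ∑ x ∈ F, GG S h κ x := by
    have := Finset.card_nsmul_le_sum F (fun x => GG S h κ x) (1 / 100) (by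
      intro x hx
      exact (Finset.mem_filter.mp hx).2.2)
    rw [nsmul_eq_mul] at this
    linarith
  have s3 : -(1 / 10 ^ 25) * (F'.card : ℝ) ≤ ∑ x ∈ F', GG S h κ x := by
    have := Finset.card_nsmul_le_sum F' (fun x => GG S h κ x) (-(1 / 10 ^ 25)) (by
      intro x hx
      have := Finset.mem_filter.mp hx
      exact hclean x this.1 this.2.1)
    rw [nsmul_eq_mul] at this
    linarith
  have hF'card : (F'.card : ℝ) ≤ S.card := by
    exact_mod_cast Finset.card_le_card (Finset.filter_subset _ _)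
  have hNBr : (NB.card : ℝ) ≤ 7 * Bd.card := by exact_mod_cast hNBcard
  have hAr : ((S.filter (fun x => ¬ Good S h κ x)).card : ℝ) ≤ NB.card + F.card := by
    exact_mod_cast hAcard
  have h1r : (S.card : ℝ) ≤ 7 ^ 20 * ((S.filter (fun x => ¬ Good S h κ x)).card : ℝ) := by
    exact_mod_cast h1
  have hub : ∑ x ∈ S, GG S h κ x ≤ 1 / 10 ^ 25 * (S.card : ℝ) := (abs_le.mp hsum).2
  rw [hsplit] at hub
  have hB0 : (0 : ℝ) ≤ Bd.card := Nat.cast_nonneg _
  have hFr : (F.card : ℝ) ≤ 70000 * Bd.card + 2 / 10 ^ 23 * S.card := by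
    have : -(1 / 10 ^ 25) * (S.card : ℝ) ≤ -(1 / 10 ^ 25) * (F'.card : ℝ) := by
      nlinarith
    linarith
  have key : (S.card : ℝ) ≤ 7 ^ 20 * (70007 * Bd.card + 2 / 10 ^ 23 * S.card) := by
    refine h1r.trans ?_
    apply mul_le_mul_of_nonneg_left _ (by positivity)
    linarith
  have hS0 : (0 : ℝ) ≤ S.card := Nat.cast_nonneg _
  norm_num at key ⊢
  linarith

end Pool.Agent.HypPack
end

section

set_option autoImplicit false

open scoped Real UpperHalfPlane
open InnerProductGeometry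

namespace Pool.Agent.HypPack

theorem law {h : ℝ} (hh : 0 < h) (x y z : ℍ) :
    Real.cos (ang h x y z) * (2 * (‖P h x y‖ * ‖P h x z‖)) =
      R h x y + R h x z - R h y z + h * R h x y * R h x z := by
  have h1 := cos_angle_mul_norm_mul_norm (P h x y) (P h x z)
  have h2 := real_inner_eq_norm_mul_self_add_norm_mul_self_sub_norm_sub_mul_self_div_two
    (P h x y) (P h x z)
  have h3 := norm_P_sq hh x y
  have h4 := norm_P_sq hh x z
  have h5 := chart hh x y z
  rw [ang]
  rw [h2] at h1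
  nlinarith [h1, h3, h4, h5]

theorem norm_P_pos {h : ℝ} (hh : 0 < h) {x y : ℍ} (hR : 0 < R h x y) : 0 < ‖P h x y‖ := by
  have h2 := norm_P_sq hh x y
  have h1 : 0 < ‖P h x y‖ ^ 2 := by rw [h2]; positivity
  by_contra hc
  have h3 : ‖P h x y‖ = 0 := le_antisymm (not_lt.mp hc) (norm_nonneg _)
  rw [h3] at h1
  norm_num at h1

theorem norm_P_comm {h : ℝ} (hh : 0 < h) (x y : ℍ) : ‖P h x y‖ = ‖P h y x‖ := by
  have h1 := norm_P_sq hh x y
  have h2 := norm_P_sq hh y x
  rw [R_comm h y x] at h2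
  have h3 : ‖P h x y‖ ^ 2 = ‖P h y x‖ ^ 2 := by rw [h1, h2]
  exact (pow_left_inj₀ (norm_nonneg _) (norm_nonneg _) two_ne_zero).mp h3

/-- real-number core of the angle sum estimate -/
theorem tri_core {h A B C na nb nc α β γ : ℝ} (hh : 0 < h) (hC : 0 < C)
    (na0 : 0 < na) (nb0 : 0 < nb) (nc0 : 0 < nc)
    (hna : na ^ 2 = A + h / 2 * A ^ 2) (hnb : nb ^ 2 = B + h / 2 * B ^ 2)
    (hnc : nc ^ 2 = C + h / 2 * C ^ 2)
    (hα0 : 0 ≤ α) (hα : α ≤ π) (hβ0 : 0 ≤ β) (hβ : β ≤ π)
    (e1 : Real.cos α * (2 * (nc * nb)) = C + B - A + h * C * B)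
    (e2 : Real.cos β * (2 * (nc * na)) = C + A - B + h * C * A)
    (e3 : Real.cos γ * (2 * (nb * na)) = B + A - C + h * B * A) :
    0 ≤ Real.cos (α + β) + Real.cos γ := by
  have sa0 : 0 ≤ Real.sin α := Real.sin_nonneg_of_nonneg_of_le_pi hα0 hα
  have sb0 : 0 ≤ Real.sin β := Real.sin_nonneg_of_nonneg_of_le_pi hβ0 hβ
  have pa := Real.sin_sq_add_cos_sq α
  have pb := Real.sin_sq_add_cos_sq β
  set ca := Real.cos α
  set sa := Real.sin α
  set cb := Real.cos β
  set sb := Real.sin β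
  set cc := Real.cos γ
  have hs : (2 * (nc * nb) * sa) ^ 2 = 4 * nc ^ 2 * nb ^ 2 - (C + B - A + h * C * B) ^ 2 := by
    rw [← e1]
    have : sa ^ 2 = 1 - ca ^ 2 := by linarith
    calc (2 * (nc * nb) * sa) ^ 2 = 4 * nc ^ 2 * nb ^ 2 * sa ^ 2 := by ring
      _ = 4 * nc ^ 2 * nb ^ 2 * (1 - ca ^ 2) := by rw [this]
      _ = _ := by ring
  have ht : (2 * (nc * na) * sb) ^ 2 = 4 * nc ^ 2 * na ^ 2 - (C + A - B + h * C * A) ^ 2 := by
    rw [← e2]
    have : sb ^ 2 = 1 - cb ^ 2 := by linarith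
    calc (2 * (nc * na) * sb) ^ 2 = 4 * nc ^ 2 * na ^ 2 * sb ^ 2 := by ring
      _ = 4 * nc ^ 2 * na ^ 2 * (1 - cb ^ 2) := by rw [this]
      _ = _ := by ring
  have hst2 : (2 * (nc * nb) * sa) ^ 2 = (2 * (nc * na) * sb) ^ 2 := by
    rw [hs, ht, hna, hnb, hnc]
    ring
  have hst : 2 * (nc * nb) * sa = 2 * (nc * na) * sb :=
    (pow_left_inj₀ (by positivity) (by positivity) two_ne_zero).mp hst2
  have key : (Real.cos (α + β) + cc) * (4 * na * nb * nc ^ 2) =
      h * C * (2 * (nc * nb) * sa) ^ 2 := by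
    rw [Real.cos_add]
    change (ca * cb - sa * sb + cc) * (4 * na * nb * nc ^ 2) = _
    calc (ca * cb - sa * sb + cc) * (4 * na * nb * nc ^ 2)
        = (ca * (2 * (nc * nb))) * (cb * (2 * (nc * na)))
          - (2 * (nc * nb) * sa) * (2 * (nc * na) * sb)
          + 2 * nc ^ 2 * (cc * (2 * (nb * na))) := by ring
      _ = (C + B - A + h * C * B) * (C + A - B + h * C * A)
          - (2 * (nc * nb) * sa) ^ 2 + 2 * nc ^ 2 * (B + A - C + h * B * A) := by
            rw [e1, e2, e3, ← hst]; ring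
      _ = _ := by
            rw [hs, hnb, hnc]
            ring
  have h1 : 0 ≤ (Real.cos (α + β) + cc) * (4 * na * nb * nc ^ 2) := by
    rw [key]; positivity
  have h2 : 0 < 4 * na * nb * nc ^ 2 := by positivity
  exact nonneg_of_mul_nonneg_left h1 h2

theorem three_angles {α β γ : ℝ} (hα0 : 0 ≤ α) (hα : α ≤ π) (hβ0 : 0 ≤ β) (hβ : β ≤ π)
    (hγ0 : 0 ≤ γ) (hγ : γ ≤ π)
    (h1 : 0 ≤ Real.cos (α + β) + Real.cos γ) (h2 : 0 ≤ Real.cos (β + γ) + Real.cos α)
    (h3 : 0 ≤ Real.cos (α + γ) + Real.cos β) (h4 : ¬ (α = π ∧ β = π ∧ γ = π)) :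
    α + β + γ ≤ π := by
  by_contra hc
  push Not at hc
  have hpi := Real.pi_pos
  by_cases hs : α + β + γ = 3 * π
  · exact h4 ⟨by linarith, by linarith, by linarith⟩
  have hs' : α + β + γ < 3 * π := lt_of_le_of_ne (by linarith) hs
  have main : ∀ a b c : ℝ, 0 ≤ a → a ≤ π → 0 ≤ b → b ≤ π → 0 ≤ c → c ≤ π →
      a + b + c < 3 * π → π < a + b + c → 0 ≤ Real.cos (a + b) + Real.cos c →
      π ≤ a + b - c := by
    intro a b c ha0 ha hb0 hb hc0 hc' hs1 hs2 h
    rw [Real.cos_add_cos] at h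
    have h5 : Real.cos ((a + b + c) / 2) < 0 :=
      Real.cos_neg_of_pi_div_two_lt_of_lt (by linarith) (by linarith)
    by_contra h6
    push Not at h6
    have h7 : 0 < Real.cos ((a + b - c) / 2) :=
      Real.cos_pos_of_mem_Ioo ⟨by linarith, by linarith⟩
    nlinarith
  have g1 := main α β γ hα0 hα hβ0 hβ hγ0 hγ hs' hc h1
  have g2 := main β γ α hβ0 hβ hγ0 hγ hα0 hα (by linarith) (by linarith) h2
  have g3 := main α γ β hα0 hα hγ0 hγ hβ0 hβ (by linarith) (by linarith) h3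
  linarith

/-- The angle sum of a hyperbolic triangle is at most `π`. -/
theorem tri_sum {h : ℝ} (hh : 0 < h) {x y z : ℍ} (hxy : 0 < R h x y) (hxz : 0 < R h x z)
    (hyz : 0 < R h y z) :
    ang h x y z + ang h y x z + ang h z x y ≤ π := by
  have l1 := law hh x y z
  have l2 := law hh y x z
  have l3 := law hh z x y
  rw [norm_P_comm hh y x, R_comm h y x] at l2
  rw [norm_P_comm hh z x, norm_P_comm hh z y, R_comm h z x, R_comm h z y] at l3
  have na0 := norm_P_pos hh hyz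
  have nb0 := norm_P_pos hh hxz
  have nc0 := norm_P_pos hh hxy
  have hna := norm_P_sq hh y z
  have hnb := norm_P_sq hh x z
  have hnc := norm_P_sq hh x y
  have b1 : 0 ≤ ang h x y z := angle_nonneg _ _
  have b1' : ang h x y z ≤ π := angle_le_pi _ _
  have b2 : 0 ≤ ang h y x z := angle_nonneg _ _
  have b2' : ang h y x z ≤ π := angle_le_pi _ _
  have b3 : 0 ≤ ang h z x y := angle_nonneg _ _
  have b3' : ang h z x y ≤ π := angle_le_pi _ _
  refine three_angles b1 b1' b2 b2' b3 b3' ?_ ?_ ?_ ?_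
  · exact tri_core hh hxy na0 nb0 nc0 hna hnb hnc b1 b1' b2 b2' l1 l2 l3
  · refine tri_core (A := R h x z) (B := R h x y) (C := R h y z) hh hyz nb0 nc0 na0 hnb hnc hna
      b2 b2' b3 b3' ?_ ?_ ?_
    · linear_combination l2
    · linear_combination l3
    · linear_combination l1
  · refine tri_core (A := R h y z) (B := R h x y) (C := R h x z) hh hxz na0 nc0 nb0 hna hnc hnb
      b1 b1' b3 b3' ?_ ?_ ?_
    · linear_combination l1
    · linear_combination l3
    · linear_combination l2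
  · rintro ⟨ha, hb, -⟩
    rw [ha, Real.cos_pi] at l1
    rw [hb, Real.cos_pi] at l2
    have p1 : 0 < ‖P h x y‖ * ‖P h x z‖ := by positivity
    have p2 : 0 < ‖P h x y‖ * ‖P h y z‖ := by positivity
    have p3 : 0 < h * R h x y * R h x z := by positivity
    have p4 : 0 < h * R h x y * R h y z := by positivity
    linarith

/-- In the plane two vectors orthogonal to a nonzero vector are parallel. -/
theorem parallel_of_orth {a b n : ℂ} (hn : 0 < ‖n‖ ^ 2) (ha : inner ℝ a n = 0)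
    (hb : inner ℝ b n = 0) : (inner ℝ a b : ℝ) ^ 2 = ‖a‖ ^ 2 * ‖b‖ ^ 2 := by
  rw [Complex.inner] at ha hb ⊢
  rw [← Complex.normSq_eq_norm_sq, Complex.normSq_apply] at hn
  rw [← Complex.normSq_eq_norm_sq, ← Complex.normSq_eq_norm_sq, Complex.normSq_apply,
    Complex.normSq_apply]
  simp only [Complex.mul_re, Complex.conj_re, Complex.conj_im] at ha hb ⊢
  have h1 : (a.re * b.im - a.im * b.re) * n.re = 0 := by linear_combination b.im * ha - a.im * hb
  have h2 : (a.re * b.im - a.im * b.re) * n.im = 0 := by linear_combination (-b.re) * ha + a.re * hb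
  have h3 : a.re * b.im - a.im * b.re = 0 := by
    by_contra hne
    have n1 : n.re = 0 := by simpa [hne] using h1
    have n2 : n.im = 0 := by simpa [hne] using h2
    rw [n1, n2] at hn
    norm_num at hn
  linear_combination (-(a.re * b.im - a.im * b.re)) * h3

/-- The relation between the diagonals of a rhombus with sides `R = 1`. -/
theorem rhomb_rel {h : ℝ} (hh : 0 < h) {x y w z : ℍ} (hxy : R h x y = 1) (hyw : R h y w = 1)
    (hwz : R h w z = 1) (hzx : R h z x = 1) (hxw : 0 < R h x w) (hyz : 0 < R h y z) :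
    R h y z + R h x w = 4 + 2 * h - h / 2 * (R h y z * R h x w) := by
  have hxz : R h x z = 1 := by rw [R_comm]; exact hzx
  have hwy : R h w y = 1 := by rw [R_comm]; exact hyw
  have np := norm_P_sq hh x y
  have nq := norm_P_sq hh x z
  have nw := norm_P_sq hh x w
  have dpq := chart hh x y z
  have dwp := chart hh x w y
  have dwq := chart hh x w z
  rw [hxy] at np dpq dwp
  rw [hxz] at nq dpq dwq
  rw [hwy] at dwp
  rw [hwz] at dwq
  generalize P h x y = p at *
  generalize P h x z = q at *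
  generalize P h x w = v at *
  generalize R h y z = D1 at *
  generalize R h x w = D2 at *
  have i1 := real_inner_eq_norm_mul_self_add_norm_mul_self_sub_norm_sub_mul_self_div_two v p
  have i2 := real_inner_eq_norm_mul_self_add_norm_mul_self_sub_norm_sub_mul_self_div_two v q
  have i1' : (inner ℝ v p : ℝ) = D2 * (1 + h) / 2 := by
    rw [i1]; linear_combination (1/2) * nw + (1/2) * np - (1/2) * dwp
  have i2' : (inner ℝ v q : ℝ) = D2 * (1 + h) / 2 := by
    rw [i2]; linear_combination (1/2) * nw + (1/2) * nq - (1/2) * dwq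
  have o1 : (inner ℝ v (p - q) : ℝ) = 0 := by
    rw [inner_sub_right, i1', i2']; ring
  have o2 : (inner ℝ (p + q) (p - q) : ℝ) = 0 := by
    rw [inner_sub_right, inner_add_left, inner_add_left, real_inner_self_eq_norm_sq,
      real_inner_self_eq_norm_sq, real_inner_comm p q, np, nq]
    ring
  have hn : 0 < ‖p - q‖ ^ 2 := by
    rw [dpq]
    have : D1 + h / 2 * (1 - 1) ^ 2 = D1 := by ring
    rw [this]; exact hyz
  have par := parallel_of_orth hn o1 o2
  have i3 : (inner ℝ v (p + q) : ℝ) = D2 * (1 + h) := by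
    rw [inner_add_right, i1', i2']; ring
  have i4 : ‖p + q‖ ^ 2 = 4 + 2 * h - D1 := by
    have := parallelogram_law_with_norm ℝ p q
    linear_combination this + 2 * np + 2 * nq - dpq
  rw [i3, i4, nw] at par
  have e : D2 * (D1 + D2 - (4 + 2 * h - h / 2 * (D1 * D2))) = 0 := by linear_combination par
  rcases mul_eq_zero.mp e with e | e
  · exact absurd e hxw.ne'
  · linarith

/-- For a hyperbolic rhombus with sides `R = 1`, adjacent angles have sum at most `π`. -/
theorem rhomb_le_pi {h : ℝ} (hh : 0 < h) {x y w z : ℍ} (hxy : R h x y = 1) (hyw : R h y w = 1)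
    (hwz : R h w z = 1) (hzx : R h z x = 1) (hxw : 0 < R h x w) (hyz : 0 < R h y z) :
    ang h x y z + ang h y x w ≤ π := by
  have rel := rhomb_rel hh hxy hyw hwz hzx hxw hyz
  have hxz : R h x z = 1 := by rw [R_comm]; exact hzx
  have hyx : R h y x = 1 := by rw [R_comm]; exact hxy
  have np := norm_P_sq hh x y
  have nq := norm_P_sq hh x z
  have nyw := norm_P_sq hh y w
  have l1 := law hh x y z
  have l2 := law hh y x w
  rw [norm_P_comm hh y x] at l2
  rw [hyw] at nyw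
  rw [hxy] at np
  rw [hxz] at nq
  have e1 : ‖P h x z‖ = ‖P h x y‖ :=
    (pow_left_inj₀ (norm_nonneg _) (norm_nonneg _) two_ne_zero).mp (by rw [nq, np])
  have e2 : ‖P h y w‖ = ‖P h x y‖ :=
    (pow_left_inj₀ (norm_nonneg _) (norm_nonneg _) two_ne_zero).mp (by rw [nyw, np])
  rw [e1, hxy, hxz, ← pow_two, np] at l1
  rw [e2, hyx, hyw, ← pow_two, np] at l2
  have hb : 0 ≤ ang h y x w := angle_nonneg (P h y x) (P h y w)
  have hb' : ang h y x w ≤ π := angle_le_pi (P h y x) (P h y w)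
  have ha : 0 ≤ ang h x y z := angle_nonneg (P h x y) (P h x z)
  have ha' : ang h x y z ≤ π := angle_le_pi (P h x y) (P h x z)
  generalize ang h x y z = α at *
  generalize ang h y x w = β at *
  generalize R h y z = D1 at *
  generalize R h x w = D2 at *
  have hcos : 0 ≤ Real.cos α + Real.cos β := by
    have h1 : (Real.cos α + Real.cos β) * (2 + h) = h / 2 * (D1 * D2) := by
      linear_combination l1 + l2 - rel
    have h2 : 0 ≤ (Real.cos α + Real.cos β) * (2 + h) := by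
      rw [h1]; positivity
    exact nonneg_of_mul_nonneg_left h2 (by linarith)
  by_contra hc
  push Not at hc
  have h5 : Real.cos α < Real.cos (π - β) :=
    Real.cos_lt_cos_of_nonneg_of_le_pi (by linarith) ha' (by linarith)
  rw [Real.cos_pi_sub] at h5
  linarith

/-- A near triangle whose side `yz` is a contact has angle less than `π / 3` at `x`. -/
theorem tri_lt {h : ℝ} (hh : 0 < h) {x y z : ℍ} (hxy : 1 ≤ R h x y) (hxy' : R h x y ≤ 11 / 10)
    (hxz : 1 ≤ R h x z) (hxz' : R h x z ≤ 11 / 10) (hyz : R h y z = 1) :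
    ang h x y z < π / 3 := by
  have l1 := law hh x y z
  have np := norm_P_sq hh x y
  have nq := norm_P_sq hh x z
  have p0 := norm_P_pos hh (x := x) (y := y) (by linarith)
  have q0 := norm_P_pos hh (x := x) (y := z) (by linarith)
  rw [hyz] at l1
  set B := R h x y
  set C := R h x z
  have amgm : 2 * (‖P h x y‖ * ‖P h x z‖) ≤ ‖P h x y‖ ^ 2 + ‖P h x z‖ ^ 2 := by
    nlinarith [sq_nonneg (‖P h x y‖ - ‖P h x z‖)]
  have hb : B ^ 2 + C ^ 2 < 4 * (B * C) := by nlinarith
  have hh2 : h / 2 * (B ^ 2 + C ^ 2) < h / 2 * (4 * (B * C)) :=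
    mul_lt_mul_of_pos_left hb (by linarith)
  have key : ‖P h x y‖ * ‖P h x z‖ < B + C - 1 + h * B * C := by nlinarith
  by_contra hc
  push Not at hc
  have h5 : Real.cos (ang h x y z) ≤ Real.cos (π / 3) :=
    Real.cos_le_cos_of_nonneg_of_le_pi (by positivity) (angle_le_pi _ _) hc
  rw [Real.cos_pi_div_three] at h5
  have pq : 0 < 2 * (‖P h x y‖ * ‖P h x z‖) := by positivity
  nlinarith

end Pool.Agent.HypPack
end
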