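import Mathlib
import Pool.Agent.Lib.MP_11f292_co.Mg.G001

section

set_option autoImplicit false

open scoped Real UpperHalfPlane
open InnerProductGeometry

namespace Pool.Agent.HypPack

theorem cos_lower {h κ : ℝ} (hh : 0 < h) (hκ : 1000 * h ≤ κ) (hκ1 : κ ≤ 1 / 1000) {x y z : ℍ}
    (hxy : 1 ≤ R h x y) (hxy' : R h x y ≤ 1 + κ) (hxz : 1 ≤ R h x z) (hxz' : R h x z ≤ 1 + κ)
    (hyz : 1 ≤ R h y z) (hyz' : R h y z ≤ 1 + κ) :
    1 / 2 + (((R h x y - 1) + (R h x z - 1)) / 2 - (R h y z - 1) + h * (1 / 2 - 2 * κ)) / 2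
      - 3 * κ ^ 2 ≤ Real.cos (ang h x y z) := by
  have l1 := law hh x y z
  have np := norm_P_sq hh x y
  have nq := norm_P_sq hh x z
  have p0 := norm_P_pos hh (x := x) (y := y) (by linarith)
  have q0 := norm_P_pos hh (x := x) (y := z) (by linarith)
  generalize Real.cos (ang h x y z) = c at *
  generalize ‖P h x y‖ = p at *
  generalize ‖P h x z‖ = q at *
  generalize R h x y = B at *
  generalize R h x z = C at *
  generalize R h y z = A at *
  have hκ0 : 0 < κ := by linarith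
  have amgm : 2 * (p * q) ≤ B + C + h / 2 * (B ^ 2 + C ^ 2) := by
    nlinarith [sq_nonneg (p - q)]
  have hsq : ∀ t : ℝ, 1 ≤ t → t ≤ 1 + κ → t ^ 2 ≤ 1 + 3 * κ := by
    intro t h1 h2
    calc t ^ 2 ≤ (1 + κ) ^ 2 := pow_le_pow_left₀ (by linarith) h2 2
      _ = 1 + 2 * κ + κ * κ := by ring
      _ ≤ 1 + 2 * κ + κ * 1 := by
          have : κ * κ ≤ κ * 1 := mul_le_mul_of_nonneg_left (by linarith) hκ0.le
          linarith
      _ = _ := by ring
  have hB2 : B ^ 2 ≤ 1 + 3 * κ := hsq B hxy hxy'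
  have hC2 : C ^ 2 ≤ 1 + 3 * κ := hsq C hxz hxz'
  have hnorm : ∀ t s : ℝ, 0 < s → 1 ≤ t → s ^ 2 = t + h / 2 * t ^ 2 → 1 ≤ s := by
    intro t s hs ht e
    have h1 : 0 ≤ h / 2 * t ^ 2 := by positivity
    have h2 : (1 : ℝ) ^ 2 ≤ s ^ 2 := by rw [e]; linarith
    exact (pow_le_pow_iff_left₀ (by norm_num) hs.le two_ne_zero).mp h2
  have hp1 : 1 ≤ p := hnorm B p p0 hxy np
  have hq1 : 1 ≤ q := hnorm C q q0 hxz nq
  have hpq : 1 ≤ p * q := one_le_mul_of_one_le_of_one_le hp1 hq1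
  have hM2 : 2 ≤ 2 * (p * q) := by linarith
  have hsum : h / 2 * (B ^ 2 + C ^ 2) ≤ h / 2 * (2 + 6 * κ) := by
    apply mul_le_mul_of_nonneg_left _ (by linarith)
    linarith
  have hhκ : h * κ ≤ h * (1 / 1000) := mul_le_mul_of_nonneg_left hκ1 hh.le
  have hhκ0 : 0 ≤ h * κ := by positivity
  have hM3 : 2 * (p * q) ≤ 2 + 3 * κ := by
    have : h / 2 * (2 + 6 * κ) = h + 3 * (h * κ) := by ring
    linarith
  have hBC : 1 ≤ B * C := one_le_mul_of_one_le_of_one_le hxy hxz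
  have hhBC : h * 1 ≤ h * (B * C) := mul_le_mul_of_nonneg_left hBC hh.le
  have hBC2 : B * C ≤ 2 := by
    have : B * C ≤ (1 + κ) * (1 + κ) := mul_le_mul hxy' hxz' (by linarith) (by linarith)
    have h2 : (1 + κ) * (1 + κ) ≤ (1 + 1 / 1000) * (1 + 1 / 1000) :=
      mul_le_mul (by linarith) (by linarith) (by linarith) (by norm_num)
    norm_num at h2
    linarith
  have hhBC2 : h * (B * C) ≤ h * 2 := mul_le_mul_of_nonneg_left hBC2 hh.le
  -- T := N - M / 2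
  generalize hM : 2 * (p * q) = M at *
  have hcM : (c - 1 / 2) * M = (B + C - A + h * B * C) - M / 2 := by
    rw [sub_mul, l1]; ring
  have e : h * B * C = h * (B * C) := by ring
  rw [e] at hcM
  have hT1 : ((B - 1) + (C - 1)) / 2 - (A - 1) + h * (1 / 2 - 2 * κ) ≤
      (B + C - A + h * (B * C)) - M / 2 := by
    have h4 : h / 2 * (2 + 6 * κ) = h + 3 * (h * κ) := by ring
    have h5 : h * (1 / 2 - 2 * κ) = h / 2 - 2 * (h * κ) := by ring
    rw [h5]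
    rw [h4] at hsum
    linarith
  have hTu : (B + C - A + h * (B * C)) - M / 2 ≤ 3 * κ := by linarith
  generalize hT : (B + C - A + h * (B * C)) - M / 2 = T at *
  have hc1 : c - 1 / 2 ≤ 3 / 2 * κ := by
    by_contra hc; push Not at hc
    have h1 : (3 / 2 * κ) * 2 < (c - 1 / 2) * M := by
      apply mul_lt_mul hc hM2 (by norm_num) (by linarith)
    linarith
  have hc2 : (c - 1 / 2) * (M - 2) ≤ 3 / 2 * κ * (3 * κ) := by
    have h1 : (c - 1 / 2) * (M - 2) ≤ 3 / 2 * κ * (M - 2) :=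
      mul_le_mul_of_nonneg_right hc1 (by linarith)
    have h2 : 3 / 2 * κ * (M - 2) ≤ 3 / 2 * κ * (3 * κ) :=
      mul_le_mul_of_nonneg_left (by linarith) (by positivity)
    linarith
  have hfin : (c - 1 / 2) * 2 = T - (c - 1 / 2) * (M - 2) := by rw [← hcM]; ring
  have hκ3 : 0 ≤ κ ^ 2 := by positivity
  have h9 : 3 / 2 * κ * (3 * κ) = 9 / 2 * κ ^ 2 := by ring
  rw [h9] at hc2
  linarith

theorem hex_jensen {θ : Fin 6 → ℝ} (h0 : ∀ i, 0 ≤ θ i) (h1 : ∀ i, θ i ≤ π / 2)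
    (hs : ∑ i, θ i = 2 * π) : ∑ i, Real.cos (θ i) ≤ 3 := by
  have hc := strictConcaveOn_cos_Icc.concaveOn
  have := hc.le_map_sum (t := Finset.univ) (w := fun _ : Fin 6 => (1 / 6 : ℝ)) (p := θ)
    (by intro i _; norm_num) (by simp) (by
      intro i _
      constructor
      · have := h0 i
        have := Real.pi_pos
        linarith
      · exact h1 i)
  simp only [smul_eq_mul] at this
  rw [← Finset.mul_sum, ← Finset.mul_sum, hs] at this
  have e : (1 / 6 : ℝ) * (2 * π) = π / 3 := by ring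
  rw [e, Real.cos_pi_div_three] at this
  linarith

/-- The key first order inequality for a vertex with six near neighbours. -/
theorem hex_gap {h κ : ℝ} (hh : 0 < h) (hκ : 1000 * h ≤ κ) (hκ1 : κ ≤ 1 / 1000)
    (hκ2 : 1000 * κ ^ 2 ≤ h) {x : ℍ} {n : Fin 6 → ℍ}
    (hB : ∀ i, 1 ≤ R h x (n i)) (hB' : ∀ i, R h x (n i) ≤ 1 + κ)
    (hA : ∀ i, 1 ≤ R h (n i) (n (i + 1))) (hA' : ∀ i, R h (n i) (n (i + 1)) ≤ 1 + κ)
    (hang : ∀ i, ang h x (n i) (n (i + 1)) ≤ π / 2)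
    (hsum : ∑ i, ang h x (n i) (n (i + 1)) = 2 * π) :
    ∑ i, (R h x (n i) - 1) + 2 * h ≤ ∑ i, (R h (n i) (n (i + 1)) - 1) := by
  have j := hex_jensen (θ := fun i => ang h x (n i) (n (i + 1)))
    (fun i => angle_nonneg _ _) hang hsum
  have k : ∀ i, 1 / 2 + (((R h x (n i) - 1) + (R h x (n (i + 1)) - 1)) / 2
      - (R h (n i) (n (i + 1)) - 1) + h * (1 / 2 - 2 * κ)) / 2
      - 3 * κ ^ 2 ≤ Real.cos (ang h x (n i) (n (i + 1))) := fun i =>
    cos_lower hh hκ hκ1 (hB i) (hB' i) (hB (i + 1)) (hB' (i + 1)) (hA i) (hA' i)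
  have hκ0 : 0 < κ := by linarith
  have k0 := k 0
  have k1 := k 1
  have k2 := k 2
  have k3 := k 3
  have k4 := k 4
  have k5 := k 5
  simp only [Fin.sum_univ_six] at j ⊢
  have e0 : (0 : Fin 6) + 1 = 1 := rfl
  have e1 : (1 : Fin 6) + 1 = 2 := rfl
  have e2 : (2 : Fin 6) + 1 = 3 := rfl
  have e3 : (3 : Fin 6) + 1 = 4 := rfl
  have e4 : (4 : Fin 6) + 1 = 5 := rfl
  have e5 : (5 : Fin 6) + 1 = 0 := rfl
  rw [e0] at k0 j ⊢
  rw [e1] at k1 j ⊢
  rw [e2] at k2 j ⊢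
  rw [e3] at k3 j ⊢
  rw [e4] at k4 j ⊢
  rw [e5] at k5 j ⊢
  have h6 : h * κ ≤ h * (1 / 1000) := mul_le_mul_of_nonneg_left hκ1 hh.le
  nlinarith

end Pool.Agent.HypPack
end

section

set_option autoImplicit false

open InnerProductGeometry Real

namespace Pool.Agent.HypPack

theorem cos_law (p q : ℂ) :
    Real.cos (angle p q) * (2 * (‖p‖ * ‖q‖)) = ‖p‖ ^ 2 + ‖q‖ ^ 2 - ‖p - q‖ ^ 2 := by
  have h1 := cos_angle_mul_norm_mul_norm p q
  have h2 := real_inner_eq_norm_mul_self_add_norm_mul_self_sub_norm_sub_mul_self_div_two p q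
  rw [h2] at h1
  linear_combination 2 * h1

theorem one_le_of_sq {a : ℝ} (ha : 0 ≤ a) (h : 1 ≤ a ^ 2) : 1 ≤ a := by
  by_contra hc; push Not at hc; nlinarith

theorem le_of_sq {a ε : ℝ} (hε : 0 ≤ ε) (ha : 0 ≤ a) (h : a ^ 2 ≤ 1 + ε) : a ≤ 1 + ε / 2 := by
  by_contra hc; push Not at hc; nlinarith

theorem cos_pi_third_sub {ε : ℝ} (h0 : 0 ≤ ε) (h1 : ε ≤ 1 / 10) :
    1 / 2 + ε ≤ Real.cos (π / 3 - 2 * ε) := by
  rcases h0.eq_or_lt with h | h
  · subst h; simp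
  have s3 : (86 / 100 : ℝ) ≤ Real.sqrt 3 / 2 := by
    have : (172 / 100 : ℝ) ≤ Real.sqrt 3 := Real.le_sqrt_of_sq_le (by norm_num)
    linarith
  rw [Real.cos_sub, Real.cos_pi_div_three, Real.sin_pi_div_three]
  have c := Real.one_sub_sq_div_two_le_cos (x := 2 * ε)
  have s := Real.sin_gt_sub_cube (x := 2 * ε) (by linarith)
  have e3 : (2 * ε) ^ 3 ≤ 2 * ε * (1 / 10) := by
    have : (2 * ε) ^ 2 ≤ 4 / 100 := by nlinarith
    calc (2 * ε) ^ 3 = 2 * ε * (2 * ε) ^ 2 := by ring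
      _ ≤ 2 * ε * (1 / 10) := by
        apply mul_le_mul_of_nonneg_left _ (by linarith)
        linarith
  have s' : 2 * ε * (39 / 40) ≤ Real.sin (2 * ε) := by linarith
  have t : 86 / 100 * (2 * ε * (39 / 40)) ≤ Real.sqrt 3 / 2 * Real.sin (2 * ε) :=
    mul_le_mul s3 s' (by positivity) (by positivity)
  have e2 : (2 * ε) ^ 2 ≤ 4 * (ε * (1 / 10)) := by nlinarith
  linarith

theorem cos_pi_third_add {ε : ℝ} (h0 : 0 ≤ ε) (h1 : ε ≤ 1 / 10) :
    Real.cos (π / 3 + 2 * ε) ≤ 1 / 2 - ε := by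
  rcases h0.eq_or_lt with h | h
  · subst h; simp
  have s3 : (86 / 100 : ℝ) ≤ Real.sqrt 3 / 2 := by
    have : (172 / 100 : ℝ) ≤ Real.sqrt 3 := Real.le_sqrt_of_sq_le (by norm_num)
    linarith
  rw [Real.cos_add, Real.cos_pi_div_three, Real.sin_pi_div_three]
  have c := Real.cos_le_one (2 * ε)
  have s := Real.sin_gt_sub_cube (x := 2 * ε) (by linarith)
  have e3 : (2 * ε) ^ 3 ≤ 2 * ε * (1 / 10) := by
    have : (2 * ε) ^ 2 ≤ 4 / 100 := by nlinarith
    calc (2 * ε) ^ 3 = 2 * ε * (2 * ε) ^ 2 := by ring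
      _ ≤ 2 * ε * (1 / 10) := by
        apply mul_le_mul_of_nonneg_left _ (by linarith)
        linarith
  have s' : 2 * ε * (39 / 40) ≤ Real.sin (2 * ε) := by linarith
  have t : 86 / 100 * (2 * ε * (39 / 40)) ≤ Real.sqrt 3 / 2 * Real.sin (2 * ε) :=
    mul_le_mul s3 s' (by positivity) (by positivity)
  linarith

theorem cos_le_of_sep {ε : ℝ} (h0 : 0 ≤ ε) (h1 : ε ≤ 1 / 10) {p q : ℂ}
    (hp : 1 ≤ ‖p‖ ^ 2) (hp' : ‖p‖ ^ 2 ≤ 1 + ε) (hq : 1 ≤ ‖q‖ ^ 2) (hq' : ‖q‖ ^ 2 ≤ 1 + ε)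
    (hpq : 1 ≤ ‖p - q‖ ^ 2) : Real.cos (angle p q) ≤ 1 / 2 + ε := by
  have l := cos_law p q
  have a1 := one_le_of_sq (norm_nonneg _) hp
  have b1 := one_le_of_sq (norm_nonneg _) hq
  have a2 := le_of_sq h0 (norm_nonneg _) hp'
  have b2 := le_of_sq h0 (norm_nonneg _) hq'
  generalize ‖p‖ = a at *
  generalize ‖q‖ = b at *
  generalize ‖p - q‖ ^ 2 = d at *
  generalize Real.cos (angle p q) = c at *
  have ab1 : 1 ≤ a * b := one_le_mul_of_one_le_of_one_le a1 b1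
  have ab2 : (a - b) ^ 2 ≤ (ε / 2) ^ 2 := by
    apply sq_le_sq' <;> linarith
  have ab3 : 2 * (a * b) ≤ 2 * (1 + ε) := by nlinarith [sq_nonneg (a - b)]
  have key : c * (2 * (a * b)) ≤ (1 / 2 + ε) * (2 * (a * b)) := by
    rw [l]
    have e : a ^ 2 + b ^ 2 = 2 * (a * b) + (a - b) ^ 2 := by ring
    have e2 : (ε / 2) ^ 2 ≤ ε := by nlinarith
    have e3 : ε * 1 ≤ ε * (a * b) := mul_le_mul_of_nonneg_left ab1 h0
    nlinarith
  exact le_of_mul_le_mul_right key (by positivity)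

theorem angle_ge {ε : ℝ} (h0 : 0 ≤ ε) (h1 : ε ≤ 1 / 10) {p q : ℂ}
    (hp : 1 ≤ ‖p‖ ^ 2) (hp' : ‖p‖ ^ 2 ≤ 1 + ε) (hq : 1 ≤ ‖q‖ ^ 2) (hq' : ‖q‖ ^ 2 ≤ 1 + ε)
    (hpq : 1 ≤ ‖p - q‖ ^ 2) : π / 3 - 2 * ε ≤ angle p q := by
  have c := cos_le_of_sep h0 h1 hp hp' hq hq' hpq
  by_contra hc
  push Not at hc
  have h2 := Real.cos_lt_cos_of_nonneg_of_le_pi (angle_nonneg p q)
    (by linarith [Real.pi_pos]) hc
  have h3 := cos_pi_third_sub h0 h1
  linarith

theorem cos_ge_of_near {ε : ℝ} (h0 : 0 ≤ ε) {p q : ℂ}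
    (hp : 1 ≤ ‖p‖ ^ 2) (hq : 1 ≤ ‖q‖ ^ 2)
    (hpq : ‖p - q‖ ^ 2 ≤ 1 + ε) : 1 / 2 - ε ≤ Real.cos (angle p q) := by
  have l := cos_law p q
  have a1 := one_le_of_sq (norm_nonneg _) hp
  have b1 := one_le_of_sq (norm_nonneg _) hq
  generalize ‖p‖ = a at *
  generalize ‖q‖ = b at *
  generalize ‖p - q‖ ^ 2 = d at *
  generalize Real.cos (angle p q) = c at *
  have ab1 : 1 ≤ a * b := one_le_mul_of_one_le_of_one_le a1 b1
  have key : (1 / 2 - ε) * (2 * (a * b)) ≤ c * (2 * (a * b)) := by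
    rw [l]
    have e3 : ε * 1 ≤ ε * (a * b) := mul_le_mul_of_nonneg_left ab1 h0
    nlinarith [sq_nonneg (a - b)]
  exact le_of_mul_le_mul_right key (by positivity)

theorem angle_le {ε : ℝ} (h0 : 0 ≤ ε) (h1 : ε ≤ 1 / 10) {p q : ℂ}
    (hp : 1 ≤ ‖p‖ ^ 2) (hq : 1 ≤ ‖q‖ ^ 2)
    (hpq : ‖p - q‖ ^ 2 ≤ 1 + ε) : angle p q ≤ π / 3 + 2 * ε := by
  have c := cos_ge_of_near h0 hp hq hpq
  by_contra hc
  push Not at hc
  have h2 := Real.cos_lt_cos_of_nonneg_of_le_pi (by linarith [Real.pi_pos]) (angle_le_pi p q) hc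
  have h3 := cos_pi_third_add h0 h1
  linarith

/-- small angle gives small distance -/
theorem dist_le_of_angle_le {ε δ : ℝ} (h0 : 0 ≤ ε) (hδ0 : 0 ≤ δ) (hδ : δ ≤ 1 / 2) {p q : ℂ}
    (hp : 1 ≤ ‖p‖ ^ 2) (hp' : ‖p‖ ^ 2 ≤ 1 + ε) (hq : 1 ≤ ‖q‖ ^ 2) (hq' : ‖q‖ ^ 2 ≤ 1 + ε)
    (ha : angle p q ≤ π / 3 + δ) : ‖p - q‖ ^ 2 ≤ 1 + 2 * ε + 2 * δ := by
  have l := cos_law p q
  have a1 := one_le_of_sq (norm_nonneg _) hp
  have b1 := one_le_of_sq (norm_nonneg _) hq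
  have hc : 1 / 2 - δ ≤ Real.cos (angle p q) := by
    have h2 : Real.cos (π / 3 + δ) ≤ Real.cos (angle p q) :=
      Real.cos_le_cos_of_nonneg_of_le_pi (angle_nonneg p q)
        (by linarith [Real.pi_gt_three]) ha
    have h3 := abs_le.mp (abs_cos_sub_cos_le (π / 3 + δ) (π / 3))
    rw [Real.cos_pi_div_three] at h3
    have h4 : |π / 3 + δ - π / 3| = δ := by rw [add_sub_cancel_left, abs_of_nonneg hδ0]
    rw [h4] at h3
    linarith [h3.1]
  have ab1 : 1 ≤ ‖p‖ * ‖q‖ := one_le_mul_of_one_le_of_one_le a1 b1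
  have : (1 / 2 - δ) * (2 * 1) ≤ Real.cos (angle p q) * (2 * (‖p‖ * ‖q‖)) := by
    apply mul_le_mul hc (by linarith) (by norm_num)
    linarith
  linarith

/-- large angle gives large distance -/
theorem dist_ge_of_angle_ge {δ : ℝ} (hδ0 : 0 ≤ δ) (hδ : δ ≤ 1 / 2) {p q : ℂ}
    (hp : 1 ≤ ‖p‖ ^ 2) (hq : 1 ≤ ‖q‖ ^ 2)
    (ha : 2 * π / 3 - δ ≤ angle p q) : 3 - 2 * δ ≤ ‖p - q‖ ^ 2 := by
  have l := cos_law p q
  have a1 := one_le_of_sq (norm_nonneg _) hp
  have b1 := one_le_of_sq (norm_nonneg _) hq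
  have hc : Real.cos (angle p q) ≤ -(1 / 2) + δ := by
    have h2 : Real.cos (angle p q) ≤ Real.cos (2 * π / 3 - δ) :=
      Real.cos_le_cos_of_nonneg_of_le_pi (by linarith [Real.pi_gt_three]) (angle_le_pi p q) ha
    have h3 := abs_le.mp (abs_cos_sub_cos_le (2 * π / 3 - δ) (2 * π / 3))
    have h5 : Real.cos (2 * π / 3) = -(1 / 2) := by
      have : 2 * π / 3 = π - π / 3 := by ring
      rw [this, Real.cos_pi_sub, Real.cos_pi_div_three]
    rw [h5] at h3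
    have h4 : |2 * π / 3 - δ - 2 * π / 3| = δ := by
      have : 2 * π / 3 - δ - 2 * π / 3 = -δ := by ring
      rw [this, abs_neg, abs_of_nonneg hδ0]
    rw [h4] at h3
    linarith [h3.2]
  have ab1 : 1 ≤ ‖p‖ * ‖q‖ := one_le_mul_of_one_le_of_one_le a1 b1
  have : (1 / 2 - δ) * (2 * 1) ≤ -Real.cos (angle p q) * (2 * (‖p‖ * ‖q‖)) := by
    apply mul_le_mul (by linarith) (by linarith) (by norm_num)
    linarith
  linarith

/-- The diagonals of a quadrilateral. -/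
theorem quad_le (Y Z W : ℂ) :
    ‖W‖ ^ 2 + ‖Y - Z‖ ^ 2 = ‖Y‖ ^ 2 + ‖Z‖ ^ 2 + ‖W - Y‖ ^ 2 + ‖W - Z‖ ^ 2 - ‖W - (Y + Z)‖ ^ 2 := by
  simp only [← Complex.normSq_eq_norm_sq, Complex.normSq_apply, Complex.sub_re, Complex.sub_im,
    Complex.add_re, Complex.add_im]
  ring

/-- cross product of two complex numbers -/
def crs (a b : ℂ) : ℝ := a.re * b.im - a.im * b.re

/-- dot product of two complex numbers -/
def dt (a b : ℂ) : ℝ := a.re * b.re + a.im * b.im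

theorem dt_sq_add_crs_sq (a b : ℂ) : dt a b ^ 2 + crs a b ^ 2 = ‖a‖ ^ 2 * ‖b‖ ^ 2 := by
  simp only [← Complex.normSq_eq_norm_sq, Complex.normSq_apply, dt, crs]
  ring

theorem dt_eq (a b : ℂ) : dt a b = (‖a‖ ^ 2 + ‖b‖ ^ 2 - ‖a - b‖ ^ 2) / 2 := by
  simp only [← Complex.normSq_eq_norm_sq, Complex.normSq_apply, dt, Complex.sub_re, Complex.sub_im]
  ring

/-- Two points at distance `≈ 1` from `0` and from `Z`, on the same side, are close. -/
theorem two_circle {ε : ℝ} (h0 : 0 ≤ ε) (h1 : ε ≤ 1 / 100) {Z a b : ℂ} (hZ : 1 ≤ ‖Z‖ ^ 2)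
    (hZ' : ‖Z‖ ^ 2 ≤ 9) (ha : 1 ≤ ‖a‖ ^ 2) (ha' : ‖a‖ ^ 2 ≤ 1 + ε)
    (hb : 1 ≤ ‖b‖ ^ 2) (hb' : ‖b‖ ^ 2 ≤ 1 + ε)
    (haZ : 1 ≤ ‖a - Z‖ ^ 2) (haZ' : ‖a - Z‖ ^ 2 ≤ 1 + ε)
    (hbZ : 1 ≤ ‖b - Z‖ ^ 2) (hbZ' : ‖b - Z‖ ^ 2 ≤ 1 + ε)
    (hs : 0 ≤ crs a Z * crs b Z) : ‖a - b‖ ^ 2 < 1 := by
  have da := dt_eq a Z
  have db := dt_eq b Z
  have ca := dt_sq_add_crs_sq a Z
  have cb := dt_sq_add_crs_sq b Z
  have key := dt_sq_add_crs_sq (a - b) Z
  have e1 : dt (a - b) Z = dt a Z - dt b Z := by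
    simp only [dt, Complex.sub_re, Complex.sub_im]; ring
  have e2 : crs (a - b) Z = crs a Z - crs b Z := by
    simp only [crs, Complex.sub_re, Complex.sub_im]; ring
  rw [e1, e2] at key
  generalize dt a Z = x at *
  generalize dt b Z = y at *
  generalize crs a Z = s at *
  generalize crs b Z = t at *
  generalize ‖a - b‖ ^ 2 = d at *
  generalize ‖Z‖ ^ 2 = Q at *
  generalize ‖a‖ ^ 2 = A at *
  generalize ‖b‖ ^ 2 = B at *
  have hx : |x - y| ≤ ε := by rw [abs_le]; constructor <;> linarith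
  have hx1 : 0 ≤ x := by linarith
  have hy1 : 0 ≤ y := by linarith
  have hx2 : x ≤ 6 := by linarith
  have hy2 : y ≤ 6 := by linarith
  have hxy2 : |x ^ 2 - y ^ 2| ≤ 12 * ε := by
    have : x ^ 2 - y ^ 2 = (x - y) * (x + y) := by ring
    rw [this, abs_mul, abs_of_nonneg (by linarith : 0 ≤ x + y)]
    calc |x - y| * (x + y) ≤ ε * 12 := mul_le_mul hx (by linarith) (by linarith) h0
      _ = _ := by ring
  have hst : |s ^ 2 - t ^ 2| ≤ 21 * ε := by
    have e : s ^ 2 - t ^ 2 = (A - B) * Q - (x ^ 2 - y ^ 2) := by linarith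
    rw [e]
    have h3 : |A - B| ≤ ε := by rw [abs_le]; constructor <;> linarith
    have h4 : |(A - B) * Q| ≤ ε * 9 := by
      rw [abs_mul, abs_of_nonneg (by linarith : 0 ≤ Q)]
      exact mul_le_mul h3 hZ' (by linarith) h0
    calc _ ≤ |(A - B) * Q| + |x ^ 2 - y ^ 2| := abs_sub _ _
      _ ≤ _ := by linarith
  have hst2 : (s - t) ^ 2 ≤ 21 * ε := by
    rcases le_total (s ^ 2) (t ^ 2) with h | h
    · have h5 : t ^ 2 - s ^ 2 ≤ 21 * ε := by
        have := (abs_le.mp hst).1; linarith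
      have h6 : s ^ 2 ≤ s * t := by
        rcases eq_or_ne s 0 with h7 | h7
        · rw [h7]; norm_num
        · have h8 : (s ^ 2) ^ 2 ≤ (s * t) ^ 2 := by
            have : (s * t) ^ 2 = s ^ 2 * t ^ 2 := by ring
            rw [this, pow_two (s ^ 2)]
            exact mul_le_mul_of_nonneg_left h (by positivity)
          exact (pow_le_pow_iff_left₀ (by positivity) hs two_ne_zero).mp h8
      nlinarith
    · have h5 : s ^ 2 - t ^ 2 ≤ 21 * ε := (abs_le.mp hst).2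
      have h6 : t ^ 2 ≤ s * t := by
        have h8 : (t ^ 2) ^ 2 ≤ (s * t) ^ 2 := by
          have : (s * t) ^ 2 = t ^ 2 * s ^ 2 := by ring
          rw [this, pow_two (t ^ 2)]
          exact mul_le_mul_of_nonneg_left h (by positivity)
        exact (pow_le_pow_iff_left₀ (by positivity) hs two_ne_zero).mp h8
      nlinarith
  have hxy3 : (x - y) ^ 2 ≤ ε ^ 2 := sq_le_sq' (by linarith [(abs_le.mp hx).1]) (abs_le.mp hx).2
  have h9 : ε ^ 2 ≤ ε * (1 / 100) := by nlinarith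
  have hd : d * Q ≤ 22 * ε := by rw [← key]; linarith
  by_contra hc
  push Not at hc
  have : 1 * 1 ≤ d * Q := mul_le_mul hc hZ (by norm_num) (by linarith)
  linarith

/-- The fourth vertex of an approximate rhombus. -/
theorem rhomb_pos {ε : ℝ} (h0 : 0 ≤ ε) (h1 : ε ≤ 1 / 100) {Y Z W : ℂ}
    (hY : 1 ≤ ‖Y‖ ^ 2) (hY' : ‖Y‖ ^ 2 ≤ 1 + ε) (hZ : 1 ≤ ‖Z‖ ^ 2) (hZ' : ‖Z‖ ^ 2 ≤ 1 + ε)
    (hWY : 1 ≤ ‖W - Y‖ ^ 2) (hWY' : ‖W - Y‖ ^ 2 ≤ 1 + ε)
    (hWZ : 1 ≤ ‖W - Z‖ ^ 2) (hWZ' : ‖W - Z‖ ^ 2 ≤ 1 + ε)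
    (hW : 1 ≤ ‖W‖ ^ 2) (hYZ : 1 ≤ ‖Y - Z‖ ^ 2) :
    ‖W - (Y + Z)‖ ^ 2 ≤ 100 * ε ^ 2 := by
  set n := Y - Z with hn
  set D := W - (Y + Z) with hD
  have q := quad_le Y Z W
  rw [← hn, ← hD] at q
  -- norms
  have hW5 : ‖W‖ ^ 2 ≤ 5 := by nlinarith [sq_nonneg ‖D‖]
  have hD5 : ‖D‖ ^ 2 ≤ 5 := by nlinarith [sq_nonneg ‖D‖]
  -- inner products
  have e1 : |dt W n| ≤ ε := by
    have : dt W n = dt W Y - dt W Z := by
      simp only [dt, hn, Complex.sub_re, Complex.sub_im]; ring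
    rw [this, dt_eq, dt_eq, abs_le]; constructor <;> linarith
  have e2 : |dt (Y + Z) n| ≤ ε := by
    have : dt (Y + Z) n = ‖Y‖ ^ 2 - ‖Z‖ ^ 2 := by
      simp only [dt, hn, Complex.sub_re, Complex.sub_im, ← Complex.normSq_eq_norm_sq,
        Complex.normSq_apply, Complex.add_re, Complex.add_im]; ring
    rw [this, abs_le]; constructor <;> linarith
  have e3 : |dt D n| ≤ 2 * ε := by
    have : dt D n = dt W n - dt (Y + Z) n := by
      simp only [dt, hD, Complex.sub_re, Complex.sub_im]; ring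
    rw [this]
    calc _ ≤ |dt W n| + |dt (Y + Z) n| := abs_sub _ _
      _ ≤ _ := by linarith
  have e4 : |dt W D| ≤ ε := by
    have : dt W D = ‖W‖ ^ 2 - dt W Y - dt W Z := by
      simp only [dt, hD, Complex.sub_re, Complex.sub_im, ← Complex.normSq_eq_norm_sq,
        Complex.normSq_apply, Complex.add_re, Complex.add_im]; ring
    rw [this, dt_eq, dt_eq, abs_le]; constructor <;> linarith
  have id1 : crs W D * ‖n‖ ^ 2 = dt W n * crs n D + crs W n * dt D n := by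
    simp only [dt, crs, ← Complex.normSq_eq_norm_sq, Complex.normSq_apply]; ring
  have c1 := dt_sq_add_crs_sq W D
  have c2 := dt_sq_add_crs_sq n D
  have c3 := dt_sq_add_crs_sq W n
  -- bound crs W D
  have b1 : crs n D ^ 2 ≤ 5 * ‖n‖ ^ 2 := by
    have : ‖n‖ ^ 2 * ‖D‖ ^ 2 ≤ ‖n‖ ^ 2 * 5 := mul_le_mul_of_nonneg_left hD5 (by positivity)
    nlinarith [sq_nonneg (dt n D)]
  have b2 : crs W n ^ 2 ≤ 5 * ‖n‖ ^ 2 := by
    have : ‖W‖ ^ 2 * ‖n‖ ^ 2 ≤ 5 * ‖n‖ ^ 2 := mul_le_mul_of_nonneg_right hW5 (by positivity)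
    nlinarith [sq_nonneg (dt W n)]
  have b3 : dt W n ^ 2 ≤ ε ^ 2 := sq_le_sq' (by linarith [(abs_le.mp e1).1]) (abs_le.mp e1).2
  have b4 : dt D n ^ 2 ≤ (2 * ε) ^ 2 :=
    sq_le_sq' (by linarith [(abs_le.mp e3).1]) (abs_le.mp e3).2
  have b5 : dt W D ^ 2 ≤ ε ^ 2 := sq_le_sq' (by linarith [(abs_le.mp e4).1]) (abs_le.mp e4).2
  have b6 : (crs W D * ‖n‖ ^ 2) ^ 2 ≤ 50 * ε ^ 2 * ‖n‖ ^ 2 := by
    rw [id1]
    have m1 : dt W n ^ 2 * crs n D ^ 2 ≤ ε ^ 2 * (5 * ‖n‖ ^ 2) :=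
      mul_le_mul b3 b1 (by positivity) (by positivity)
    have m2 : crs W n ^ 2 * dt D n ^ 2 ≤ (5 * ‖n‖ ^ 2) * (2 * ε) ^ 2 :=
      mul_le_mul b2 b4 (by positivity) (by positivity)
    nlinarith [sq_nonneg (dt W n * crs n D - crs W n * dt D n)]
  have b7 : crs W D ^ 2 ≤ 50 * ε ^ 2 := by
    have h5 : crs W D ^ 2 * ‖n‖ ^ 2 ≤ 50 * ε ^ 2 := by
      have h6 : (crs W D ^ 2 * ‖n‖ ^ 2) * ‖n‖ ^ 2 ≤ (50 * ε ^ 2) * ‖n‖ ^ 2 := by
        calc _ = (crs W D * ‖n‖ ^ 2) ^ 2 := by ring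
          _ ≤ _ := b6
      exact le_of_mul_le_mul_right h6 (by linarith)
    have h7 : crs W D ^ 2 * 1 ≤ crs W D ^ 2 * ‖n‖ ^ 2 :=
      mul_le_mul_of_nonneg_left hYZ (by positivity)
    linarith
  have b8 : 1 * ‖D‖ ^ 2 ≤ ‖W‖ ^ 2 * ‖D‖ ^ 2 := mul_le_mul_of_nonneg_right hW (by positivity)
  have b9 : 0 ≤ ε ^ 2 := by positivity
  linarith

end Pool.Agent.HypPack
end

section

set_option autoImplicit false

open scoped Real UpperHalfPlane

namespace Pool.Agent.HypPack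

/-- the scales -/
noncomputable def kap (h : ℝ) (j : ℕ) : ℝ := 10 ^ 6 * 1000 ^ j * h

theorem kap_succ (h : ℝ) (j : ℕ) : kap h (j + 1) = 1000 * kap h j := by
  rw [kap, kap, pow_succ]; ring

theorem kap_pos {h : ℝ} (hh : 0 < h) (j : ℕ) : 0 < kap h j := by
  rw [kap]; positivity

theorem kap_mono {h : ℝ} (hh : 0 < h) {i j : ℕ} (hij : i ≤ j) : kap h i ≤ kap h j := by
  rw [kap, kap]
  have : (1000 : ℝ) ^ i ≤ 1000 ^ j := pow_le_pow_right₀ (by norm_num) hij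
  have h2 : (10 : ℝ) ^ 6 * 1000 ^ i ≤ 10 ^ 6 * 1000 ^ j := by linarith
  exact mul_le_mul_of_nonneg_right h2 hh.le

theorem hyp_kap {S : Finset ℍ} {h : ℝ} (hh : 0 < h) (M j : ℕ) (hj : j ≤ M)
    (hM : h ≤ 1 / (10 ^ 36 * 1000 ^ (2 * M)))
    (sep : ∀ x ∈ S, ∀ y ∈ S, x ≠ y → 1 ≤ R h x y) : Hyp S h (kap h j) := by
  have h1000 : (1 : ℝ) ≤ 1000 ^ j := one_le_pow₀ (by norm_num)
  have hjM : (1000 : ℝ) ^ j ≤ 1000 ^ M := pow_le_pow_right₀ (by norm_num) hj
  have hM1 : (1 : ℝ) ≤ 1000 ^ M := one_le_pow₀ (by norm_num)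
  have h2M : (1000 : ℝ) ^ (2 * M) = 1000 ^ M * 1000 ^ M := by rw [two_mul, pow_add]
  have hpos : (0 : ℝ) < 10 ^ 36 * 1000 ^ (2 * M) := by positivity
  rw [le_div_iff₀ hpos, h2M] at hM
  set a : ℝ := 1000 ^ j with ha
  set b : ℝ := 1000 ^ M with hb
  have hab : a * a ≤ b * b := mul_le_mul hjM hjM (by linarith) (by linarith)
  have hb2 : b ≤ b * b := by nlinarith
  refine ⟨hh, ?_, ?_, ?_, sep⟩
  · rw [kap, ← ha]
    nlinarith
  · rw [kap, ← ha]
    have h1 : h * (a * a) ≤ h * (b * b) := mul_le_mul_of_nonneg_left hab hh.le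
    have h2 : 10 ^ 15 * (h * (a * a)) ≤ 1 := by
      have h3 : 0 ≤ h * (b * b) := by positivity
      nlinarith
    have h4 : 1000 * (10 ^ 6 * a * h) ^ 2 = (10 ^ 15 * (h * (a * a))) * h := by ring
    rw [h4]
    nlinarith
  · rw [kap, ← ha]
    have h1 : h * a ≤ h * (b * b) := mul_le_mul_of_nonneg_left (hjM.trans hb2) hh.le
    rw [le_div_iff₀ (by norm_num)]
    have h3 : h * (b * b) * 10 ^ 36 ≤ 1 := by linarith [hM]
    nlinarith

open Classical in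
theorem sum_inter_le {S : Finset ℍ} {h : ℝ} (hh : 0 < h) (M : ℕ)
    (deg6 : ∀ x ∈ S, ndeg S h (kap h M) x ≤ 6) :
    ∑ j ∈ Finset.range M, interCard S h (kap h j) ≤ 6 * S.card := by
  have hdisj : ((Finset.range M : Finset ℕ) : Set ℕ).PairwiseDisjoint
      (fun j => (S ×ˢ S).filter (fun p => Inter S h (kap h j) p.1 p.2)) := by
    intro i _ j _ hij
    rw [Function.onFun, Finset.disjoint_left]
    intro p hp hq
    rw [Finset.mem_filter] at hp hq
    obtain ⟨-, -, -, h1, h2⟩ := hp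
    obtain ⟨-, -, -, h3, h4⟩ := hq
    rw [← kap_succ] at h2 h4
    rcases lt_or_gt_of_ne hij with hlt | hlt
    · have := kap_mono hh (Nat.succ_le_of_lt hlt)
      rw [Nat.succ_eq_add_one] at this
      linarith
    · have := kap_mono hh (Nat.succ_le_of_lt hlt)
      rw [Nat.succ_eq_add_one] at this
      linarith
  have hsub : (Finset.range M).biUnion
      (fun j => (S ×ˢ S).filter (fun p => Inter S h (kap h j) p.1 p.2)) ⊆
      (S ×ˢ S).filter (fun p => Near S h (kap h M) p.1 p.2) := by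
    intro p hp
    rw [Finset.mem_biUnion] at hp
    obtain ⟨j, hj, hp⟩ := hp
    rw [Finset.mem_filter] at hp ⊢
    obtain ⟨hp0, hx, hy, h1, h2⟩ := hp
    refine ⟨hp0, hx, hy, ?_, ?_⟩
    · intro hxy
      rw [hxy, R_self] at h1
      have := kap_pos hh j
      linarith
    · rw [← kap_succ] at h2
      have := kap_mono hh (Nat.succ_le_of_lt (Finset.mem_range.mp hj))
      rw [Nat.succ_eq_add_one] at this
      linarith
  have hcard := Finset.card_le_card hsub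
  rw [Finset.card_biUnion hdisj] at hcard
  refine le_trans (le_of_eq ?_) (hcard.trans ?_)
  · rfl
  · have h1 : ((S ×ˢ S).filter (fun p => Near S h (kap h M) p.1 p.2)).card
        = ∑ x ∈ S, ndeg S h (kap h M) x := by
      rw [Finset.card_filter, Finset.sum_product]
      refine Finset.sum_congr rfl fun x _ => ?_
      rw [ndeg, Finset.card_filter]
    rw [h1]
    calc ∑ x ∈ S, ndeg S h (kap h M) x ≤ ∑ x ∈ S, 6 := Finset.sum_le_sum deg6
      _ = 6 * S.card := by rw [Finset.sum_const, smul_eq_mul, mul_comm]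

/-- TASK F (file Final.lean) -/
theorem final
    (deg6 : ∀ (S : Finset ℍ) (h κ : ℝ), Hyp S h κ → ∀ x ∈ S, ndeg S h κ x ≤ 6)
    (C : ℝ) (hC : 0 < C)
    (main : ∀ (S : Finset ℍ) (h κ : ℝ), Hyp S h κ →
      (S.card : ℝ) ≤ C * (∑ x ∈ S, (5 - (cdeg S h x : ℝ)) + 7 * (interCard S h κ : ℝ))) :
    ∃ c : ℝ, c < 5 ∧ ∃ r₀ : ℝ, 0 < r₀ ∧
      ∀ r : ℝ, 0 < r → r < r₀ →
        ∀ S : Finset UpperHalfPlane,
          (∀ x ∈ S, ∀ y ∈ S, x ≠ y → 2 * r ≤ dist x y) →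
            (∑ x ∈ S, ((S.filter (fun y => dist x y = 2 * r)).card : ℝ))
              ≤ c * (S.card : ℝ) := by
  obtain ⟨M, hM⟩ := exists_nat_ge (84 * C + 1)
  have hM0 : (0 : ℝ) < M := by linarith
  set h0 : ℝ := 1 / (10 ^ 36 * 1000 ^ (2 * M)) with hh0
  have hh0pos : 0 < h0 := by positivity
  have hcont : ContinuousAt Real.cosh 0 := Real.continuous_cosh.continuousAt
  rw [Metric.continuousAt_iff] at hcont
  obtain ⟨δ, hδ, hcosh⟩ := hcont h0 hh0pos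
  refine ⟨5 - 1 / (2 * C), by have : 0 < 1 / (2 * C) := by positivity
                              linarith, δ / 2, by positivity, ?_⟩
  classical
  intro r hr hrδ S hS
  set h : ℝ := Real.cosh (2 * r) - 1 with hh
  have hhpos : 0 < h := by
    have : 1 < Real.cosh (2 * r) := Real.one_lt_cosh.mpr (by positivity)
    linarith
  have hhle : h ≤ h0 := by
    have := @hcosh (2 * r) (by
      rw [Real.dist_eq, sub_zero, abs_of_pos (by positivity)]; linarith)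
    rw [Real.dist_eq, Real.cosh_zero] at this
    exact (le_abs_self _).trans this.le
  have sep : ∀ x ∈ S, ∀ y ∈ S, x ≠ y → 1 ≤ R h x y := by
    intro x hx y hy hxy
    rw [R, le_div_iff₀ hhpos, one_mul, hh]
    have h1 : Real.cosh (2 * r) ≤ Real.cosh (dist x y) := by
      rw [Real.cosh_le_cosh, abs_of_pos (by positivity), abs_of_nonneg dist_nonneg]
      exact hS x hx y hy hxy
    linarith
  have hyp : ∀ j ≤ M, Hyp S h (kap h j) := fun j hj => hyp_kap hhpos M j hj hhle sep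
  -- contact degrees
  have hcd : ∀ x ∈ S, ((S.filter (fun y => dist x y = 2 * r)).card : ℝ) = (cdeg S h x : ℝ) := by
    intro x hx
    rw [cdeg]
    congr 1
    refine congrArg Finset.card ?_
    ext y
    rw [Finset.mem_filter, Finset.mem_filter]
    constructor
    · rintro ⟨hy, hd⟩
      refine ⟨hy, hx, hy, ?_, ?_⟩
      · rintro rfl
        rw [dist_self] at hd
        linarith
      · rw [R, hd]
        exact div_self hhpos.ne'
    · rintro ⟨hy, -, -, -, hR⟩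
      refine ⟨hy, ?_⟩
      rw [R, div_eq_one_iff_eq hhpos.ne', hh] at hR
      have h1 : Real.cosh (dist x y) = Real.cosh (2 * r) := by linarith
      have h2 := Real.cosh_injOn (show dist x y ∈ Set.Ici 0 from dist_nonneg)
        (show 2 * r ∈ Set.Ici 0 by show 0 ≤ 2 * r; positivity) h1
      exact h2
  rw [Finset.sum_congr rfl hcd]
  -- pigeonhole
  have hsum := sum_inter_le hhpos M (deg6 S h _ (hyp M le_rfl))
  obtain ⟨j, hj, hjle⟩ : ∃ j ∈ Finset.range M,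
      (interCard S h (kap h j) : ℝ) ≤ 6 * S.card / M := by
    by_contra hcon
    push Not at hcon
    have h1 : ∑ j ∈ Finset.range M, (6 * (S.card : ℝ) / M) <
        ∑ j ∈ Finset.range M, (interCard S h (kap h j) : ℝ) := by
      apply Finset.sum_lt_sum_of_nonempty
      · rw [Finset.nonempty_range_iff]
        rintro rfl
        simp at hM0
      · exact hcon
    rw [Finset.sum_const, Finset.card_range, nsmul_eq_mul, mul_div_cancel₀ _ hM0.ne'] at h1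
    have h2 : ((∑ j ∈ Finset.range M, interCard S h (kap h j) : ℕ) : ℝ) ≤ ((6 * S.card : ℕ) : ℝ) := by
      exact_mod_cast hsum
    push_cast at h2
    linarith
  have hm := main S h (kap h j) (hyp j (Finset.mem_range.mp hj).le)
  rw [Finset.sum_sub_distrib, Finset.sum_const, nsmul_eq_mul] at hm
  set s : ℝ := (S.card : ℝ) with hs
  set E : ℝ := ∑ x ∈ S, (cdeg S h x : ℝ) with hE
  have hs0 : 0 ≤ s := by positivity
  have h3 : C * (6 * s / M) ≤ s / 14 := by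
    rw [mul_div_assoc', div_le_div_iff₀ hM0 (by norm_num)]
    nlinarith
  have h4 : C * (interCard S h (kap h j) : ℝ) ≤ s / 14 :=
    (mul_le_mul_of_nonneg_left hjle hC.le).trans h3
  have h5 : C * E ≤ 5 * C * s - s / 2 := by nlinarith
  have h6 : (5 - 1 / (2 * C)) * s = (5 * C * s - s / 2) / C := by
    field_simp
  rw [h6, le_div_iff₀ hC]
  linarith

end Pool.Agent.HypPack
end

section

set_option autoImplicit false

open scoped Real UpperHalfPlane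
open InnerProductGeometry

namespace Pool.Agent.HypPack

theorem R_le_step {h : ℝ} (hh : 0 < h) (x y z : ℍ) :
    R h x z ≤ 2 * R h y x + 2 * R h y z + h * (R h y x ^ 2 + R h y z ^ 2) := by
  have c := chart hh y x z
  have nx := norm_P_sq hh y x
  have nz := norm_P_sq hh y z
  have pl := parallelogram_law_with_norm ℝ (P h y x) (P h y z)
  have : 0 ≤ ‖P h y x + P h y z‖ * ‖P h y x + P h y z‖ := mul_self_nonneg _
  nlinarith [sq_nonneg (R h y x - R h y z)]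

namespace Hole

variable {S : Finset ℍ} {h κ : ℝ}

theorem step (H : Hyp S h κ) {o y z : ℍ} {B : ℝ} (hB : R h o y ≤ B) (hB' : B ≤ 400)
    (hyz : Near S h κ y z) : R h o z ≤ 2 * B + 3 := by
  have hh := H.hpos
  have s := R_le_step hh o y z
  rw [R_comm h y o] at s
  have h1 : R h y z ≤ 1 + κ := hyz.2.2.2
  have h2 := H.kle
  have h3 := H.hk
  have h4 := R_nonneg hh o y
  have h5 := R_nonneg hh y z
  have h6 : R h o y ^ 2 ≤ 400 ^ 2 := pow_le_pow_left₀ h4 (hB.trans hB') 2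
  have h7 : R h y z ^ 2 ≤ 2 ^ 2 := pow_le_pow_left₀ h5 (by norm_num at h2 ⊢; linarith) 2
  have h8 : h * (R h o y ^ 2 + R h y z ^ 2) ≤ h * (400 ^ 2 + 2 ^ 2) :=
    mul_le_mul_of_nonneg_left (by linarith) hh.le
  norm_num at h2 h8
  linarith

theorem near_chart (H : Hyp S h κ) {o a b : ℍ} (ha : R h o a ≤ 400) (hb : R h o b ≤ 400)
    (hab : Near S h κ a b) :
    1 ≤ ‖P h o a - P h o b‖ ^ 2 ∧ ‖P h o a - P h o b‖ ^ 2 ≤ 1 + 2 * κ := by
  have hh := H.hpos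
  have c := chart hh o a b
  have h1 : R h a b ≤ 1 + κ := hab.2.2.2
  have h1' := H.sep a hab.1 b hab.2.1 hab.2.2.1
  have h3 := H.hk
  have h4 := R_nonneg hh o a
  have h5 := R_nonneg hh o b
  have h6 : (R h o a - R h o b) ^ 2 ≤ 400 ^ 2 := by
    apply sq_le_sq' <;> linarith
  have h7 : h / 2 * (R h o a - R h o b) ^ 2 ≤ h / 2 * 400 ^ 2 :=
    mul_le_mul_of_nonneg_left h6 (by linarith)
  have h8 : 0 ≤ h / 2 * (R h o a - R h o b) ^ 2 := by positivity
  rw [c]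
  constructor
  · linarith
  · norm_num at h7 h3
    linarith

theorem sep_chart (H : Hyp S h κ) {o a b : ℍ} (ha : a ∈ S) (hb : b ∈ S) (hab : a ≠ b) :
    1 ≤ ‖P h o a - P h o b‖ ^ 2 := by
  have hh := H.hpos
  have c := chart hh o a b
  have h1' := H.sep a ha b hb hab
  have h8 : 0 ≤ h / 2 * (R h o a - R h o b) ^ 2 := by positivity
  rw [c]
  linarith

theorem near_symm {a b : ℍ} (hab : Near S h κ a b) : Near S h κ b a :=
  ⟨hab.2.1, hab.1, hab.2.2.1.symm, by rw [R_comm]; exact hab.2.2.2⟩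

theorem kpos (H : Hyp S h κ) : 0 < κ := by
  have := H.hpos
  have := H.hk
  have : 0 < 10 ^ 6 * h := by positivity
  linarith

theorem cont_near (H : Hyp S h κ) {a b : ℍ} (hab : Cont S h a b) : Near S h κ a b :=
  ⟨hab.1, hab.2.1, hab.2.2.1, by rw [hab.2.2.2]; linarith [kpos H]⟩

/-- The fourth vertex of a near rhombus in a chart. -/
theorem rh4 (H : Hyp S h κ) {o x p w z : ℍ} (hx : R h o x ≤ 400) (hp : R h o p ≤ 400)
    (hw : R h o w ≤ 400) (hz : R h o z ≤ 400) (h1 : Near S h κ x p) (h2 : Near S h κ p w)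
    (h3 : Near S h κ w z) (h4 : Near S h κ z x) (hxw : x ≠ w) (hpz : p ≠ z) :
    ‖P h o w - P h o p - P h o z + P h o x‖ ≤ 20 * κ := by
  have k0 := kpos H
  have kle := H.kle
  have n1 := near_chart H hp hx (near_symm h1)
  have n2 := near_chart H hw hp (near_symm h2)
  have n3 := near_chart H hw hz h3
  have n4 := near_chart H hz hx h4
  have s1 := sep_chart (o := o) H h3.1 h1.1 hxw.symm
  have s2 := sep_chart (o := o) H h1.2.1 h4.1 hpz
  have hk1 : 2 * κ ≤ 1 / 100 := by norm_num at kle ⊢; linarith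
  have key := rhomb_pos (ε := 2 * κ) (by linarith) hk1 (Y := P h o p - P h o x)
    (Z := P h o z - P h o x) (W := P h o w - P h o x) n1.1 n1.2 n4.1 n4.2
    (by rw [sub_sub_sub_cancel_right]; exact n2.1) (by rw [sub_sub_sub_cancel_right]; exact n2.2)
    (by rw [sub_sub_sub_cancel_right]; exact n3.1) (by rw [sub_sub_sub_cancel_right]; exact n3.2)
    s1 (by rw [sub_sub_sub_cancel_right]; exact s2)
  have e : P h o w - P h o x - (P h o p - P h o x + (P h o z - P h o x)) =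
      P h o w - P h o p - P h o z + P h o x := by ring
  rw [e] at key
  have : ‖P h o w - P h o p - P h o z + P h o x‖ ^ 2 ≤ (20 * κ) ^ 2 := by
    calc _ ≤ 100 * (2 * κ) ^ 2 := key
      _ = _ := by ring
  exact (pow_le_pow_iff_left₀ (norm_nonneg _) (by linarith) two_ne_zero).mp this

theorem eq_of_close (H : Hyp S h κ) {o a b : ℍ} (ha : a ∈ S) (hb : b ∈ S)
    (hab : ‖P h o a - P h o b‖ ≤ 480 * κ) : a = b := by
  by_contra hne
  have s := sep_chart (o := o) H ha hb hne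
  have k0 := kpos H
  have kle := H.kle
  have h1 : ‖P h o a - P h o b‖ < 1 := by
    norm_num at kle
    linarith
  have : ‖P h o a - P h o b‖ ^ 2 < 1 := by
    nlinarith [norm_nonneg (P h o a - P h o b)]
  linarith

end Hole

open Hole

theorem hole_lemma {S : Finset ℍ} {h κ : ℝ} (H : Hyp S h κ) (u m m' : ℕ → ℍ)
    (hu : ∀ i, i < 6 →
      PentAt (Near S h κ) (ang h) (u (i + 1)) (u (i + 2)) (m (i + 1)) (m' i) (m i) (u i) ∧
      Cont S h (u (i + 2)) (m (i + 1)) ∧ Cont S h (m (i + 1)) (m' i) ∧ Cont S h (m' i) (m i) ∧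
      Cont S h (m i) (u i)) : False := by
  have hh := H.hpos
  have k0 := kpos H
  have kle := H.kle
  have hk1 : κ ≤ 1 / 1000 := by norm_num at kle ⊢; linarith
  -- near relations
  have N1 : ∀ i, i < 6 → Near S h κ (u (i + 1)) (u (i + 2)) := fun i hi =>
    ((hu i hi).1.1 _).mpr (Or.inl rfl)
  have N2 : ∀ i, i < 6 → Near S h κ (u (i + 1)) (m (i + 1)) := fun i hi =>
    ((hu i hi).1.1 _).mpr (Or.inr (Or.inl rfl))
  have N3 : ∀ i, i < 6 → Near S h κ (u (i + 1)) (m' i) := fun i hi =>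
    ((hu i hi).1.1 _).mpr (Or.inr (Or.inr (Or.inl rfl)))
  have N4 : ∀ i, i < 6 → Near S h κ (u (i + 1)) (m i) := fun i hi =>
    ((hu i hi).1.1 _).mpr (Or.inr (Or.inr (Or.inr (Or.inl rfl))))
  have N5 : ∀ i, i < 6 → Near S h κ (u (i + 1)) (u i) := fun i hi =>
    ((hu i hi).1.1 _).mpr (Or.inr (Or.inr (Or.inr (Or.inr rfl))))
  have uS : ∀ i, i < 8 → u i ∈ S := by
    intro i hi
    rcases Nat.lt_or_ge i 6 with h6 | h6
    · exact (N5 i h6).2.1
    · rcases Nat.lt_or_ge i 7 with h7 | h7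
      · have : i = 6 := by omega
        subst this
        exact (N5 5 (by norm_num)).1
      · have : i = 7 := by omega
        subst this
        exact (N1 5 (by norm_num)).2.1
  -- bounds for R from the base point
  set o := u 0 with ho
  have b0 : R h o (u 0) ≤ 0 := by rw [← ho, R_self]
  have b1 : R h o (u 1) ≤ 3 := (step H b0 (by norm_num) (near_symm (N5 0 (by norm_num)))).trans
    (by norm_num)
  have b2 : R h o (u 2) ≤ 9 := (step H b1 (by norm_num) (N1 0 (by norm_num))).trans (by norm_num)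
  have b3 : R h o (u 3) ≤ 21 := (step H b2 (by norm_num) (N1 1 (by norm_num))).trans (by norm_num)
  have b4 : R h o (u 4) ≤ 45 := (step H b3 (by norm_num) (N1 2 (by norm_num))).trans (by norm_num)
  have b5 : R h o (u 5) ≤ 93 := (step H b4 (by norm_num) (N1 3 (by norm_num))).trans (by norm_num)
  have b6 : R h o (u 6) ≤ 189 := (step H b5 (by norm_num) (N1 4 (by norm_num))).trans (by norm_num)
  have b7 : R h o (u 7) ≤ 381 := (step H b6 (by norm_num) (N1 5 (by norm_num))).trans (by norm_num)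
  have bu : ∀ i, i < 7 → R h o (u i) ≤ 189 := by
    intro i hi
    interval_cases i <;> linarith
  have bu' : ∀ i, i < 8 → R h o (u i) ≤ 400 := by
    intro i hi
    interval_cases i <;> linarith
  have bm1 : ∀ i, i < 6 → R h o (m (i + 1)) ≤ 400 := fun i hi =>
    (step H (bu (i + 1) (by omega)) (by norm_num) (N2 i hi)).trans (by norm_num)
  have bm2 : ∀ i, i < 6 → R h o (m' i) ≤ 400 := fun i hi =>
    (step H (bu (i + 1) (by omega)) (by norm_num) (N3 i hi)).trans (by norm_num)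
  have bm3 : ∀ i, i < 6 → R h o (m i) ≤ 400 := fun i hi =>
    (step H (bu (i + 1) (by omega)) (by norm_num) (N4 i hi)).trans (by norm_num)
  -- the three rhombi at each vertex
  have E1 : ∀ i, i < 6 →
      ‖P h o (m (i + 1)) - P h o (u (i + 2)) - P h o (m' i) + P h o (u (i + 1))‖ ≤ 20 * κ := by
    intro i hi
    obtain ⟨hp, c1, c2, c3, c4⟩ := hu i hi
    have nd := hp.2.1
    simp only [List.nodup_cons, List.mem_cons, List.not_mem_nil, or_false, not_or] at nd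
    exact rh4 H (bu' _ (by omega)) (bu' _ (by omega)) (bm1 i hi) (bm2 i hi) (N1 i hi)
      (cont_near H c1) (cont_near H c2) (near_symm (N3 i hi)) (N2 i hi).2.2.1 nd.1.2.1
  have E2 : ∀ i, i < 6 →
      ‖P h o (m' i) - P h o (m (i + 1)) - P h o (m i) + P h o (u (i + 1))‖ ≤ 20 * κ := by
    intro i hi
    obtain ⟨hp, c1, c2, c3, c4⟩ := hu i hi
    have nd := hp.2.1
    simp only [List.nodup_cons, List.mem_cons, List.not_mem_nil, or_false, not_or] at nd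
    exact rh4 H (bu' _ (by omega)) (bm1 i hi) (bm2 i hi) (bm3 i hi) (N2 i hi)
      (cont_near H c2) (cont_near H c3) (near_symm (N4 i hi)) (N3 i hi).2.2.1 nd.2.1.2.1
  have E3 : ∀ i, i < 6 →
      ‖P h o (m i) - P h o (m' i) - P h o (u i) + P h o (u (i + 1))‖ ≤ 20 * κ := by
    intro i hi
    obtain ⟨hp, c1, c2, c3, c4⟩ := hu i hi
    have nd := hp.2.1
    simp only [List.nodup_cons, List.mem_cons, List.not_mem_nil, or_false, not_or] at nd
    exact rh4 H (bu' _ (by omega)) (bm2 i hi) (bm3 i hi) (bu' _ (by omega)) (N3 i hi)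
      (cont_near H c3) (cont_near H c4) (near_symm (N5 i hi)) (N4 i hi).2.2.1 nd.2.2.1.2
  -- the recurrence
  have C : ∀ i, i < 5 → ‖P h o (u (i + 3)) - 2 * P h o (u (i + 2)) + 2 * P h o (u (i + 1))
      - P h o (u i)‖ ≤ 80 * κ := by
    intro i hi
    have a2 := E2 i (by omega)
    have a3 := E3 i (by omega)
    have a4 := E1 (i + 1) (by omega)
    have a5 := E2 (i + 1) (by omega)
    have e : P h o (u (i + 3)) - 2 * P h o (u (i + 2)) + 2 * P h o (u (i + 1)) - P h o (u i) =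
        ((P h o (m' i) - P h o (m (i + 1)) - P h o (m i) + P h o (u (i + 1))) +
        (P h o (m i) - P h o (m' i) - P h o (u i) + P h o (u (i + 1)))) -
        ((P h o (m (i + 1 + 1)) - P h o (u (i + 1 + 2)) - P h o (m' (i + 1))
          + P h o (u (i + 1 + 1))) +
        (P h o (m' (i + 1)) - P h o (m (i + 1 + 1)) - P h o (m (i + 1))
          + P h o (u (i + 1 + 1)))) := by
      rw [show i + 3 = i + 1 + 2 by omega, show i + 2 = i + 1 + 1 by omega]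
      ring
    rw [e]
    calc _ ≤ ‖(P h o (m' i) - P h o (m (i + 1)) - P h o (m i) + P h o (u (i + 1))) +
        (P h o (m i) - P h o (m' i) - P h o (u i) + P h o (u (i + 1)))‖ +
        ‖((P h o (m (i + 1 + 1)) - P h o (u (i + 1 + 2)) - P h o (m' (i + 1))
          + P h o (u (i + 1 + 1))) +
        (P h o (m' (i + 1)) - P h o (m (i + 1 + 1)) - P h o (m (i + 1))
          + P h o (u (i + 1 + 1))))‖ := norm_sub_le _ _
      _ ≤ (20 * κ + 20 * κ) + (20 * κ + 20 * κ) := by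
          refine add_le_add ((norm_add_le _ _).trans (add_le_add a2 a3))
            ((norm_add_le _ _).trans (add_le_add a4 a5))
      _ = 80 * κ := by ring
  have C0 := C 0 (by norm_num)
  have C1 := C 1 (by norm_num)
  have C2 := C 2 (by norm_num)
  have C3 := C 3 (by norm_num)
  have C4 := C 4 (by norm_num)
  simp only [zero_add, Nat.reduceAdd] at C0 C1 C2 C3 C4
  obtain ⟨c0, hc0⟩ : ∃ c, c = P h o (u 3) - 2 * P h o (u 2) + 2 * P h o (u 1) - P h o (u 0) :=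
    ⟨_, rfl⟩
  obtain ⟨c1, hc1⟩ : ∃ c, c = P h o (u 4) - 2 * P h o (u 3) + 2 * P h o (u 2) - P h o (u 1) :=
    ⟨_, rfl⟩
  obtain ⟨c2, hc2⟩ : ∃ c, c = P h o (u 5) - 2 * P h o (u 4) + 2 * P h o (u 3) - P h o (u 2) :=
    ⟨_, rfl⟩
  obtain ⟨c3, hc3⟩ : ∃ c, c = P h o (u 6) - 2 * P h o (u 5) + 2 * P h o (u 4) - P h o (u 3) :=
    ⟨_, rfl⟩
  obtain ⟨c4, hc4⟩ : ∃ c, c = P h o (u 7) - 2 * P h o (u 6) + 2 * P h o (u 5) - P h o (u 4) :=
    ⟨_, rfl⟩
  rw [← hc0] at C0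
  rw [← hc1] at C1
  rw [← hc2] at C2
  rw [← hc3] at C3
  rw [← hc4] at C4
  have n2 : ∀ c : ℂ, ‖2 * c‖ = 2 * ‖c‖ := by
    intro c
    rw [norm_mul]
    simp
  have h60 : u 6 = u 0 := by
    apply eq_of_close (o := o) H (uS 6 (by norm_num)) (uS 0 (by norm_num))
    have e : P h o (u 6) - P h o (u 0) = c3 + 2 * c2 + (2 * c1 + c0) := by
      rw [hc0, hc1, hc2, hc3]; ring
    rw [e]
    calc _ ≤ ‖c3 + 2 * c2‖ + ‖2 * c1 + c0‖ := norm_add_le _ _
      _ ≤ (‖c3‖ + ‖2 * c2‖) + (‖2 * c1‖ + ‖c0‖) :=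
        add_le_add (norm_add_le _ _) (norm_add_le _ _)
      _ ≤ 480 * κ := by rw [n2, n2]; linarith
  have h71 : u 7 = u 1 := by
    apply eq_of_close (o := o) H (uS 7 (by norm_num)) (uS 1 (by norm_num))
    have e : P h o (u 7) - P h o (u 1) = c4 + 2 * c3 + (2 * c2 + c1) := by
      rw [hc1, hc2, hc3, hc4]; ring
    rw [e]
    calc _ ≤ ‖c4 + 2 * c3‖ + ‖2 * c2 + c1‖ := norm_add_le _ _
      _ ≤ (‖c4‖ + ‖2 * c3‖) + (‖2 * c2‖ + ‖c1‖) :=
        add_le_add (norm_add_le _ _) (norm_add_le _ _)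
      _ ≤ 480 * κ := by rw [n2, n2]; linarith
  have h30 : u 3 ≠ u 0 := by
    intro h3
    have e : 2 * (P h o (u 1) - P h o (u 2)) = c0 := by
      rw [hc0, h3]; ring
    have n := (near_chart (o := o) H (bu' 1 (by norm_num)) (bu' 2 (by norm_num))
      (N1 0 (by norm_num))).1
    have e2 : 2 * ‖P h o (u 1) - P h o (u 2)‖ ≤ 80 * κ := by
      rw [← n2, e]; exact C0
    have e3 := one_le_of_sq (norm_nonneg _) n
    linarith
  have h40 : u 4 ≠ u 0 := by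
    rw [← h60]
    have nd := (hu 4 (by norm_num)).1.2.1
    simp only [List.nodup_cons, List.mem_cons, List.not_mem_nil, or_false, not_or] at nd
    exact fun h4 => nd.1.2.2.2 h4.symm
  have h20 : u 2 ≠ u 0 := by
    have nd := (hu 0 (by norm_num)).1.2.1
    simp only [List.nodup_cons, List.mem_cons, List.not_mem_nil, or_false, not_or] at nd
    exact nd.1.2.2.2
  -- the angles
  have Rn : ∀ a b : ℍ, Near S h κ a b → 1 ≤ R h a b ∧ R h a b ≤ 11 / 10 := fun a b hab =>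
    ⟨H.sep a hab.1 b hab.2.1 hab.2.2.1, by linarith [hab.2.2.2]⟩
  have A : ∀ i, i < 6 → 2 * π / 3 < ang h (u (i + 1)) (u i) (u (i + 2)) := by
    intro i hi
    obtain ⟨hp, c1, c2, c3, c4⟩ := hu i hi
    have sum := hp.2.2.2
    have r1 := Rn _ _ (N1 i hi)
    have r2 := Rn _ _ (N2 i hi)
    have r3 := Rn _ _ (N3 i hi)
    have r4 := Rn _ _ (N4 i hi)
    have r5 := Rn _ _ (N5 i hi)
    have t1 := tri_lt hh r1.1 r1.2 r2.1 r2.2 c1.2.2.2
    have t2 := tri_lt hh r2.1 r2.2 r3.1 r3.2 c2.2.2.2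
    have t3 := tri_lt hh r3.1 r3.2 r4.1 r4.2 c3.2.2.2
    have t4 := tri_lt hh r4.1 r4.2 r5.1 r5.2 c4.2.2.2
    linarith
  have A1 := A 0 (by norm_num)
  have A2 := A 1 (by norm_num)
  have A3 := A 2 (by norm_num)
  have A4 := A 3 (by norm_num)
  have A5 := A 4 (by norm_num)
  have A6 := A 5 (by norm_num)
  simp only [zero_add, Nat.reduceAdd] at A1 A2 A3 A4 A5 A6
  rw [h60] at A5
  rw [h60, h71] at A6
  have Rpos : ∀ a b : ℍ, a ∈ S → b ∈ S → a ≠ b → 0 < R h a b := fun a b ha hb hab => by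
    linarith [H.sep a ha b hb hab]
  have S0 := uS 0 (by norm_num)
  have S1 := uS 1 (by norm_num)
  have S2 := uS 2 (by norm_num)
  have S3 := uS 3 (by norm_num)
  have S4 := uS 4 (by norm_num)
  have S5 := uS 5 (by norm_num)
  have n10 : u 0 ≠ u 1 := ((N5 0 (by norm_num)).2.2.1).symm
  have n12 : u 1 ≠ u 2 := (N1 0 (by norm_num)).2.2.1
  have n23 : u 2 ≠ u 3 := (N1 1 (by norm_num)).2.2.1
  have n34 : u 3 ≠ u 4 := (N1 2 (by norm_num)).2.2.1
  have n45 : u 4 ≠ u 5 := (N1 3 (by norm_num)).2.2.1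
  have n50 : u 0 ≠ u 5 := by
    have := (N1 4 (by norm_num)).2.2.1
    simp only [Nat.reduceAdd] at this
    rw [h60] at this
    exact this.symm
  have T1 := tri_sum hh (Rpos _ _ S0 S1 n10) (Rpos _ _ S0 S2 h20.symm) (Rpos _ _ S1 S2 n12)
  have T2 := tri_sum hh (Rpos _ _ S0 S2 h20.symm) (Rpos _ _ S0 S3 h30.symm) (Rpos _ _ S2 S3 n23)
  have T3 := tri_sum hh (Rpos _ _ S0 S3 h30.symm) (Rpos _ _ S0 S4 h40.symm) (Rpos _ _ S3 S4 n34)
  have T4 := tri_sum hh (Rpos _ _ S0 S4 h40.symm) (Rpos _ _ S0 S5 n50) (Rpos _ _ S4 S5 n45)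
  have tr : ∀ x a b c : ℍ, ang h x a c ≤ ang h x a b + ang h x b c := fun x a b c =>
    angle_le_angle_add_angle _ _ _
  have t2 := tr (u 2) (u 1) (u 0) (u 3)
  have t3 := tr (u 3) (u 2) (u 0) (u 4)
  have t4 := tr (u 4) (u 3) (u 0) (u 5)
  have t5 := tr (u 0) (u 5) (u 4) (u 1)
  have t6 := tr (u 0) (u 4) (u 3) (u 1)
  have t7 := tr (u 0) (u 3) (u 2) (u 1)
  rw [ang_comm h (u 2) (u 1) (u 0)] at t2
  rw [ang_comm h (u 3) (u 2) (u 0)] at t3
  rw [ang_comm h (u 4) (u 3) (u 0)] at t4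
  rw [ang_comm h (u 5) (u 4) (u 0)] at A5
  rw [ang_comm h (u 0) (u 5) (u 4)] at t5
  rw [ang_comm h (u 0) (u 4) (u 3)] at t6
  rw [ang_comm h (u 0) (u 3) (u 2), ang_comm h (u 0) (u 2) (u 1)] at t7
  linarith

end Pool.Agent.HypPack
end
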