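import Mathlib

section
set_option autoImplicit false
open InnerProductGeometry Real

namespace Pool.Agent.HypPack

namespace Detect

lemma sqrt3_gt : (17 / 10 : ℝ) < √3 := by
  rw [Real.lt_sqrt (by norm_num)]; norm_num

lemma sqrt3_lt : √3 < (1733 / 1000 : ℝ) := by
  rw [Real.sqrt_lt' (by norm_num)]; norm_num

lemma cos_c : 1 / 2 + 1 / 10 ^ 8 < cos (π / 3 - 1 / 10 ^ 4) := by
  rw [cos_sub, cos_pi_div_three, sin_pi_div_three]
  have h1 : 1 - (1 / 10 ^ 4 : ℝ) ^ 2 / 2 ≤ cos (1 / 10 ^ 4) := one_sub_sq_div_two_le_cos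
  have h2 : (1 / 10 ^ 4 : ℝ) - (1 / 10 ^ 4) ^ 3 / 6 < sin (1 / 10 ^ 4) :=
    sin_gt_sub_cube (by norm_num)
  have h3 := sqrt3_gt
  nlinarith

lemma angle_ge {x ε : ℝ} (hε : ε ≤ 1 / 10 ^ 8) (h0 : 0 ≤ x)
    (h : cos x ≤ 1 / 2 + ε) : π / 3 - 1 / 10 ^ 4 ≤ x := by
  by_contra hlt
  push Not at hlt
  have := cos_lt_cos_of_nonneg_of_le_pi h0 (by linarith [pi_pos]) hlt
  linarith [cos_c]

lemma pair_cos {r s k ε : ℝ} (hr : 1 ≤ r) (hs : 1 ≤ s) (hr2 : r ^ 2 ≤ 1 + ε)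
    (hs2 : s ^ 2 ≤ 1 + ε) (h : 1 ≤ r ^ 2 + s ^ 2 - 2 * r * s * k) (hε0 : 0 ≤ ε) :
    k ≤ 1 / 2 + ε := by
  by_cases hk : k ≤ 0
  · linarith
  · push Not at hk
    have : 1 ≤ r * s := by nlinarith
    nlinarith

lemma polar (w : ℂ) : ∃ θ : ℝ, 0 ≤ θ ∧ θ < 2 * π ∧ w = ‖w‖ * Complex.exp (θ * Complex.I) := by
  by_cases h : 0 ≤ w.arg
  · exact ⟨w.arg, h, by linarith [Complex.arg_le_pi w, pi_pos], (Complex.norm_mul_exp_arg_mul_I w).symm⟩
  · push Not at h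
    refine ⟨w.arg + 2 * π, by linarith [Complex.neg_pi_lt_arg w, pi_pos], by linarith, ?_⟩
    have : ((w.arg + 2 * π : ℝ) : ℂ) * Complex.I = w.arg * Complex.I + 2 * π * Complex.I := by
      push_cast; ring
    rw [this, Complex.exp_periodic]
    exact (Complex.norm_mul_exp_arg_mul_I w).symm

lemma norm_sq_diff (r s α β : ℝ) :
    ‖(r : ℂ) * Complex.exp (α * Complex.I) - s * Complex.exp (β * Complex.I)‖ ^ 2
      = r ^ 2 + s ^ 2 - 2 * r * s * cos (α - β) := by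
  rw [← Complex.normSq_eq_norm_sq, Complex.normSq_apply]
  simp only [Complex.sub_re, Complex.sub_im, Complex.mul_re, Complex.mul_im,
    Complex.exp_ofReal_mul_I_re, Complex.exp_ofReal_mul_I_im, Complex.ofReal_re,
    Complex.ofReal_im]
  rw [cos_sub]
  have h1 := sin_sq_add_cos_sq α
  have h2 := sin_sq_add_cos_sq β
  linear_combination r ^ 2 * h1 + s ^ 2 * h2

lemma four_up {a b d e c : ℝ} (hc : 0 < c) (ha : c ≤ a) (hb : c ≤ b) (hd : c ≤ d) (he : c ≤ e)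
    (hab : c ≤ |a - b|) (had : c ≤ |a - d|) (hae : c ≤ |a - e|) (hbd : c ≤ |b - d|)
    (hbe : c ≤ |b - e|) (hde : c ≤ |d - e|) :
    4 * c ≤ a ∨ 4 * c ≤ b ∨ 4 * c ≤ d ∨ 4 * c ≤ e := by
  by_contra hcon
  push Not at hcon
  obtain ⟨h1, h2, h3, h4⟩ := hcon
  rcases le_abs.1 hab with hab | hab <;> rcases le_abs.1 had with had | had <;>
  rcases le_abs.1 hae with hae | hae <;> rcases le_abs.1 hbd with hbd | hbd <;>
  rcases le_abs.1 hbe with hbe | hbe <;> rcases le_abs.1 hde with hde | hde <;> linarith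

lemma four_down {a b d e c m : ℝ} (hc : 0 < c) (ha : a ≤ m - c) (hb : b ≤ m - c)
    (hd : d ≤ m - c) (he : e ≤ m - c)
    (hab : c ≤ |a - b|) (had : c ≤ |a - d|) (hae : c ≤ |a - e|) (hbd : c ≤ |b - d|)
    (hbe : c ≤ |b - e|) (hde : c ≤ |d - e|) :
    a ≤ m - 4 * c ∨ b ≤ m - 4 * c ∨ d ≤ m - 4 * c ∨ e ≤ m - 4 * c := by
  by_contra hcon
  push Not at hcon
  obtain ⟨h1, h2, h3, h4⟩ := hcon
  rcases le_abs.1 hab with hab | hab <;> rcases le_abs.1 had with had | had <;>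
  rcases le_abs.1 hae with hae | hae <;> rcases le_abs.1 hbd with hbd | hbd <;>
  rcases le_abs.1 hbe with hbe | hbe <;> rcases le_abs.1 hde with hde | hde <;> linarith

lemma one_le_of_sq {r : ℝ} (h0 : 0 ≤ r) (h : 1 ≤ r ^ 2) : 1 ≤ r := by nlinarith

/-- Polar coordinates around `P`. -/
lemma sector_aux (ε : ℝ) (hε0 : 0 ≤ ε) (hε : ε ≤ 1 / 10 ^ 8) (P : ℂ)
    (hP : 1 ≤ ‖P‖ ^ 2 ∧ ‖P‖ ^ 2 ≤ 1 + ε) (A : Fin 5 → ℂ)
    (hA : ∀ i, 1 ≤ ‖A i - P‖ ^ 2 ∧ ‖A i - P‖ ^ 2 ≤ 1 + ε)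
    (hAA : ∀ i j, i ≠ j → 1 ≤ ‖A i - A j‖ ^ 2) (i0 : Fin 5) (h0 : A i0 = 0) :
    ∃ θ : Fin 5 → ℝ,
      (∀ i, A i = P / ‖P‖ * (‖P‖ - (‖A i - P‖ : ℝ) * Complex.exp (θ i * Complex.I))) ∧
      (∀ i, i ≠ i0 → π / 3 - 1 / 10 ^ 4 ≤ θ i ∧ θ i ≤ 2 * π - (π / 3 - 1 / 10 ^ 4)) ∧
      (∀ i j, i ≠ j → π / 3 - 1 / 10 ^ 4 ≤ |θ i - θ j|) := by
  have hP1 : 1 ≤ ‖P‖ := one_le_of_sq (norm_nonneg _) hP.1
  have hPne : (‖P‖ : ℂ) ≠ 0 := by
    norm_cast; linarith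
  have hP0 : P ≠ 0 := by
    intro h; rw [h, norm_zero] at hP1; linarith
  have hU : ‖P / ‖P‖‖ = 1 := by
    rw [norm_div, Complex.norm_real, norm_norm, div_self (by linarith)]
  have key : ∀ i, ∃ θ : ℝ, 0 ≤ θ ∧ θ < 2 * π ∧
      A i = P / ‖P‖ * (‖P‖ - (‖A i - P‖ : ℝ) * Complex.exp (θ * Complex.I)) := by
    intro i
    obtain ⟨θ, h1, h2, h3⟩ := polar (-(A i - P) / (P / ‖P‖))
    refine ⟨θ, h1, h2, ?_⟩
    have hn : ‖-(A i - P) / (P / ‖P‖)‖ = ‖A i - P‖ := by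
      rw [norm_div, norm_neg, hU, div_one]
    rw [hn] at h3
    rw [← h3]
    field_simp
    ring
  choose θ h1 h2 h3 using key
  refine ⟨θ, h3, ?_, ?_⟩
  · intro i hi
    have ha1 : 1 ≤ ‖A i - P‖ := one_le_of_sq (norm_nonneg _) (hA i).1
    have hk : ‖A i‖ ^ 2 = ‖P‖ ^ 2 + ‖A i - P‖ ^ 2 - 2 * ‖P‖ * ‖A i - P‖ * cos (0 - θ i) := by
      have e1 : ‖A i‖ = ‖(‖P‖ : ℂ) * Complex.exp ((0 : ℝ) * Complex.I)
          - (‖A i - P‖ : ℝ) * Complex.exp (θ i * Complex.I)‖ := by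
        conv_lhs => rw [h3 i, norm_mul, hU, one_mul]
        simp
      rw [e1, norm_sq_diff]
    have hge : 1 ≤ ‖A i‖ ^ 2 := by
      have := hAA i i0 hi
      rwa [h0, sub_zero] at this
    have hc : cos (0 - θ i) ≤ 1 / 2 + ε :=
      pair_cos hP1 ha1 hP.2 (hA i).2 (by rw [← hk]; exact hge) hε0
    rw [zero_sub, cos_neg] at hc
    refine ⟨angle_ge hε (h1 i) hc, ?_⟩
    have : cos (2 * π - θ i) ≤ 1 / 2 + ε := by rwa [cos_two_pi_sub]
    linarith [angle_ge hε (by linarith [h2 i]) this]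
  · intro i j hij
    have ha1 : 1 ≤ ‖A i - P‖ := one_le_of_sq (norm_nonneg _) (hA i).1
    have hb1 : 1 ≤ ‖A j - P‖ := one_le_of_sq (norm_nonneg _) (hA j).1
    have hk : ‖A i - A j‖ ^ 2 = ‖A j - P‖ ^ 2 + ‖A i - P‖ ^ 2
        - 2 * ‖A j - P‖ * ‖A i - P‖ * cos (θ j - θ i) := by
      have e1 : ‖A i - A j‖ = ‖(‖A j - P‖ : ℂ) * Complex.exp (θ j * Complex.I)
          - (‖A i - P‖ : ℝ) * Complex.exp (θ i * Complex.I)‖ := by
        conv_lhs => rw [h3 i, h3 j, ← mul_sub, norm_mul, hU, one_mul]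
        congr 1
        ring
      rw [e1, norm_sq_diff]
    have hc : cos (θ j - θ i) ≤ 1 / 2 + ε :=
      pair_cos hb1 ha1 (hA j).2 (hA i).2 (by rw [← hk]; exact hAA i j hij) hε0
    rw [← cos_abs, abs_sub_comm] at hc
    exact angle_ge hε (abs_nonneg _) hc

/-- A neighbour of `P` in the sector on the first side. -/
lemma sector_up (ε : ℝ) (hε0 : 0 ≤ ε) (hε : ε ≤ 1 / 10 ^ 8) (P : ℂ)
    (hP : 1 ≤ ‖P‖ ^ 2 ∧ ‖P‖ ^ 2 ≤ 1 + ε) (A : Fin 5 → ℂ)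
    (hA : ∀ i, 1 ≤ ‖A i - P‖ ^ 2 ∧ ‖A i - P‖ ^ 2 ≤ 1 + ε)
    (hAA : ∀ i j, i ≠ j → 1 ≤ ‖A i - A j‖ ^ 2) (hA0 : ∃ i, A i = 0) :
    ∃ i, A i ≠ 0 ∧ ∃ φ : ℝ, π / 3 - 4 / 10 ^ 4 ≤ φ ∧ φ ≤ 2 * π / 3 + 1 / 10 ^ 4 ∧
      A i = P / ‖P‖ * (‖P‖ + (‖A i - P‖ : ℝ) * Complex.exp (φ * Complex.I)) := by
  obtain ⟨i0, h0⟩ := hA0
  obtain ⟨θ, h1, h2, h3⟩ := sector_aux ε hε0 hε P hP A hA hAA i0 h0
  have hc : (0 : ℝ) < π / 3 - 1 / 10 ^ 4 := by linarith [pi_gt_three]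
  have hinj : ∀ k l : Fin 4, k ≠ l → i0.succAbove k ≠ i0.succAbove l := fun k l hkl h =>
    hkl (Fin.succAbove_right_injective h)
  have hex : ∃ k : Fin 4, 4 * (π / 3 - 1 / 10 ^ 4) ≤ θ (i0.succAbove k) := by
    have := four_up (a := θ (i0.succAbove 0)) (b := θ (i0.succAbove 1))
      (d := θ (i0.succAbove 2)) (e := θ (i0.succAbove 3)) hc
      (h2 _ (Fin.succAbove_ne _ _)).1 (h2 _ (Fin.succAbove_ne _ _)).1
      (h2 _ (Fin.succAbove_ne _ _)).1 (h2 _ (Fin.succAbove_ne _ _)).1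
      (h3 _ _ (hinj _ _ (by decide))) (h3 _ _ (hinj _ _ (by decide)))
      (h3 _ _ (hinj _ _ (by decide))) (h3 _ _ (hinj _ _ (by decide)))
      (h3 _ _ (hinj _ _ (by decide))) (h3 _ _ (hinj _ _ (by decide)))
    rcases this with h | h | h | h
    exacts [⟨0, h⟩, ⟨1, h⟩, ⟨2, h⟩, ⟨3, h⟩]
  obtain ⟨k, hk⟩ := hex
  refine ⟨i0.succAbove k, ?_, θ (i0.succAbove k) - π, by linarith,
    by linarith [(h2 _ (Fin.succAbove_ne i0 k)).2], ?_⟩
  · intro h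
    have := hAA _ _ (Fin.succAbove_ne i0 k)
    rw [h, h0] at this
    norm_num at this
  · have e : Complex.exp (((θ (i0.succAbove k) - π : ℝ) : ℂ) * Complex.I)
        = - Complex.exp (θ (i0.succAbove k) * Complex.I) := by
      have : ((θ (i0.succAbove k) - π : ℝ) : ℂ) * Complex.I
          = θ (i0.succAbove k) * Complex.I - π * Complex.I := by push_cast; ring
      rw [this, Complex.exp_antiperiodic.sub_eq]
    rw [e]
    conv_lhs => rw [h1 (i0.succAbove k)]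
    ring

/-- A neighbour of `P` in the sector on the second side. -/
lemma sector_down (ε : ℝ) (hε0 : 0 ≤ ε) (hε : ε ≤ 1 / 10 ^ 8) (P : ℂ)
    (hP : 1 ≤ ‖P‖ ^ 2 ∧ ‖P‖ ^ 2 ≤ 1 + ε) (A : Fin 5 → ℂ)
    (hA : ∀ i, 1 ≤ ‖A i - P‖ ^ 2 ∧ ‖A i - P‖ ^ 2 ≤ 1 + ε)
    (hAA : ∀ i j, i ≠ j → 1 ≤ ‖A i - A j‖ ^ 2) (hA0 : ∃ i, A i = 0) :
    ∃ i, A i ≠ 0 ∧ ∃ φ : ℝ, π / 3 - 4 / 10 ^ 4 ≤ φ ∧ φ ≤ 2 * π / 3 + 1 / 10 ^ 4 ∧
      A i = P / ‖P‖ * (‖P‖ + (‖A i - P‖ : ℝ) * Complex.exp ((-φ : ℝ) * Complex.I)) := by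
  obtain ⟨i0, h0⟩ := hA0
  obtain ⟨θ, h1, h2, h3⟩ := sector_aux ε hε0 hε P hP A hA hAA i0 h0
  have hc : (0 : ℝ) < π / 3 - 1 / 10 ^ 4 := by linarith [pi_gt_three]
  have hinj : ∀ k l : Fin 4, k ≠ l → i0.succAbove k ≠ i0.succAbove l := fun k l hkl h =>
    hkl (Fin.succAbove_right_injective h)
  have hex : ∃ k : Fin 4, θ (i0.succAbove k) ≤ 2 * π - 4 * (π / 3 - 1 / 10 ^ 4) := by
    have := four_down (a := θ (i0.succAbove 0)) (b := θ (i0.succAbove 1))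
      (d := θ (i0.succAbove 2)) (e := θ (i0.succAbove 3)) hc
      (h2 _ (Fin.succAbove_ne _ _)).2 (h2 _ (Fin.succAbove_ne _ _)).2
      (h2 _ (Fin.succAbove_ne _ _)).2 (h2 _ (Fin.succAbove_ne _ _)).2
      (h3 _ _ (hinj _ _ (by decide))) (h3 _ _ (hinj _ _ (by decide)))
      (h3 _ _ (hinj _ _ (by decide))) (h3 _ _ (hinj _ _ (by decide)))
      (h3 _ _ (hinj _ _ (by decide))) (h3 _ _ (hinj _ _ (by decide)))
    rcases this with h | h | h | h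
    exacts [⟨0, h⟩, ⟨1, h⟩, ⟨2, h⟩, ⟨3, h⟩]
  obtain ⟨k, hk⟩ := hex
  refine ⟨i0.succAbove k, ?_, π - θ (i0.succAbove k), by linarith,
    by linarith [(h2 _ (Fin.succAbove_ne i0 k)).1], ?_⟩
  · intro h
    have := hAA _ _ (Fin.succAbove_ne i0 k)
    rw [h, h0] at this
    norm_num at this
  · have e : Complex.exp (((-(π - θ (i0.succAbove k)) : ℝ) : ℂ) * Complex.I)
        = - Complex.exp (θ (i0.succAbove k) * Complex.I) := by
      have : ((-(π - θ (i0.succAbove k)) : ℝ) : ℂ) * Complex.I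
          = θ (i0.succAbove k) * Complex.I - π * Complex.I := by push_cast; ring
      rw [this, Complex.exp_antiperiodic.sub_eq]
    rw [e]
    conv_lhs => rw [h1 (i0.succAbove k)]
    ring

lemma mul_bounds {p q k ε : ℝ} (hp : 1 ≤ p) (hq : 1 ≤ q) (hp2 : p ^ 2 ≤ 1 + ε)
    (hq2 : q ^ 2 ≤ 1 + ε) (hk1 : -1 ≤ k) (hk2 : k ≤ 1) :
    k - ε ≤ p * q * k ∧ p * q * k ≤ k + ε := by
  have h1 : 1 ≤ p * q := by nlinarith
  have h2 : p * q ≤ 1 + ε := by nlinarith [sq_nonneg (p - q)]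
  constructor <;> nlinarith

lemma mul_bounds1 {p k ε : ℝ} (hp : 1 ≤ p) (hp2 : p ^ 2 ≤ 1 + ε) (hk1 : -1 ≤ k) (hk2 : k ≤ 1) :
    k - ε ≤ p * k ∧ p * k ≤ k + ε := by
  have h2 : p ≤ 1 + ε := by nlinarith
  constructor <;> nlinarith

lemma phi_bound {y r z t φ ε : ℝ} (hε0 : 0 ≤ ε) (hε : ε ≤ 1 / 10 ^ 8) (hy : 1 ≤ y) (hr : 1 ≤ r)
    (hz : 1 ≤ z) (hy2 : y ^ 2 ≤ 1 + ε) (hr2 : r ^ 2 ≤ 1 + ε) (hz2 : z ^ 2 ≤ 1 + ε)
    (ht1 : π / 3 - 1 / 10 ^ 4 ≤ t) (ht2 : t ≤ π / 2 + 11 / 1000)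
    (hφ2 : φ ≤ 2 * π / 3 + 1 / 10 ^ 4)
    (h : 1 ≤ y ^ 2 + r ^ 2 + z ^ 2 + 2 * (y * r * cos φ) - 2 * (y * z * cos t)
      - 2 * (r * z * cos (t - φ))) : φ ≤ t + 2 / 1000 := by
  by_contra hcon
  push Not at hcon
  have hpi := pi_gt_three
  have hpi2 := pi_lt_d2
  have b1 := (mul_bounds hy hr hy2 hr2 (neg_one_le_cos φ) (cos_le_one φ)).2
  have b2 := (mul_bounds hy hz hy2 hz2 (neg_one_le_cos t) (cos_le_one t)).1
  have b3 := (mul_bounds hr hz hr2 hz2 (neg_one_le_cos (t - φ)) (cos_le_one (t - φ))).1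
  have hF : -(5 * ε) ≤ 1 + cos φ - cos t - cos (t - φ) := by linarith
  have hid : 1 + cos φ - cos t - cos (t - φ)
      = - (4 * sin (t / 2) * cos (φ / 2) * sin (φ / 2 - t / 2)) := by
    have e1 : cos φ = 2 * cos (φ / 2) ^ 2 - 1 := by rw [← cos_two_mul]; ring_nf
    have e2 : cos t = 1 - 2 * sin (t / 2) ^ 2 := by
      have := cos_sq_add_sin_sq (t / 2)
      have h2 : cos t = 2 * cos (t / 2) ^ 2 - 1 := by rw [← cos_two_mul]; ring_nf
      linarith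
    have e3 : cos (t - φ) = cos t * cos φ + sin t * sin φ := cos_sub t φ
    have e4 : sin t = 2 * sin (t / 2) * cos (t / 2) := by rw [← sin_two_mul]; ring_nf
    have e5 : sin φ = 2 * sin (φ / 2) * cos (φ / 2) := by rw [← sin_two_mul]; ring_nf
    rw [e3, e4, e5, e1, e2, sin_sub]
    ring
  have s1 : (3 / 10 : ℝ) ≤ sin (t / 2) := by
    have h1 : 2 / π * (t / 2) ≤ sin (t / 2) := mul_le_sin (by linarith) (by linarith)
    have h2 : (3 / 10 : ℝ) ≤ 2 / π * (t / 2) := by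
      rw [div_mul_div_comm, le_div_iff₀ (by positivity)]
      nlinarith
    linarith
  have s2 : (3 / 10 : ℝ) ≤ cos (φ / 2) := by
    have h1 : 1 - 2 / π * (φ / 2) ≤ cos (φ / 2) := one_sub_mul_le_cos (by linarith) (by linarith)
    have h2 : 2 / π * (φ / 2) ≤ 7 / 10 := by
      rw [div_mul_div_comm, div_le_iff₀ (by positivity)]
      nlinarith
    linarith
  have s3 : (9 / 10000 : ℝ) ≤ sin (φ / 2 - t / 2) := by
    have h1 : sin (1 / 1000) ≤ sin (φ / 2 - t / 2) := by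
      apply sin_le_sin_of_le_of_le_pi_div_two <;> linarith
    have h2 : (1 / 1000 : ℝ) - (1 / 1000) ^ 3 / 6 < sin (1 / 1000) :=
      sin_gt_sub_cube (by norm_num)
    norm_num at h2
    linarith
  have s4 : (9 / 100 : ℝ) ≤ sin (t / 2) * cos (φ / 2) := by nlinarith
  have s5 : (81 / 1000000 : ℝ) ≤ sin (t / 2) * cos (φ / 2) * sin (φ / 2 - t / 2) := by nlinarith
  rw [hid] at hF
  nlinarith

lemma trig_bounds {φ : ℝ} (h1 : π / 3 - 4 / 10 ^ 4 ≤ φ) (h2 : φ ≤ π / 2 + 14 / 1000) :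
    -(14 / 1000) ≤ cos φ ∧ cos φ ≤ 501 / 1000 ∧ 865 / 1000 ≤ sin φ ∧ sin φ ≤ 1 := by
  have hpi := pi_gt_three
  have hpi2 := pi_lt_d2
  have c1 : -(14 / 1000) ≤ cos φ := by
    have : cos (π / 2 + 14 / 1000) ≤ cos φ :=
      cos_le_cos_of_nonneg_of_le_pi (by linarith) (by linarith) h2
    rw [add_comm, cos_add_pi_div_two] at this
    have h3 : sin (14 / 1000 : ℝ) ≤ 14 / 1000 := sin_le (by norm_num)
    linarith
  have c2 : cos φ ≤ 501 / 1000 := by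
    have : cos φ ≤ cos (π / 3 - 4 / 10 ^ 4) :=
      cos_le_cos_of_nonneg_of_le_pi (by linarith) (by linarith) h1
    rw [cos_sub, cos_pi_div_three, sin_pi_div_three] at this
    have h3 : sin (4 / 10 ^ 4 : ℝ) ≤ 4 / 10 ^ 4 := sin_le (by norm_num)
    have h4 : 0 ≤ sin (4 / 10 ^ 4 : ℝ) := sin_nonneg_of_nonneg_of_le_pi (by norm_num) (by linarith)
    have h5 := cos_le_one (4 / 10 ^ 4 : ℝ)
    have h6 := sqrt3_lt
    nlinarith
  have c3 : 0 ≤ sin φ := sin_nonneg_of_nonneg_of_le_pi (by linarith) (by linarith)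
  refine ⟨c1, c2, ?_, sin_le_one φ⟩
  have := sin_sq_add_cos_sq φ
  by_contra hcon
  push Not at hcon
  nlinarith

lemma trig_bounds2 {b : ℝ} (h1 : -(π / 6 + 145 / 10000) ≤ b) (h2 : b ≤ π / 6 + 145 / 10000) :
    858 / 1000 ≤ cos b ∧ cos b ≤ 1 ∧ -(513 / 1000) ≤ sin b ∧ sin b ≤ 513 / 1000 := by
  have hpi := pi_gt_three
  have hpi2 := pi_lt_d2
  have key : sin (π / 6 + 145 / 10000) ≤ 513 / 1000 := by
    rw [sin_add, cos_pi_div_six, sin_pi_div_six]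
    have h3 : sin (145 / 10000 : ℝ) ≤ 145 / 10000 := sin_le (by norm_num)
    have h4 : 0 ≤ sin (145 / 10000 : ℝ) := sin_nonneg_of_nonneg_of_le_pi (by norm_num) (by linarith)
    have h5 := cos_le_one (145 / 10000 : ℝ)
    have h6 := sqrt3_lt
    nlinarith
  have s1 : sin b ≤ 513 / 1000 :=
    (sin_le_sin_of_le_of_le_pi_div_two (by linarith) (by linarith) h2).trans key
  have s2 : -(513 / 1000) ≤ sin b := by
    have : sin (-(π / 6 + 145 / 10000)) ≤ sin b :=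
      sin_le_sin_of_le_of_le_pi_div_two (by linarith) (by linarith) h1
    rw [sin_neg] at this
    linarith
  have c0 : 0 ≤ cos b := cos_nonneg_of_mem_Icc ⟨by linarith, by linarith⟩
  refine ⟨?_, cos_le_one b, s2, s1⟩
  have := sin_sq_add_cos_sq b
  by_contra hcon
  push Not at hcon
  nlinarith

lemma final_bound {y r z s t φ ψ ε : ℝ} (hε0 : 0 ≤ ε) (hε : ε ≤ 1 / 10 ^ 8)
    (hy : 1 ≤ y) (hr : 1 ≤ r) (hz : 1 ≤ z) (hs : 1 ≤ s)
    (hy2 : y ^ 2 ≤ 1 + ε) (hr2 : r ^ 2 ≤ 1 + ε) (hz2 : z ^ 2 ≤ 1 + ε) (hs2 : s ^ 2 ≤ 1 + ε)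
    (ht1 : π / 3 - 1 / 10 ^ 4 ≤ t) (ht2 : t ≤ π / 2 + 11 / 1000)
    (hφ1 : π / 3 - 4 / 10 ^ 4 ≤ φ) (hφ2 : φ ≤ t + 2 / 1000)
    (hψ1 : π / 3 - 4 / 10 ^ 4 ≤ ψ) (hψ2 : ψ ≤ t + 2 / 1000) :
    (y + r * cos φ - z * cos t - s * cos (t - ψ)) ^ 2
      + (r * sin φ - z * sin t - s * sin (t - ψ)) ^ 2 < 1 := by
  have hpi := pi_gt_three
  have hpi2 := pi_lt_d2
  obtain ⟨a1, a2, a3, a4⟩ := trig_bounds (φ := φ) hφ1 (by linarith)
  obtain ⟨b1, b2, b3, b4⟩ := trig_bounds (φ := t) (by linarith) (by linarith)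
  obtain ⟨c1, c2, c3, c4⟩ := trig_bounds2 (b := t - ψ) (by linarith) (by linarith)
  have e1 := mul_bounds1 hr hr2 (neg_one_le_cos φ) (cos_le_one φ)
  have e2 := mul_bounds1 hr hr2 (neg_one_le_sin φ) (sin_le_one φ)
  have e3 := mul_bounds1 hz hz2 (neg_one_le_cos t) (cos_le_one t)
  have e4 := mul_bounds1 hz hz2 (neg_one_le_sin t) (sin_le_one t)
  have e5 := mul_bounds1 hs hs2 (neg_one_le_cos (t - ψ)) (cos_le_one (t - ψ))
  have e6 := mul_bounds1 hs hs2 (neg_one_le_sin (t - ψ)) (sin_le_one (t - ψ))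
  have hy3 : y ≤ 1 + ε := by nlinarith
  have r1 : |y + r * cos φ - z * cos t - s * cos (t - ψ)| ≤ 66 / 100 := by
    rw [abs_le]; constructor <;> linarith
  have r2 : |r * sin φ - z * sin t - s * sin (t - ψ)| ≤ 66 / 100 := by
    rw [abs_le]; constructor <;> linarith
  have r3 := sq_le_sq' (abs_le.1 r1).1 (abs_le.1 r1).2
  have r4 := sq_le_sq' (abs_le.1 r2).1 (abs_le.1 r2).2
  linarith

lemma norm_sq_expand (y r z φ t : ℝ) :
    ‖(y : ℂ) + r * Complex.exp (φ * Complex.I) - z * Complex.exp (t * Complex.I)‖ ^ 2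
      = y ^ 2 + r ^ 2 + z ^ 2 + 2 * (y * r * cos φ) - 2 * (y * z * cos t)
      - 2 * (r * z * cos (t - φ)) := by
  rw [← Complex.normSq_eq_norm_sq, Complex.normSq_apply]
  simp only [Complex.sub_re, Complex.sub_im, Complex.add_re, Complex.add_im, Complex.mul_re,
    Complex.mul_im, Complex.exp_ofReal_mul_I_re, Complex.exp_ofReal_mul_I_im, Complex.ofReal_re,
    Complex.ofReal_im]
  rw [cos_sub]
  have h1 := sin_sq_add_cos_sq φ
  have h2 := sin_sq_add_cos_sq t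
  linear_combination r ^ 2 * h1 + z ^ 2 * h2

lemma norm_sq_expand2 (y s z ψ t : ℝ) :
    ‖(z : ℂ) * Complex.exp (t * Complex.I) + s * Complex.exp ((t - ψ : ℝ) * Complex.I) - y‖ ^ 2
      = z ^ 2 + s ^ 2 + y ^ 2 + 2 * (z * s * cos ψ) - 2 * (z * y * cos t)
      - 2 * (s * y * cos (t - ψ)) := by
  rw [← Complex.normSq_eq_norm_sq, Complex.normSq_apply]
  simp only [Complex.sub_re, Complex.sub_im, Complex.add_re, Complex.add_im, Complex.mul_re,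
    Complex.mul_im, Complex.exp_ofReal_mul_I_re, Complex.exp_ofReal_mul_I_im, Complex.ofReal_re,
    Complex.ofReal_im]
  rw [cos_sub, sin_sub]
  have h1 := sin_sq_add_cos_sq ψ
  have h2 := sin_sq_add_cos_sq t
  linear_combination (s ^ 2 * (sin t ^ 2 + cos t ^ 2)) * h1
    + (s ^ 2 + z ^ 2 + 2 * z * s * cos ψ) * h2

lemma norm_sq_expand3 (y r z s φ ψ t : ℝ) :
    ‖(y : ℂ) + r * Complex.exp (φ * Complex.I) -
      (z * Complex.exp (t * Complex.I) + s * Complex.exp ((t - ψ : ℝ) * Complex.I))‖ ^ 2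
      = (y + r * cos φ - z * cos t - s * cos (t - ψ)) ^ 2
      + (r * sin φ - z * sin t - s * sin (t - ψ)) ^ 2 := by
  rw [← Complex.normSq_eq_norm_sq, Complex.normSq_apply]
  simp only [Complex.sub_re, Complex.sub_im, Complex.add_re, Complex.add_im, Complex.mul_re,
    Complex.mul_im, Complex.exp_ofReal_mul_I_re, Complex.exp_ofReal_mul_I_im, Complex.ofReal_re,
    Complex.ofReal_im]
  ring

lemma detect_aux (ε : ℝ) (hε0 : 0 ≤ ε) (hε : ε ≤ 1 / 10 ^ 8) (Y Z : ℂ)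
    (hY : 1 ≤ ‖Y‖ ^ 2 ∧ ‖Y‖ ^ 2 ≤ 1 + ε) (hZ : 1 ≤ ‖Z‖ ^ 2 ∧ ‖Z‖ ^ 2 ≤ 1 + ε)
    (hYZ : 1 ≤ ‖Y - Z‖ ^ 2) (hang : angle Y Z ≤ π / 2 + 1 / 100)
    (A B : Fin 5 → ℂ)
    (hA : ∀ i, 1 ≤ ‖A i - Y‖ ^ 2 ∧ ‖A i - Y‖ ^ 2 ≤ 1 + ε)
    (hB : ∀ i, 1 ≤ ‖B i - Z‖ ^ 2 ∧ ‖B i - Z‖ ^ 2 ≤ 1 + ε)
    (hAA : ∀ i j, i ≠ j → 1 ≤ ‖A i - A j‖ ^ 2)
    (hBB : ∀ i j, i ≠ j → 1 ≤ ‖B i - B j‖ ^ 2)
    (hA0 : ∃ i, A i = 0) (hB0 : ∃ i, B i = 0)
    (hAZ : ∀ i, 1 ≤ ‖A i - Z‖ ^ 2) (hBY : ∀ i, 1 ≤ ‖B i - Y‖ ^ 2)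
    (him : 0 ≤ (Z / Y).im) :
    ∃ i j, A i ≠ 0 ∧ ‖A i - B j‖ ^ 2 < 1 := by
  have hY1 : 1 ≤ ‖Y‖ := one_le_of_sq (norm_nonneg _) hY.1
  have hZ1 : 1 ≤ ‖Z‖ := one_le_of_sq (norm_nonneg _) hZ.1
  have hY0 : Y ≠ 0 := by
    intro h; rw [h, norm_zero] at hY1; linarith
  have hZ0 : Z ≠ 0 := by
    intro h; rw [h, norm_zero] at hZ1; linarith
  have hYn : (‖Y‖ : ℂ) ≠ 0 := by norm_cast; linarith
  have hZn : (‖Z‖ : ℂ) ≠ 0 := by norm_cast; linarith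
  have hU : ‖Y / ‖Y‖‖ = 1 := by
    rw [norm_div, Complex.norm_real, norm_norm, div_self (by linarith)]
  obtain ⟨t, ht⟩ : ∃ t, t = (Z / Y).arg := ⟨_, rfl⟩
  have ht0 : 0 ≤ t := by rw [ht]; exact Complex.arg_nonneg_iff.2 him
  have htπ : t ≤ π / 2 + 11 / 1000 := by
    have : angle Y Z = |t| := by
      rw [InnerProductGeometry.angle_comm, Complex.angle_eq_abs_arg hZ0 hY0, ht]
    rw [this, abs_of_nonneg ht0] at hang
    linarith
  have hZe : Z = Y / ‖Y‖ * (‖Z‖ * Complex.exp (t * Complex.I)) := by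
    have h1 := Complex.norm_mul_exp_arg_mul_I (Z / Y)
    rw [← ht, norm_div] at h1
    have h2 : Complex.exp (t * Complex.I) = Z / Y * (‖Y‖ / ‖Z‖) := by
      rw [← h1]; push_cast; field_simp
    rw [h2]; field_simp
  have hZu : Z / ‖Z‖ = Y / ‖Y‖ * Complex.exp (t * Complex.I) := by
    conv_lhs => rw [hZe]
    rw [norm_mul, hU, one_mul, norm_mul, Complex.norm_exp_ofReal_mul_I, mul_one,
      Complex.norm_real, norm_norm]
    field_simp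
  have ht1 : π / 3 - 1 / 10 ^ 4 ≤ t := by
    have e1 : Y - Z = Y / ‖Y‖ * ((‖Y‖ : ℝ) * Complex.exp ((0 : ℝ) * Complex.I)
        - (‖Z‖ : ℝ) * Complex.exp (t * Complex.I)) := by
      conv_lhs => rw [hZe]
      simp only [Complex.ofReal_zero, zero_mul, Complex.exp_zero, mul_one, mul_sub]
      congr 1
      field_simp
    rw [e1, norm_mul, hU, one_mul, norm_sq_diff, zero_sub, cos_neg] at hYZ
    exact angle_ge hε ht0 (pair_cos hY1 hZ1 hY.2 hZ.2 hYZ hε0)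
  obtain ⟨i, hi0, φ, hφ1, hφ2, hi⟩ := sector_up ε hε0 hε Y hY A hA hAA hA0
  obtain ⟨j, hj0, ψ, hψ1, hψ2, hj⟩ := sector_down ε hε0 hε Z hZ B hB hBB hB0
  have hr1 : 1 ≤ ‖A i - Y‖ := one_le_of_sq (norm_nonneg _) (hA i).1
  have hs1 : 1 ≤ ‖B j - Z‖ := one_le_of_sq (norm_nonneg _) (hB j).1
  obtain ⟨r, hr⟩ : ∃ r, r = ‖A i - Y‖ := ⟨_, rfl⟩
  obtain ⟨s, hs⟩ : ∃ s, s = ‖B j - Z‖ := ⟨_, rfl⟩
  rw [← hr] at hi hr1
  rw [← hs] at hj hs1
  have hr2 : r ^ 2 ≤ 1 + ε := by rw [hr]; exact (hA i).2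
  have hs2 : s ^ 2 ≤ 1 + ε := by rw [hs]; exact (hB j).2
  have hj' : B j = Y / ‖Y‖ * (‖Z‖ * Complex.exp (t * Complex.I)
      + s * Complex.exp ((t - ψ : ℝ) * Complex.I)) := by
    have : Complex.exp ((t - ψ : ℝ) * Complex.I)
        = Complex.exp (t * Complex.I) * Complex.exp ((-ψ : ℝ) * Complex.I) := by
      rw [← Complex.exp_add]; congr 1; push_cast; ring
    rw [hj, hZu, this]
    ring
  have hφ3 : φ ≤ t + 2 / 1000 := by
    have h := hAZ i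
    have e1 : A i - Z = Y / ‖Y‖ * ((‖Y‖ : ℝ) + r * Complex.exp (φ * Complex.I)
        - (‖Z‖ : ℝ) * Complex.exp (t * Complex.I)) := by
      rw [hi]
      conv_lhs => rw [hZe]
      rw [← mul_sub]
    rw [e1, norm_mul, hU, one_mul, norm_sq_expand] at h
    exact phi_bound hε0 hε hY1 hr1 hZ1 hY.2 hr2 hZ.2 ht1 htπ hφ2 h
  have hψ3 : ψ ≤ t + 2 / 1000 := by
    have h := hBY j
    have e1 : B j - Y = Y / ‖Y‖ * ((‖Z‖ : ℝ) * Complex.exp (t * Complex.I)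
      + s * Complex.exp ((t - ψ : ℝ) * Complex.I) - (‖Y‖ : ℝ)) := by
      rw [hj', mul_sub]
      congr 1
      field_simp
    rw [e1, norm_mul, hU, one_mul, norm_sq_expand2] at h
    exact phi_bound hε0 hε hZ1 hs1 hY1 hZ.2 hs2 hY.2 ht1 htπ hψ2 h
  refine ⟨i, j, hi0, ?_⟩
  rw [hi, hj', ← mul_sub, norm_mul, hU, one_mul, norm_sq_expand3]
  exact final_bound hε0 hε hY1 hr1 hZ1 hs1 hY.2 hr2 hZ.2 hs2 ht1 htπ hφ1 hφ3 hψ1 hψ3

end Detect

open Detect ComplexConjugate in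
theorem detect (ε : ℝ) (hε0 : 0 ≤ ε) (hε : ε ≤ 1 / 10 ^ 8) (Y Z : ℂ)
    (hY : 1 ≤ ‖Y‖ ^ 2 ∧ ‖Y‖ ^ 2 ≤ 1 + ε) (hZ : 1 ≤ ‖Z‖ ^ 2 ∧ ‖Z‖ ^ 2 ≤ 1 + ε)
    (hYZ : 1 ≤ ‖Y - Z‖ ^ 2) (hang : angle Y Z ≤ π / 2 + 1 / 100)
    (A B : Fin 5 → ℂ)
    (hA : ∀ i, 1 ≤ ‖A i - Y‖ ^ 2 ∧ ‖A i - Y‖ ^ 2 ≤ 1 + ε)
    (hB : ∀ i, 1 ≤ ‖B i - Z‖ ^ 2 ∧ ‖B i - Z‖ ^ 2 ≤ 1 + ε)
    (hAA : ∀ i j, i ≠ j → 1 ≤ ‖A i - A j‖ ^ 2)
    (hBB : ∀ i j, i ≠ j → 1 ≤ ‖B i - B j‖ ^ 2)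
    (hA0 : ∃ i, A i = 0) (hB0 : ∃ i, B i = 0)
    (hAZ : ∀ i, 1 ≤ ‖A i - Z‖ ^ 2) (hBY : ∀ i, 1 ≤ ‖B i - Y‖ ^ 2) :
    ∃ i j, A i ≠ 0 ∧ ‖A i - B j‖ ^ 2 < 1 := by
  by_cases him : 0 ≤ (Z / Y).im
  · exact detect_aux ε hε0 hε Y Z hY hZ hYZ hang A B hA hB hAA hBB hA0 hB0 hAZ hBY him
  · have hn : ∀ a b : ℂ, ‖conj a - conj b‖ = ‖a - b‖ := fun a b => by
      rw [← map_sub, Complex.norm_conj]
    have hang' : angle (conj Y) (conj Z) ≤ π / 2 + 1 / 100 := by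
      have := Complex.conjLIE.toLinearIsometry.angle_map Y Z
      have h2 : angle (conj Y) (conj Z) = angle Y Z := this
      rw [h2]; exact hang
    obtain ⟨i, j, h1, h2⟩ := detect_aux ε hε0 hε (conj Y) (conj Z)
      (by rwa [Complex.norm_conj]) (by rwa [Complex.norm_conj]) (by rwa [hn]) hang'
      (fun i => conj (A i)) (fun i => conj (B i))
      (fun i => by rw [hn]; exact hA i) (fun i => by rw [hn]; exact hB i)
      (fun i j hij => by rw [hn]; exact hAA i j hij)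
      (fun i j hij => by rw [hn]; exact hBB i j hij)
      (by obtain ⟨i, hi⟩ := hA0; exact ⟨i, by simp [hi]⟩)
      (by obtain ⟨i, hi⟩ := hB0; exact ⟨i, by simp [hi]⟩)
      (fun i => by rw [hn]; exact hAZ i) (fun i => by rw [hn]; exact hBY i)
      (by
        rw [← map_div₀, Complex.conj_im]
        push Not at him
        linarith)
    refine ⟨i, j, ?_, ?_⟩
    · intro h; exact h1 (by simp [h])
    · rwa [hn] at h2

end Pool.Agent.HypPack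
end

section

set_option autoImplicit false

open InnerProductGeometry Real

namespace Pool.Agent.HypPack

lemma cyc_angle {u v : ℂ} (hu : u ≠ 0) (hv : v ≠ 0) :
    angle u v = min |Complex.arg u - Complex.arg v| (2 * π - |Complex.arg u - Complex.arg v|) := by
  have hπ := Real.pi_pos
  have h1 := Complex.neg_pi_lt_arg u
  have h2 := Complex.arg_le_pi u
  have h3 := Complex.neg_pi_lt_arg v
  have h4 := Complex.arg_le_pi v
  rw [Complex.angle_eq_abs_arg hu hv]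
  have key : (Complex.arg (u / v)) = ((Complex.arg u - Complex.arg v : ℝ) : Real.Angle).toReal := by
    rw [← Complex.arg_coe_angle_toReal_eq_arg (u / v), Complex.arg_div_coe_angle hu hv,
      Real.Angle.coe_sub]
  rw [key]
  set d := Complex.arg u - Complex.arg v with hd
  by_cases hc1 : d ≤ -π
  · have : ((d : ℝ) : Real.Angle).toReal = d + 2 * π := by
      rw [Real.Angle.toReal_coe_eq_self_add_two_pi_iff]
      constructor <;> linarith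
    rw [this, abs_of_nonneg (by linarith : (0:ℝ) ≤ d + 2 * π), abs_of_nonpos (by linarith : d ≤ 0)]
    rw [min_eq_right (by linarith)]
    ring
  · by_cases hc2 : d ≤ π
    · have : ((d : ℝ) : Real.Angle).toReal = d := by
        rw [Real.Angle.toReal_coe_eq_self_iff]
        exact ⟨lt_of_not_ge hc1, hc2⟩
      rw [this, min_eq_left]
      have : |d| ≤ π := abs_le.2 ⟨by linarith [lt_of_not_ge hc1], hc2⟩
      linarith
    · have : ((d : ℝ) : Real.Angle).toReal = d - 2 * π := by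
        rw [Real.Angle.toReal_coe_eq_self_sub_two_pi_iff]
        constructor <;> linarith
      rw [this, abs_of_nonpos (by linarith : d - 2 * π ≤ 0), abs_of_nonneg (by linarith : 0 ≤ d)]
      rw [min_eq_right (by linarith)]
      ring

/-- the sorted arguments -/
lemma cyc_sort {n : ℕ} (q : Fin n → ℂ) (c : ℝ) (hq : ∀ i, q i ≠ 0)
    (hsep : ∀ i j, i ≠ j → c ≤ angle (q i) (q j)) :
    ∃ (σ : Equiv.Perm (Fin n)) (b : Fin n → ℝ),
      (∀ i j, i ≤ j → angle (q (σ i)) (q (σ j)) = min (b j - b i) (2 * π - (b j - b i))) ∧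
      (∀ i j, i ≤ j → angle (q (σ j)) (q (σ i)) = min (b j - b i) (2 * π - (b j - b i))) ∧
      (∀ i j, i < j → c ≤ b j - b i) ∧ (∀ i j, i < j → b j - b i ≤ 2 * π - c) := by
  set a : Fin n → ℝ := fun i => Complex.arg (q i) with ha
  set σ := Tuple.sort a with hσ
  have hmono : Monotone (a ∘ σ) := Tuple.monotone_sort a
  have h1 : ∀ i j, i ≤ j →
      angle (q (σ i)) (q (σ j)) = min (a (σ j) - a (σ i)) (2 * π - (a (σ j) - a (σ i))) := by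
    intro i j hij
    have h := hmono hij
    simp only [Function.comp_apply] at h
    rw [cyc_angle (hq _) (hq _)]
    show min |a (σ i) - a (σ j)| (2 * π - |a (σ i) - a (σ j)|) = _
    rw [abs_of_nonpos (by linarith), neg_sub]
  refine ⟨σ, a ∘ σ, h1, ?_, ?_, ?_⟩
  · intro i j hij
    rw [angle_comm]
    exact h1 i j hij
  · intro i j hij
    have h2 := hsep (σ i) (σ j) (fun h => hij.ne (σ.injective h))
    rw [h1 i j hij.le] at h2
    exact h2.trans (min_le_left _ _)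
  · intro i j hij
    have h2 := hsep (σ i) (σ j) (fun h => hij.ne (σ.injective h))
    rw [h1 i j hij.le] at h2
    have := h2.trans (min_le_right _ _)
    simp only [Function.comp_apply]
    linarith

theorem cyc5 (q : Fin 5 → ℂ) (c : ℝ) (hc : π / 4 < c) (hq : ∀ i, q i ≠ 0)
    (hsep : ∀ i j, i ≠ j → c ≤ angle (q i) (q j)) :
    ∃ σ : Equiv.Perm (Fin 5), (∑ i, angle (q (σ i)) (q (σ (i + 1))) = 2 * π) ∧
      ∀ i, 2 * c ≤ angle (q (σ i)) (q (σ (i + 2))) := by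
  have hπ := Real.pi_pos
  obtain ⟨σ, b, h1, h1', h2, h3⟩ := cyc_sort q c hq hsep
  have g01 := h2 0 1 (by decide)
  have g12 := h2 1 2 (by decide)
  have g23 := h2 2 3 (by decide)
  have g34 := h2 3 4 (by decide)
  have g04 := h3 0 4 (by decide)
  have e01 : angle (q (σ 0)) (q (σ 1)) = b 1 - b 0 := by
    rw [h1 0 1 (by decide), min_eq_left (by linarith)]
  have e12 : angle (q (σ 1)) (q (σ 2)) = b 2 - b 1 := by
    rw [h1 1 2 (by decide), min_eq_left (by linarith)]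
  have e23 : angle (q (σ 2)) (q (σ 3)) = b 3 - b 2 := by
    rw [h1 2 3 (by decide), min_eq_left (by linarith)]
  have e34 : angle (q (σ 3)) (q (σ 4)) = b 4 - b 3 := by
    rw [h1 3 4 (by decide), min_eq_left (by linarith)]
  have e40 : angle (q (σ 4)) (q (σ 0)) = 2 * π - (b 4 - b 0) := by
    rw [h1' 0 4 (by decide), min_eq_right (by linarith)]
  refine ⟨σ, ?_, ?_⟩
  · rw [Fin.sum_univ_five]
    show angle (q (σ 0)) (q (σ 1)) + angle (q (σ 1)) (q (σ 2)) + angle (q (σ 2)) (q (σ 3)) +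
      angle (q (σ 3)) (q (σ 4)) + angle (q (σ 4)) (q (σ 0)) = 2 * π
    rw [e01, e12, e23, e34, e40]
    ring
  · intro i
    fin_cases i
    · show 2 * c ≤ angle (q (σ 0)) (q (σ 2))
      rw [h1 0 2 (by decide)]
      exact le_min (by linarith) (by linarith)
    · show 2 * c ≤ angle (q (σ 1)) (q (σ 3))
      rw [h1 1 3 (by decide)]
      exact le_min (by linarith) (by linarith)
    · show 2 * c ≤ angle (q (σ 2)) (q (σ 4))
      rw [h1 2 4 (by decide)]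
      exact le_min (by linarith) (by linarith)
    · show 2 * c ≤ angle (q (σ 3)) (q (σ 0))
      rw [h1' 0 3 (by decide)]
      exact le_min (by linarith) (by linarith)
    · show 2 * c ≤ angle (q (σ 4)) (q (σ 1))
      rw [h1' 1 4 (by decide)]
      exact le_min (by linarith) (by linarith)

theorem cyc6 (q : Fin 6 → ℂ) (c : ℝ) (hc : π / 5 < c) (hq : ∀ i, q i ≠ 0)
    (hsep : ∀ i j, i ≠ j → c ≤ angle (q i) (q j)) :
    ∃ σ : Equiv.Perm (Fin 6), (∑ i, angle (q (σ i)) (q (σ (i + 1))) = 2 * π) ∧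
      (∀ i, 2 * c ≤ angle (q (σ i)) (q (σ (i + 2)))) ∧
      (∀ i, 2 * c ≤ angle (q (σ i)) (q (σ (i + 3)))) := by
  have hπ := Real.pi_pos
  obtain ⟨σ, b, h1, h1', h2, h3⟩ := cyc_sort q c hq hsep
  have g01 := h2 0 1 (by decide)
  have g12 := h2 1 2 (by decide)
  have g23 := h2 2 3 (by decide)
  have g34 := h2 3 4 (by decide)
  have g45 := h2 4 5 (by decide)
  have g05 := h3 0 5 (by decide)
  have e01 : angle (q (σ 0)) (q (σ 1)) = b 1 - b 0 := by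
    rw [h1 0 1 (by decide), min_eq_left (by linarith)]
  have e12 : angle (q (σ 1)) (q (σ 2)) = b 2 - b 1 := by
    rw [h1 1 2 (by decide), min_eq_left (by linarith)]
  have e23 : angle (q (σ 2)) (q (σ 3)) = b 3 - b 2 := by
    rw [h1 2 3 (by decide), min_eq_left (by linarith)]
  have e34 : angle (q (σ 3)) (q (σ 4)) = b 4 - b 3 := by
    rw [h1 3 4 (by decide), min_eq_left (by linarith)]
  have e45 : angle (q (σ 4)) (q (σ 5)) = b 5 - b 4 := by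
    rw [h1 4 5 (by decide), min_eq_left (by linarith)]
  have e50 : angle (q (σ 5)) (q (σ 0)) = 2 * π - (b 5 - b 0) := by
    rw [h1' 0 5 (by decide), min_eq_right (by linarith)]
  refine ⟨σ, ?_, ?_, ?_⟩
  · rw [Fin.sum_univ_six]
    show angle (q (σ 0)) (q (σ 1)) + angle (q (σ 1)) (q (σ 2)) + angle (q (σ 2)) (q (σ 3)) +
      angle (q (σ 3)) (q (σ 4)) + angle (q (σ 4)) (q (σ 5)) + angle (q (σ 5)) (q (σ 0)) = 2 * π
    rw [e01, e12, e23, e34, e45, e50]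
    ring
  · intro i
    fin_cases i
    · show 2 * c ≤ angle (q (σ 0)) (q (σ 2))
      rw [h1 0 2 (by decide)]
      exact le_min (by linarith) (by linarith)
    · show 2 * c ≤ angle (q (σ 1)) (q (σ 3))
      rw [h1 1 3 (by decide)]
      exact le_min (by linarith) (by linarith)
    · show 2 * c ≤ angle (q (σ 2)) (q (σ 4))
      rw [h1 2 4 (by decide)]
      exact le_min (by linarith) (by linarith)
    · show 2 * c ≤ angle (q (σ 3)) (q (σ 5))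
      rw [h1 3 5 (by decide)]
      exact le_min (by linarith) (by linarith)
    · show 2 * c ≤ angle (q (σ 4)) (q (σ 0))
      rw [h1' 0 4 (by decide)]
      exact le_min (by linarith) (by linarith)
    · show 2 * c ≤ angle (q (σ 5)) (q (σ 1))
      rw [h1' 1 5 (by decide)]
      exact le_min (by linarith) (by linarith)
  · intro i
    fin_cases i
    · show 2 * c ≤ angle (q (σ 0)) (q (σ 3))
      rw [h1 0 3 (by decide)]
      exact le_min (by linarith) (by linarith)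
    · show 2 * c ≤ angle (q (σ 1)) (q (σ 4))
      rw [h1 1 4 (by decide)]
      exact le_min (by linarith) (by linarith)
    · show 2 * c ≤ angle (q (σ 2)) (q (σ 5))
      rw [h1 2 5 (by decide)]
      exact le_min (by linarith) (by linarith)
    · show 2 * c ≤ angle (q (σ 3)) (q (σ 0))
      rw [h1' 0 3 (by decide)]
      exact le_min (by linarith) (by linarith)
    · show 2 * c ≤ angle (q (σ 4)) (q (σ 1))
      rw [h1' 1 4 (by decide)]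
      exact le_min (by linarith) (by linarith)
    · show 2 * c ≤ angle (q (σ 5)) (q (σ 2))
      rw [h1' 2 5 (by decide)]
      exact le_min (by linarith) (by linarith)

theorem no7 (q : Fin 7 → ℂ) (c : ℝ) (hc : 2 * π < 7 * c) (hq : ∀ i, q i ≠ 0)
    (hsep : ∀ i j, i ≠ j → c ≤ angle (q i) (q j)) : False := by
  have hπ := Real.pi_pos
  obtain ⟨σ, b, h1, h1', h2, h3⟩ := cyc_sort q c hq hsep
  have g01 := h2 0 1 (by decide)
  have g12 := h2 1 2 (by decide)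
  have g23 := h2 2 3 (by decide)
  have g34 := h2 3 4 (by decide)
  have g45 := h2 4 5 (by decide)
  have g56 := h2 5 6 (by decide)
  have g06 := h3 0 6 (by decide)
  linarith

end Pool.Agent.HypPack
end
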