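import Pool.Agent.Lib.MP_11f292_co.Mg.G001
import Pool.Agent.Lib.MP_11f292_co.Mg.G003
import Pool.Agent.Lib.MP_11f292_co.Mg.G002

section

set_option autoImplicit false

open scoped Real UpperHalfPlane
open InnerProductGeometry

namespace Pool.Agent.HypPack

variable {S : Finset ℍ} {h κ : ℝ}

theorem Hyp.kpos (H : Hyp S h κ) : 0 < κ := by
  have := H.hpos; have := H.hk; linarith

theorem Hyp.ksmall (H : Hyp S h κ) : κ ≤ 1 / 10 ^ 6 := by
  have h1 := H.kle
  have h2 : (1 : ℝ) / 10 ^ 30 ≤ 1 / 10 ^ 6 := by norm_num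
  linarith

theorem Near.symm' {x y : ℍ} (hxy : Near S h κ x y) : Near S h κ y x :=
  ⟨hxy.2.1, hxy.1, hxy.2.2.1.symm, by rw [R_comm]; exact hxy.2.2.2⟩

theorem near_comm {x y : ℍ} : Near S h κ x y ↔ Near S h κ y x := ⟨Near.symm', Near.symm'⟩

theorem Cont.symm' {x y : ℍ} (hxy : Cont S h x y) : Cont S h y x :=
  ⟨hxy.2.1, hxy.1, hxy.2.2.1.symm, by rw [R_comm]; exact hxy.2.2.2⟩

theorem Cont.near (H : Hyp S h κ) {x y : ℍ} (hxy : Cont S h x y) : Near S h κ x y :=
  ⟨hxy.1, hxy.2.1, hxy.2.2.1, by rw [hxy.2.2.2]; linarith [H.kpos]⟩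

theorem Near.one_le (H : Hyp S h κ) {x y : ℍ} (hxy : Near S h κ x y) : 1 ≤ R h x y :=
  H.sep x hxy.1 y hxy.2.1 hxy.2.2.1

/-- crude triangle inequality for `R` -/
theorem R_tri {h : ℝ} (hh : 0 < h) (x y z : ℍ) :
    R h x z ≤ 2 * R h x y + 2 * R h y z + h * (R h x y ^ 2 + R h y z ^ 2) := by
  have c := chart hh y x z
  have n1 := norm_P_sq hh y x
  have n2 := norm_P_sq hh y z
  have par := parallelogram_law_with_norm ℝ (P h y x) (P h y z)
  have h1 : ‖P h y x - P h y z‖ ^ 2 ≤ 2 * ‖P h y x‖ ^ 2 + 2 * ‖P h y z‖ ^ 2 := by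
    nlinarith [norm_nonneg (P h y x + P h y z)]
  rw [n1, n2, c, R_comm h y x] at h1
  have h2 : 0 ≤ h / 2 * (R h x y - R h y z) ^ 2 := by positivity
  nlinarith

theorem P_near (H : Hyp S h κ) {x y : ℍ} (hxy : Near S h κ x y) :
    1 ≤ ‖P h x y‖ ^ 2 ∧ ‖P h x y‖ ^ 2 ≤ 1 + 2 * κ := by
  have h1 := hxy.one_le H
  have h2 := hxy.2.2.2
  have h3 := H.ksmall
  have hh := H.hpos
  have h4 := H.hk
  rw [norm_P_sq hh]
  have h5 : R h x y ^ 2 ≤ 4 := by nlinarith
  have h6 : h / 2 * R h x y ^ 2 ≤ h / 2 * 4 := mul_le_mul_of_nonneg_left h5 (by linarith)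
  constructor
  · have : 0 ≤ h / 2 * R h x y ^ 2 := by positivity
    linarith
  · linarith

theorem P_sep (H : Hyp S h κ) (x : ℍ) {y z : ℍ} (hy : y ∈ S) (hz : z ∈ S) (hne : y ≠ z) :
    1 ≤ ‖P h x y - P h x z‖ ^ 2 := by
  have h1 := H.sep y hy z hz hne
  have hh := H.hpos
  rw [chart hh]
  have : 0 ≤ h / 2 * (R h x y - R h x z) ^ 2 := by positivity
  linarith

theorem P_dist_le (H : Hyp S h κ) {x y z : ℍ} {c : ℝ} (hy : R h x y ≤ 100) (hz : R h x z ≤ 100)
    (hyz : R h y z ≤ 1 + c) :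
    ‖P h x y - P h x z‖ ^ 2 ≤ 1 + c + κ := by
  have hh := H.hpos
  have hk := H.hk
  rw [chart hh]
  have h1 := R_nonneg hh x y
  have h2 := R_nonneg hh x z
  have h3 : (R h x y - R h x z) ^ 2 ≤ 100 ^ 2 := sq_le_sq' (by linarith) (by linarith)
  have h4 : h / 2 * (R h x y - R h x z) ^ 2 ≤ h / 2 * 100 ^ 2 :=
    mul_le_mul_of_nonneg_left h3 (by linarith)
  linarith

theorem R_le_norm {h : ℝ} (hh : 0 < h) (x y : ℍ) : R h x y ≤ ‖P h x y‖ ^ 2 := by
  rw [norm_P_sq hh]
  have : 0 ≤ h / 2 * R h x y ^ 2 := by positivity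
  linarith

theorem R_le_dist {h : ℝ} (hh : 0 < h) (x y z : ℍ) : R h y z ≤ ‖P h x y - P h x z‖ ^ 2 := by
  rw [chart hh]
  have : 0 ≤ h / 2 * (R h x y - R h x z) ^ 2 := by positivity
  linarith

theorem Near.le_two (H : Hyp S h κ) {x y : ℍ} (hxy : Near S h κ x y) : R h x y ≤ 2 := by
  have := hxy.2.2.2; have := H.ksmall; linarith

/-- Two near steps. -/
theorem R_two_steps (H : Hyp S h κ) {x y z : ℍ} (hxy : Near S h κ x y) (hyz : Near S h κ y z) :
    R h x z ≤ 9 := by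
  have hh := H.hpos
  have t := R_tri hh x y z
  have h1 := hxy.le_two H
  have h2 := hyz.le_two H
  have h3 := R_nonneg hh x y
  have h4 := R_nonneg hh y z
  have h5 := H.ksmall
  have h6 := H.hk
  have h7 : R h x y ^ 2 + R h y z ^ 2 ≤ 8 := by nlinarith
  have h8 : h * (R h x y ^ 2 + R h y z ^ 2) ≤ h * 8 := mul_le_mul_of_nonneg_left h7 hh.le
  have : h ≤ 1 / 10 := by linarith
  linarith

theorem ang_ge (H : Hyp S h κ) {x y z : ℍ} (hxy : Near S h κ x y) (hxz : Near S h κ x z)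
    (hne : y ≠ z) : π / 3 - 4 * κ ≤ ang h x y z := by
  have a := P_near H hxy
  have b := P_near H hxz
  have c := P_sep H x hxy.2.1 hxz.2.1 hne
  have := angle_ge (ε := 2 * κ) (by linarith [H.kpos]) (by linarith [H.ksmall]) a.1 a.2 b.1 b.2 c
  rw [ang]
  linarith

theorem ang_le (H : Hyp S h κ) {x y z : ℍ} (hxy : Near S h κ x y) (hxz : Near S h κ x z)
    (hyz : Near S h κ y z) : ang h x y z ≤ π / 3 + 4 * κ := by
  have a := P_near H hxy
  have b := P_near H hxz
  have c := P_dist_le H (x := x) (c := κ) (by linarith [hxy.le_two H]) (by linarith [hxz.le_two H])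
    hyz.2.2.2
  have := angle_le (ε := 2 * κ) (by linarith [H.kpos]) (by linarith [H.ksmall]) a.1 b.1
    (by linarith)
  rw [ang]
  linarith

theorem ang_lt (H : Hyp S h κ) {x y z : ℍ} (hxy : Near S h κ x y) (hxz : Near S h κ x z)
    (hyz : Cont S h y z) : ang h x y z < π / 3 :=
  tri_lt H.hpos (hxy.one_le H) (by linarith [hxy.2.2.2, H.ksmall]) (hxz.one_le H)
    (by linarith [hxz.2.2.2, H.ksmall]) hyz.2.2.2

/-- An angle at most `π/3 + δ` forces a short third side. -/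
theorem R_le_of_ang_le (H : Hyp S h κ) {x y z : ℍ} (hxy : Near S h κ x y) (hxz : Near S h κ x z)
    {δ : ℝ} (hδ0 : 0 ≤ δ) (hδ : δ ≤ 1 / 2) (ha : ang h x y z ≤ π / 3 + δ) :
    R h y z ≤ 1 + 4 * κ + 2 * δ := by
  have a := P_near H hxy
  have b := P_near H hxz
  have := dist_le_of_angle_le (ε := 2 * κ) (by linarith [H.kpos]) hδ0 hδ a.1 a.2 b.1 b.2 ha
  have := R_le_dist H.hpos x y z
  linarith

/-- A rhombus corner has angle bounded away from `2π/3`. -/
theorem rh_angle (H : Hyp S h κ) {x y z : ℍ} (hI : ∀ w, ¬ Inter S h κ x w)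
    (hr : RH (Near S h κ) x y z) : ang h x y z < 2 * π / 3 - 8 * κ := by
  obtain ⟨hxy, hxz, hyz, -, w, hwx, hwy, hwz, hxw⟩ := hr
  by_contra hc
  push Not at hc
  have hk := H.kpos
  have hks := H.ksmall
  have a := P_near H hxy
  have b := P_near H hxz
  have d := dist_ge_of_angle_ge (δ := 8 * κ) (by linarith) (by linarith) a.1 b.1 hc
  have hRw : R h x w ≤ 9 := R_two_steps H hxy hwy.symm'
  have e1 := P_dist_le H (x := x) (c := κ) (by linarith : R h x w ≤ 100)
    (by linarith [hxy.le_two H]) hwy.2.2.2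
  have e2 := P_dist_le H (x := x) (c := κ) (by linarith : R h x w ≤ 100)
    (by linarith [hxz.le_two H]) hwz.2.2.2
  have q := quad_le (P h x y) (P h x z) (P h x w)
  have n := R_le_norm H.hpos x w
  have hR : R h x w ≤ 1 + 1000 * κ := by nlinarith [sq_nonneg ‖P h x w - (P h x y + P h x z)‖]
  have hwS := hwy.1
  by_cases h1 : R h x w ≤ 1 + κ
  · exact hxw ⟨hxy.1, hwS, hwx.symm, h1⟩
  · push Not at h1
    exact hI w ⟨hxy.1, hwS, h1, hR⟩

/-- two distinct points have at most two common near neighbours -/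
theorem common_near (H : Hyp S h κ) (y z a b c : ℍ) (hyz : y ≠ z) (hab : a ≠ b) (hac : a ≠ c)
    (hbc : b ≠ c) (hya : Near S h κ y a) (hza : Near S h κ z a) (hyb : Near S h κ y b)
    (hzb : Near S h κ z b) (hyc : Near S h κ y c) (hzc : Near S h κ z c) : False := by
  have hks := H.ksmall
  have hk := H.kpos
  have hR : R h y z ≤ 9 := R_two_steps H hya hza.symm'
  have hZ1 : 1 ≤ ‖P h y z‖ ^ 2 := by
    have := H.sep y hya.1 z hza.1 hyz
    linarith [R_le_norm H.hpos y z]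
  have key : ∀ a, Near S h κ y a → Near S h κ z a →
      (1 ≤ ‖P h y a‖ ^ 2 ∧ ‖P h y a‖ ^ 2 ≤ 1 + 2 * κ) ∧
      (1 ≤ ‖P h y a - P h y z‖ ^ 2 ∧ ‖P h y a - P h y z‖ ^ 2 ≤ 1 + 2 * κ) := by
    intro a h1 h2
    refine ⟨P_near H h1, P_sep H y h1.2.1 h2.1 h2.2.2.1.symm, ?_⟩
    have := P_dist_le H (x := y) (c := κ) (by linarith [h1.le_two H]) (by linarith : R h y z ≤ 100)
      h2.symm'.2.2.2
    linarith
  have ka := key a hya hza
  have kb := key b hyb hzb
  have kc := key c hyc hzc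
  have hZ2 : ‖P h y z‖ ^ 2 ≤ 9 := by
    have h1 : ‖P h y z‖ ≤ ‖P h y a‖ + ‖P h y a - P h y z‖ := by
      have := norm_sub_le (P h y a) (P h y a - P h y z)
      simpa using this
    have h2 := le_of_sq (ε := 2 * κ) (by linarith) (norm_nonneg _) ka.1.2
    have h3 := le_of_sq (ε := 2 * κ) (by linarith) (norm_nonneg _) ka.2.2
    have h4 : ‖P h y z‖ ≤ 3 := by linarith
    nlinarith [norm_nonneg (P h y z)]
  have two : ∀ a b, a ≠ b → Near S h κ y a → Near S h κ z a → Near S h κ y b → Near S h κ z b →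
      crs (P h y a) (P h y z) * crs (P h y b) (P h y z) < 0 := by
    intro a b hne h1 h2 h3 h4
    by_contra hc
    push Not at hc
    have ka := key a h1 h2
    have kb := key b h3 h4
    have := two_circle (ε := 2 * κ) (by linarith) (by linarith) hZ1 hZ2 ka.1.1 ka.1.2 kb.1.1 kb.1.2
      ka.2.1 ka.2.2 kb.2.1 kb.2.2 hc
    have s := P_sep H y h1.2.1 h3.2.1 hne
    linarith
  have t1 := two a b hab hya hza hyb hzb
  have t2 := two a c hac hya hza hyc hzc
  have t3 := two b c hbc hyb hzb hyc hzc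
  generalize crs (P h y a) (P h y z) = p at *
  generalize crs (P h y b) (P h y z) = q at *
  generalize crs (P h y c) (P h y z) = r at *
  have t4 : 0 < (p * q) * (p * r) := mul_pos_of_neg_of_neg t1 t2
  have t5 : (p * q) * (p * r) = p ^ 2 * (q * r) := by ring
  rw [t5] at t4
  have : 0 ≤ p ^ 2 := by positivity
  nlinarith

end Pool.Agent.HypPack
end

section

set_option autoImplicit false

open scoped Real UpperHalfPlane
open InnerProductGeometry

namespace Pool.Agent.HypPack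

variable {S : Finset ℍ} {h κ : ℝ}

theorem P_ne_zero (H : Hyp S h κ) {x y : ℍ} (hxy : Near S h κ x y) : P h x y ≠ 0 := by
  intro h0
  have := (P_near H hxy).1
  rw [h0] at this
  norm_num at this

open Classical in
theorem exists_fin {x : ℍ} {m : ℕ} (hm : m ≤ ndeg S h κ x) :
    ∃ n : Fin m → ℍ, Function.Injective n ∧ (∀ i, Near S h κ x (n i)) ∧
      (m = ndeg S h κ x → ∀ y, Near S h κ x y → ∃ i, n i = y) := by
  obtain ⟨t, ht, htc⟩ := Finset.exists_subset_card_eq hm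
  let e := t.equivFinOfCardEq htc
  refine ⟨fun i => (e.symm i : ℍ), ?_, ?_, ?_⟩
  · intro i j hij
    exact e.symm.injective (Subtype.ext hij)
  · intro i
    have h1 : ((e.symm i : t) : ℍ) ∈ S.filter (Near S h κ x) := ht (e.symm i).2
    exact (Finset.mem_filter.mp h1).2
  · intro hmm y hy
    have h1 : t = S.filter (Near S h κ x) :=
      Finset.eq_of_subset_of_card_le ht (by rw [htc]; exact hmm.symm.le)
    have h2 : y ∈ t := by rw [h1]; exact Finset.mem_filter.mpr ⟨hy.2.1, hy⟩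
    exact ⟨e ⟨y, h2⟩, by simp⟩

theorem ndeg_le_six (H : Hyp S h κ) (x : ℍ) (_hx : x ∈ S) : ndeg S h κ x ≤ 6 := by
  by_contra hc
  push Not at hc
  obtain ⟨n, hinj, hn, -⟩ := exists_fin (S := S) (h := h) (κ := κ) (x := x) (m := 7) hc
  refine no7 (fun i => P h x (n i)) (π / 3 - 4 * κ) ?_ ?_ ?_
  · have := H.ksmall; have := Real.pi_gt_three; linarith
  · intro i; exact P_ne_zero H (hn i)
  · intro i j hij
    exact ang_ge H (hn i) (hn j) (hinj.ne hij)

/-- cyclic enumeration of the five near neighbours -/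
theorem enum5 (H : Hyp S h κ) {x : ℍ} (hx : ndeg S h κ x = 5) :
    ∃ n : Fin 5 → ℍ, Function.Injective n ∧ (∀ y, Near S h κ x y ↔ ∃ i, n i = y) ∧
      (∑ i, ang h x (n i) (n (i + 1)) = 2 * π) ∧
      ∀ i, 2 * (π / 3 - 4 * κ) ≤ ang h x (n i) (n (i + 2)) := by
  obtain ⟨n, hinj, hn, hsurj⟩ := exists_fin (S := S) (h := h) (κ := κ) (x := x) (m := 5) hx.ge
  have hsurj := hsurj hx.symm
  obtain ⟨σ, h1, h2⟩ := cyc5 (fun i => P h x (n i)) (π / 3 - 4 * κ)
    (by have := H.ksmall; have := Real.pi_gt_three; linarith)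
    (fun i => P_ne_zero H (hn i)) (fun i j hij => ang_ge H (hn i) (hn j) (hinj.ne hij))
  refine ⟨fun i => n (σ i), hinj.comp σ.injective, ?_, h1, h2⟩
  intro y
  constructor
  · intro hy
    obtain ⟨i, hi⟩ := hsurj y hy
    exact ⟨σ.symm i, by simp [hi]⟩
  · rintro ⟨i, rfl⟩
    exact hn _

/-- cyclic enumeration of the six near neighbours -/
theorem enum6 (H : Hyp S h κ) {x : ℍ} (hx : ndeg S h κ x = 6) :
    ∃ n : Fin 6 → ℍ, Function.Injective n ∧ (∀ y, Near S h κ x y ↔ ∃ i, n i = y) ∧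
      (∑ i, ang h x (n i) (n (i + 1)) = 2 * π) ∧
      (∀ i, 2 * (π / 3 - 4 * κ) ≤ ang h x (n i) (n (i + 2))) ∧
      (∀ i, 2 * (π / 3 - 4 * κ) ≤ ang h x (n i) (n (i + 3))) := by
  obtain ⟨n, hinj, hn, hsurj⟩ := exists_fin (S := S) (h := h) (κ := κ) (x := x) (m := 6) hx.ge
  have hsurj := hsurj hx.symm
  obtain ⟨σ, h1, h2, h3⟩ := cyc6 (fun i => P h x (n i)) (π / 3 - 4 * κ)
    (by have := H.ksmall; have := Real.pi_gt_three; linarith)
    (fun i => P_ne_zero H (hn i)) (fun i j hij => ang_ge H (hn i) (hn j) (hinj.ne hij))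
  refine ⟨fun i => n (σ i), hinj.comp σ.injective, ?_, h1, h2, h3⟩
  intro y
  constructor
  · intro hy
    obtain ⟨i, hi⟩ := hsurj y hy
    exact ⟨σ.symm i, by simp [hi]⟩
  · rintro ⟨i, rfl⟩
    exact hn _

/-- In the hexagon case consecutive angles are about `π/3`. -/
theorem hex_ang_le (H : Hyp S h κ) {x : ℍ} {n : Fin 6 → ℍ} (hinj : Function.Injective n)
    (hn : ∀ i, Near S h κ x (n i)) (hs : ∑ i, ang h x (n i) (n (i + 1)) = 2 * π) (i : Fin 6) :
    ang h x (n i) (n (i + 1)) ≤ π / 3 + 20 * κ := by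
  have hne : ∀ i : Fin 6, i ≠ i + 1 := by decide
  have hg : ∀ i, π / 3 - 4 * κ ≤ ang h x (n i) (n (i + 1)) := fun i =>
    ang_ge H (hn i) (hn (i + 1)) (hinj.ne (hne i))
  have h1 : ∑ j ∈ Finset.univ.erase i, (π / 3 - 4 * κ) ≤
      ∑ j ∈ Finset.univ.erase i, ang h x (n j) (n (j + 1)) :=
    Finset.sum_le_sum fun j _ => hg j
  have h2 := Finset.add_sum_erase Finset.univ (fun j => ang h x (n j) (n (j + 1)))
    (Finset.mem_univ i)
  rw [Finset.sum_const, Finset.card_erase_of_mem (Finset.mem_univ i), Finset.card_univ,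
    Fintype.card_fin, nsmul_eq_mul] at h1
  norm_num at h1
  linarith

theorem hex_R_le (H : Hyp S h κ) {x : ℍ} {n : Fin 6 → ℍ} (hinj : Function.Injective n)
    (hn : ∀ i, Near S h κ x (n i)) (hs : ∑ i, ang h x (n i) (n (i + 1)) = 2 * π) (i : Fin 6) :
    R h (n i) (n (i + 1)) ≤ 1 + 1000 * κ := by
  have := R_le_of_ang_le H (hn i) (hn (i + 1)) (δ := 20 * κ) (by linarith [H.kpos])
    (by linarith [H.ksmall]) (hex_ang_le H hinj hn hs i)
  linarith [H.kpos]

/-- If all rims of the hexagon are near then the gap inequality holds. -/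
theorem hex_gap' (H : Hyp S h κ) {x : ℍ} {n : Fin 6 → ℍ} (hinj : Function.Injective n)
    (hn : ∀ i, Near S h κ x (n i)) (hs : ∑ i, ang h x (n i) (n (i + 1)) = 2 * π)
    (hr : ∀ i, Near S h κ (n i) (n (i + 1))) :
    ∑ i, (R h x (n i) - 1) + 2 * h ≤ ∑ i, (R h (n i) (n (i + 1)) - 1) := by
  have hk := H.hk
  have hh := H.hpos
  refine hex_gap hh (by linarith) (by linarith [H.ksmall]) H.kh
    (fun i => (hn i).one_le H) (fun i => (hn i).2.2.2) (fun i => (hr i).one_le H)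
    (fun i => (hr i).2.2.2) (fun i => ?_) hs
  have := hex_ang_le H hinj hn hs i
  linarith [H.ksmall, Real.pi_gt_three]

theorem six_rim (H : Hyp S h κ) (x : ℍ) (hx : ndeg S h κ x = 6) :
    (∃ y z, Rim (Near S h κ) (Cont S h) x y z) ∨
      ∃ y z, Near S h κ x y ∧ Near S h κ x z ∧ Inter S h κ y z := by
  obtain ⟨n, hinj, hn, hs, -, -⟩ := enum6 H hx
  have hn' : ∀ i, Near S h κ x (n i) := fun i => (hn _).mpr ⟨i, rfl⟩
  have hne : ∀ i : Fin 6, i ≠ i + 1 := by decide
  by_cases hr : ∀ i, Near S h κ (n i) (n (i + 1))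
  · left
    by_contra hc
    push Not at hc
    have hcont : ∀ i, R h (n i) (n (i + 1)) - 1 = 0 := by
      intro i
      by_contra h1
      apply hc (n i) (n (i + 1))
      refine ⟨hn' i, hn' (i + 1), hr i, ?_⟩
      intro h2
      exact h1 (by rw [h2.2.2.2]; ring)
    have g := hex_gap' H hinj hn' hs hr
    rw [Finset.sum_congr rfl fun i _ => hcont i, Finset.sum_const_zero] at g
    have : 0 ≤ ∑ i, (R h x (n i) - 1) :=
      Finset.sum_nonneg fun i _ => by linarith [(hn' i).one_le H]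
    linarith [H.hpos]
  · right
    push Not at hr
    obtain ⟨i, hi⟩ := hr
    refine ⟨n i, n (i + 1), hn' i, hn' (i + 1), (hn' i).2.1, (hn' (i + 1)).2.1, ?_,
      hex_R_le H hinj hn' hs i⟩
    by_contra h1
    push Not at h1
    exact hi ⟨(hn' i).2.1, (hn' (i + 1)).2.1, hinj.ne (hne i), h1⟩

end Pool.Agent.HypPack
end

section

set_option autoImplicit false

open scoped Real UpperHalfPlane
open InnerProductGeometry

namespace Pool.Agent.HypPack

variable {S : Finset ℍ} {h κ : ℝ}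

open Classical in
theorem ndeg_of_list {x : ℍ} {l : List ℍ} (hl : l.Nodup)
    (hx : ∀ y, Near S h κ x y ↔ y ∈ l) : ndeg S h κ x = l.length := by
  have : S.filter (Near S h κ x) = l.toFinset := by
    ext y
    rw [Finset.mem_filter, List.mem_toFinset, ← hx y]
    exact ⟨fun h => h.2, fun h => ⟨h.2.1, h⟩⟩
  rw [ndeg, this, List.toFinset_card_of_nodup hl]

theorem ndeg_of_isW {x : ℍ} (hx : IsW (Near S h κ) x) : ndeg S h κ x = 6 := by
  obtain ⟨a, b, c, d, e, f, h1, h2, -, -⟩ := hx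
  have := ndeg_of_list (S := S) (h := h) (κ := κ) (x := x) h2 (by
    intro y; rw [h1 y]; simp)
  simpa using this

theorem ndeg_of_pent {x a b c d e : ℍ} (hx : PentAt (Near S h κ) (ang h) x a b c d e) :
    ndeg S h κ x = 5 := by
  obtain ⟨h1, h2, -, -⟩ := hx
  have := ndeg_of_list (S := S) (h := h) (κ := κ) (x := x) h2 (by
    intro y; rw [h1 y]; simp)
  simpa using this

/-- far apart in angle implies not near -/
theorem not_near_of_ang (H : Hyp S h κ) {x y z : ℍ} (hxy : Near S h κ x y)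
    (hxz : Near S h κ x z) (ha : 2 * (π / 3 - 4 * κ) ≤ ang h x y z) : ¬ Near S h κ y z := by
  intro hyz
  have := ang_le H hxy hxz hyz
  linarith [H.ksmall, Real.pi_gt_three]

theorem W_data (H : Hyp S h κ) {x : ℍ} (hc : CleanN S h κ x) (hx : ndeg S h κ x = 6) :
    ∃ n : Fin 6 → ℍ, Function.Injective n ∧ (∀ y, Near S h κ x y ↔ ∃ i, n i = y) ∧
      (∑ i, ang h x (n i) (n (i + 1)) = 2 * π) ∧
      (∀ i, Near S h κ (n i) (n (i + 1))) ∧
      (∀ i, 2 * (π / 3 - 4 * κ) ≤ ang h x (n i) (n (i + 2))) ∧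
      (∀ i, 2 * (π / 3 - 4 * κ) ≤ ang h x (n i) (n (i + 3))) := by
  obtain ⟨n, hinj, hn, hs, h2, h3⟩ := enum6 H hx
  have hn' : ∀ i, Near S h κ x (n i) := fun i => (hn _).mpr ⟨i, rfl⟩
  have hne : ∀ i : Fin 6, i ≠ i + 1 := by decide
  refine ⟨n, hinj, hn, hs, ?_, h2, h3⟩
  intro i
  by_contra hi
  refine (hc.2 _ (hn' i)).2.2.2 (n (i + 1)) ⟨(hn' i).2.1, (hn' (i + 1)).2.1, ?_,
    hex_R_le H hinj hn' hs i⟩
  by_contra h1
  push Not at h1
  exact hi ⟨(hn' i).2.1, (hn' (i + 1)).2.1, hinj.ne (hne i), h1⟩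

theorem isW_of_clean (H : Hyp S h κ) {x : ℍ} (hc : CleanN S h κ x) (hx : ndeg S h κ x = 6) :
    IsW (Near S h κ) x := by
  obtain ⟨n, hinj, hn, hs, hr, h2, h3⟩ := W_data H hc hx
  have hn' : ∀ i, Near S h κ x (n i) := fun i => (hn _).mpr ⟨i, rfl⟩
  have k2 : ∀ i, ¬ Near S h κ (n i) (n (i + 2)) := fun i => not_near_of_ang H (hn' _) (hn' _) (h2 i)
  have k3 : ∀ i, ¬ Near S h κ (n i) (n (i + 3)) := fun i => not_near_of_ang H (hn' _) (hn' _) (h3 i)
  refine ⟨n 0, n 1, n 2, n 3, n 4, n 5, ?_, ?_, ?_, ?_⟩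
  · intro y
    rw [hn y]
    constructor
    · rintro ⟨i, rfl⟩
      fin_cases i <;> simp
    · rintro (h | h | h | h | h | h)
      · exact ⟨0, h.symm⟩
      · exact ⟨1, h.symm⟩
      · exact ⟨2, h.symm⟩
      · exact ⟨3, h.symm⟩
      · exact ⟨4, h.symm⟩
      · exact ⟨5, h.symm⟩
  · simp [hinj.eq_iff]
  · exact ⟨hr 0, hr 1, hr 2, hr 3, hr 4, hr 5⟩
  · exact ⟨k2 0, k3 0, fun h => k2 4 h.symm', k2 1, k3 1, fun h => k2 5 h.symm', k2 2, k3 2,
      k2 3⟩

open Classical in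
theorem exists_two_apex {y z : ℍ} (ha : 2 ≤ apW S h κ y z) :
    ∃ c d, c ≠ d ∧ (Near S h κ c y ∧ Near S h κ c z ∧ ndeg S h κ c = 6) ∧
      (Near S h κ d y ∧ Near S h κ d z ∧ ndeg S h κ d = 6) := by
  rw [apW] at ha
  obtain ⟨c, hc, d, hd, hne⟩ := Finset.one_lt_card.mp (show 1 < _ from ha)
  exact ⟨c, d, hne, (Finset.mem_filter.mp hc).2, (Finset.mem_filter.mp hd).2⟩

/-- A support rim at `x` forces six neighbours. -/
theorem ndeg_of_rim (H : Hyp S h κ) {x y z : ℍ} (hc : CleanN S h κ x)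
    (hr : Rim (Near S h κ) (Cont S h) x y z) : ndeg S h κ x = 6 := by
  obtain ⟨hxy, hxz, hyz, hnc⟩ := hr
  obtain ⟨c, d, hcd, ⟨c1, c2, c3⟩, ⟨d1, d2, d3⟩⟩ :=
    exists_two_apex ((hc.2 y hxy).2.2.1 z hyz hnc)
  by_contra hx
  have hxc : x ≠ c := fun e => hx (by rw [e]; exact c3)
  have hxd : x ≠ d := fun e => hx (by rw [e]; exact d3)
  exact common_near H y z x c d hyz.2.2.1 hxc hxd hcd hxy.symm' hxz.symm' c1.symm' c2.symm'
    d1.symm' d2.symm'

theorem Rim.swap {x y z : ℍ} (hr : Rim (Near S h κ) (Cont S h) x y z) :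
    Rim (Near S h κ) (Cont S h) x z y :=
  ⟨hr.2.1, hr.1, hr.2.2.1.symm', fun hc => hr.2.2.2 hc.symm'⟩

open Classical in
theorem rim_unique {x y z y' z' : ℍ} (hro : ro S h κ x ≤ 2)
    (hr : Rim (Near S h κ) (Cont S h) x y z) (hr' : Rim (Near S h κ) (Cont S h) x y' z') :
    (y' = y ∧ z' = z) ∨ (y' = z ∧ z' = y) := by
  by_contra hc
  push Not at hc
  have hmem : ∀ {a b : ℍ}, Rim (Near S h κ) (Cont S h) x a b → (a, b) ∈
      (S ×ˢ S).filter (fun p : ℍ × ℍ => Rim (Near S h κ) (Cont S h) x p.1 p.2) := by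
    intro a b hab
    rw [Finset.mem_filter, Finset.mem_product]
    exact ⟨⟨hab.1.2.1, hab.2.1.2.1⟩, hab⟩
  have hyz : y ≠ z := hr.2.2.1.2.2.1
  have h3 : ({(y, z), (z, y), (y', z')} : Finset (ℍ × ℍ)).card = 3 := by
    rw [Finset.card_eq_three]
    refine ⟨(y, z), (z, y), (y', z'), ?_, ?_, ?_, rfl⟩
    · intro e; exact hyz (congrArg Prod.fst e)
    · intro e
      exact hc.1 (congrArg Prod.fst e).symm (congrArg Prod.snd e).symm
    · intro e
      exact hc.2 (congrArg Prod.fst e).symm (congrArg Prod.snd e).symm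
  have hsub : ({(y, z), (z, y), (y', z')} : Finset (ℍ × ℍ)) ⊆
      (S ×ˢ S).filter (fun p : ℍ × ℍ => Rim (Near S h κ) (Cont S h) x p.1 p.2) := by
    intro p hp
    simp only [Finset.mem_insert, Finset.mem_singleton] at hp
    rcases hp with rfl | rfl | rfl
    · exact hmem hr
    · exact hmem hr.swap
    · exact hmem hr'
  have := Finset.card_le_card hsub
  rw [h3] at this
  rw [ro] at hro
  omega

theorem rim_gap (H : Hyp S h κ) {x y z u : ℍ} (hc : CleanN S h κ x)
    (hr : Rim (Near S h κ) (Cont S h) x y z) (hu : Near S h κ x u) :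
    R h x u < R h y z := by
  have hx := ndeg_of_rim H hc hr
  have hro := hc.1.2.1 hx
  obtain ⟨n, hinj, hn, hs, hrim, -, -⟩ := W_data H hc hx
  have hn' : ∀ i, Near S h κ x (n i) := fun i => (hn _).mpr ⟨i, rfl⟩
  have g := hex_gap' H hinj hn' hs hrim
  have hrimi : ∀ i, R h (n i) (n (i + 1)) - 1 ≠ 0 →
      Rim (Near S h κ) (Cont S h) x (n i) (n (i + 1)) := by
    intro i hi
    exact ⟨hn' i, hn' (i + 1), hrim i, fun h2 => hi (by rw [h2.2.2.2]; ring)⟩
  have hpos : 0 ≤ ∑ i, (R h x (n i) - 1) :=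
    Finset.sum_nonneg fun i _ => by linarith [(hn' i).one_le H]
  obtain ⟨i0, hi0⟩ : ∃ i, R h (n i) (n (i + 1)) - 1 ≠ 0 := by
    by_contra hall
    push Not at hall
    rw [Finset.sum_congr rfl fun i _ => hall i, Finset.sum_const_zero] at g
    linarith [H.hpos]
  have hzero : ∀ j, j ≠ i0 → R h (n j) (n (j + 1)) - 1 = 0 := by
    intro j hj
    by_contra hne
    have key : ∀ i j : Fin 6, j ≠ i → ¬ (j = i + 1 ∧ j + 1 = i) := by decide
    rcases rim_unique hro (hrimi i0 hi0) (hrimi j hne) with ⟨e1, -⟩ | ⟨e1, e2⟩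
    · exact hj (hinj e1)
    · exact key i0 j hj ⟨hinj e1, hinj e2⟩
  rw [Finset.sum_eq_single i0 (fun j _ hj => hzero j hj) (by simp)] at g
  have heq : R h (n i0) (n (i0 + 1)) = R h y z := by
    rcases rim_unique hro hr (hrimi i0 hi0) with ⟨e1, e2⟩ | ⟨e1, e2⟩
    · rw [e1, e2]
    · rw [e1, e2, R_comm]
  obtain ⟨j, hj⟩ := (hn u).mp hu
  have hju : R h x u - 1 ≤ ∑ i, (R h x (n i) - 1) := by
    rw [← hj]
    exact Finset.single_le_sum (f := fun i => R h x (n i) - 1)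
      (fun i _ => by linarith [(hn' i).one_le H]) (Finset.mem_univ j)
  rw [heq] at g
  linarith [H.hpos]

end Pool.Agent.HypPack
end

section

set_option autoImplicit false

open scoped Real UpperHalfPlane
open InnerProductGeometry

namespace Pool.Agent.HypPack

variable {S : Finset ℍ} {h κ : ℝ}

/-- `n` is a cyclic enumeration of the five near neighbours of `x`. -/
structure Enum5 (S : Finset ℍ) (h κ : ℝ) (x : ℍ) (n : Fin 5 → ℍ) : Prop where
  inj : Function.Injective n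
  mem : ∀ y, Near S h κ x y ↔ ∃ i, n i = y
  sum : ∑ i, ang h x (n i) (n (i + 1)) = 2 * π
  far : ∀ i, 2 * (π / 3 - 4 * κ) ≤ ang h x (n i) (n (i + 2))

theorem Enum5.near {x : ℍ} {n : Fin 5 → ℍ} (E : Enum5 S h κ x n) (i : Fin 5) :
    Near S h κ x (n i) := (E.mem _).mpr ⟨i, rfl⟩

theorem Enum5.shift {x : ℍ} {n : Fin 5 → ℍ} (E : Enum5 S h κ x n) (c : Fin 5) :
    Enum5 S h κ x (fun i => n (i + c)) := by
  refine ⟨?_, ?_, ?_, ?_⟩
  · intro i j hij
    exact add_right_cancel (E.inj hij)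
  · intro y
    rw [E.mem y]
    constructor
    · rintro ⟨i, rfl⟩
      exact ⟨i - c, by simp⟩
    · rintro ⟨i, rfl⟩
      exact ⟨i + c, rfl⟩
  · have := Equiv.sum_comp (Equiv.addRight c) (fun i => ang h x (n i) (n (i + 1)))
    rw [← E.sum, ← this]
    apply Finset.sum_congr rfl
    intro i _
    simp only [Equiv.coe_addRight]
    rw [add_right_comm]
  · intro i
    have := E.far (i + c)
    rw [add_right_comm] at this
    exact this

theorem Enum5.not_near (H : Hyp S h κ) {x : ℍ} {n : Fin 5 → ℍ} (E : Enum5 S h κ x n)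
    (i : Fin 5) : ¬ Near S h κ (n i) (n (i + 2)) :=
  not_near_of_ang H (E.near _) (E.near _) (E.far i)

theorem Enum5.pent (H : Hyp S h κ) {x : ℍ} {n : Fin 5 → ℍ} (E : Enum5 S h κ x n) :
    PentAt (Near S h κ) (ang h) x (n 0) (n 1) (n 2) (n 3) (n 4) := by
  refine ⟨?_, ?_, ?_, ?_⟩
  · intro y
    rw [E.mem y]
    constructor
    · rintro ⟨i, rfl⟩
      fin_cases i <;> simp
    · rintro (h | h | h | h | h)
      · exact ⟨0, h.symm⟩
      · exact ⟨1, h.symm⟩
      · exact ⟨2, h.symm⟩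
      · exact ⟨3, h.symm⟩
      · exact ⟨4, h.symm⟩
  · simp [E.inj.eq_iff]
  · exact ⟨E.not_near H 0, E.not_near H 1, E.not_near H 2, E.not_near H 3, E.not_near H 4⟩
  · have := E.sum
    rw [Fin.sum_univ_five] at this
    exact this

theorem Enum5.pent' (H : Hyp S h κ) {x : ℍ} {n : Fin 5 → ℍ} (E : Enum5 S h κ x n) (c : Fin 5) :
    PentAt (Near S h κ) (ang h) x (n c) (n (c + 1)) (n (c + 2)) (n (c + 3)) (n (c + 4)) := by
  have := (E.shift c).pent H
  simp only [zero_add] at this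
  rwa [add_comm 1 c, add_comm 2 c, add_comm 3 c, add_comm 4 c] at this

/-- Near rims of a vertex with five near neighbours are contacts. -/
theorem cont_of_five (H : Hyp S h κ) {x y z : ℍ} (hc : CleanN S h κ x) (hx : ndeg S h κ x = 5)
    (hxy : Near S h κ x y) (hxz : Near S h κ x z) (hyz : Near S h κ y z) : Cont S h y z := by
  by_contra hn
  have := ndeg_of_rim H hc ⟨hxy, hxz, hyz, hn⟩
  omega

/-- A near neighbour (of a vertex without intermediate pairs) with six near neighbours gives two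
common near neighbours. -/
theorem two_common (H : Hyp S h κ) {x y : ℍ} (hI : ∀ w, ¬ Inter S h κ x w)
    (hxy : Near S h κ x y) (hy : ndeg S h κ y = 6) :
    ∃ c d, c ≠ d ∧ Near S h κ x c ∧ Near S h κ y c ∧ Near S h κ x d ∧ Near S h κ y d := by
  obtain ⟨n, hinj, hn, hs, -, -⟩ := enum6 H hy
  have hn' : ∀ i, Near S h κ y (n i) := fun i => (hn _).mpr ⟨i, rfl⟩
  obtain ⟨j, hj⟩ := (hn x).mp hxy.symm'
  have hne : ∀ i : Fin 6, i ≠ i + 1 := by decide
  have e1 : ∀ i : Fin 6, i - 1 + 1 = i := by decide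
  have e2 : ∀ i : Fin 6, i + 1 ≠ i - 1 := by decide
  have hR : ∀ i, R h (n i) (n (i + 1)) ≤ 1 + 1000 * κ := hex_R_le H hinj hn' hs
  refine ⟨n (j + 1), n (j - 1), hinj.ne (e2 j), ?_, hn' _, ?_, hn' _⟩
  · by_contra hc
    refine hI (n (j + 1)) ⟨hxy.1, (hn' _).2.1, ?_, by rw [← hj]; exact hR j⟩
    by_contra h1
    push Not at h1
    exact hc ⟨hxy.1, (hn' _).2.1, by rw [← hj]; exact hinj.ne (hne j), h1⟩
  · by_contra hc
    have hR' := hR (j - 1)
    rw [e1 j, hj, R_comm] at hR'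
    refine hI (n (j - 1)) ⟨hxy.1, (hn' _).2.1, ?_, hR'⟩
    by_contra h1
    push Not at h1
    refine hc ⟨hxy.1, (hn' _).2.1, ?_, h1⟩
    have := hinj.ne (hne (j - 1))
    rw [e1 j, hj] at this
    exact this.symm

theorem Enum5.near_cases (H : Hyp S h κ) {x : ℍ} {n : Fin 5 → ℍ} (E : Enum5 S h κ x n)
    {i j : Fin 5} (hij : Near S h κ (n i) (n j)) : j = i + 1 ∨ i = j + 1 := by
  have key : ∀ i j : Fin 5, j = i + 1 ∨ i = j + 1 ∨ j = i + 2 ∨ i = j + 2 ∨ i = j := by decide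
  rcases key i j with h1 | h1 | h1 | h1 | h1
  · exact Or.inl h1
  · exact Or.inr h1
  · subst h1; exact absurd hij (E.not_near H i)
  · subst h1; exact absurd hij.symm' (E.not_near H j)
  · subst h1; exact absurd rfl hij.2.2.1

theorem Enum5.rh_cases (H : Hyp S h κ) {x : ℍ} {n : Fin 5 → ℍ} (E : Enum5 S h κ x n)
    (hI : ∀ w, ¬ Inter S h κ x w)
    {i j : Fin 5} (hij : RH (Near S h κ) x (n i) (n j)) : j = i + 1 ∨ i = j + 1 := by
  have key : ∀ i j : Fin 5, j = i + 1 ∨ i = j + 1 ∨ j = i + 2 ∨ i = j + 2 ∨ i = j := by decide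
  have ha := rh_angle H hI hij
  rcases key i j with h1 | h1 | h1 | h1 | h1
  · exact Or.inl h1
  · exact Or.inr h1
  · subst h1
    have := E.far i
    linarith
  · subst h1
    have := E.far j
    rw [ang_comm] at this
    linarith
  · subst h1; exact absurd rfl hij.2.2.1

/-- Across a non-triangular corner the neighbours have exactly five near neighbours. -/
theorem Enum5.five (H : Hyp S h κ) {x : ℍ} {n : Fin 5 → ℍ} (E : Enum5 S h κ x n)
    (hc : CleanN S h κ x) {i : Fin 5} (hi : ¬ Near S h κ (n i) (n (i + 1))) :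
    ndeg S h κ (n i) = 5 ∧ ndeg S h κ (n (i + 1)) = 5 := by
  have c1 := (hc.2 _ (E.near i)).1
  have c2 := (hc.2 _ (E.near (i + 1))).1
  have d1 := ndeg_le_six H (n i) (E.near i).2.1
  have d2 := ndeg_le_six H (n (i + 1)) (E.near (i + 1)).2.1
  have k1 : ∀ i : Fin 5, i + 1 ≠ i := by decide
  constructor
  · by_contra h5
    have h6 : ndeg S h κ (n i) = 6 := by omega
    obtain ⟨c, d, hcd, hxc, hyc, hxd, hyd⟩ := two_common H hc.1.2.2.2 (E.near i) h6
    obtain ⟨j, rfl⟩ := (E.mem c).mp hxc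
    obtain ⟨k, rfl⟩ := (E.mem d).mp hxd
    rcases E.near_cases H hyc with h1 | h1
    · subst h1; exact hi hyc
    rcases E.near_cases H hyd with h2 | h2
    · subst h2; exact hi hyd
    exact hcd (congrArg n (add_right_cancel (h1.symm.trans h2)))
  · by_contra h5
    have h6 : ndeg S h κ (n (i + 1)) = 6 := by omega
    obtain ⟨c, d, hcd, hxc, hyc, hxd, hyd⟩ := two_common H hc.1.2.2.2 (E.near (i + 1)) h6
    obtain ⟨j, rfl⟩ := (E.mem c).mp hxc
    obtain ⟨k, rfl⟩ := (E.mem d).mp hxd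
    rcases E.near_cases H hyc with h1 | h1
    · rcases E.near_cases H hyd with h2 | h2
      · exact hcd (congrArg n (h1.trans h2.symm))
      · have : i = k := add_right_cancel h2
        subst this; exact hi hyd.symm'
    · have : i = j := add_right_cancel h1
      subst this; exact hi hyc.symm'

/-- Rhombus detection. -/
theorem Enum5.detect (H : Hyp S h κ) {x : ℍ} {n : Fin 5 → ℍ} (E : Enum5 S h κ x n)
    (hc : CleanN S h κ x) {i : Fin 5} (hi : ¬ Near S h κ (n i) (n (i + 1)))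
    (ha : ang h x (n i) (n (i + 1)) ≤ π / 2 + 1 / 100) :
    RH (Near S h κ) x (n i) (n (i + 1)) := by
  obtain ⟨f1, f2⟩ := E.five H hc hi
  obtain ⟨a, ainj, amem, -, -⟩ := enum5 H f1
  obtain ⟨b, binj, bmem, -, -⟩ := enum5 H f2
  have hne : ∀ i : Fin 5, i ≠ i + 1 := by decide
  have hn1 : n i ≠ n (i + 1) := E.inj.ne (hne i)
  have h0 := H.hpos
  have hk := H.kpos
  have hks := H.ksmall
  have an : ∀ j, Near S h κ (n i) (a j) := fun j => (amem _).mpr ⟨j, rfl⟩
  have bn : ∀ j, Near S h κ (n (i + 1)) (b j) := fun j => (bmem _).mpr ⟨j, rfl⟩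
  have hA : ∀ j, 1 ≤ ‖P h x (a j) - P h x (n i)‖ ^ 2 ∧
      ‖P h x (a j) - P h x (n i)‖ ^ 2 ≤ 1 + 2 * κ := by
    intro j
    refine ⟨P_sep H x (an j).2.1 (an j).1 (an j).2.2.1.symm, ?_⟩
    have := P_dist_le H (x := x) (c := κ) (by linarith [R_two_steps H (E.near i) (an j)] :
      R h x (a j) ≤ 100) (by linarith [(E.near i).le_two H]) (an j).symm'.2.2.2
    linarith
  have hB : ∀ j, 1 ≤ ‖P h x (b j) - P h x (n (i + 1))‖ ^ 2 ∧
      ‖P h x (b j) - P h x (n (i + 1))‖ ^ 2 ≤ 1 + 2 * κ := by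
    intro j
    refine ⟨P_sep H x (bn j).2.1 (bn j).1 (bn j).2.2.1.symm, ?_⟩
    have := P_dist_le H (x := x) (c := κ) (by linarith [R_two_steps H (E.near (i + 1)) (bn j)] :
      R h x (b j) ≤ 100) (by linarith [(E.near (i + 1)).le_two H]) (bn j).symm'.2.2.2
    linarith
  have hks8 : 2 * κ ≤ 1 / 10 ^ 8 := by
    have := H.kle
    have h2 : (1 : ℝ) / 10 ^ 30 ≤ 1 / 10 ^ 9 := by norm_num
    have h3 : 2 * ((1 : ℝ) / 10 ^ 9) ≤ 1 / 10 ^ 8 := by norm_num
    linarith
  obtain ⟨j, k, hj, hjk⟩ := Pool.Agent.HypPack.detect (2 * κ) (by linarith) hks8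
    (P h x (n i)) (P h x (n (i + 1))) (P_near H (E.near i)) (P_near H (E.near (i + 1)))
    (P_sep H x (E.near i).2.1 (E.near (i + 1)).2.1 hn1) ha
    (fun j => P h x (a j)) (fun j => P h x (b j)) hA hB
    (fun i j hij => P_sep H x (an i).2.1 (an j).2.1 (ainj.ne hij))
    (fun i j hij => P_sep H x (bn i).2.1 (bn j).2.1 (binj.ne hij))
    (by
      obtain ⟨j, hj⟩ := (amem x).mp (E.near i).symm'
      exact ⟨j, by rw [hj, P_self]⟩)
    (by
      obtain ⟨j, hj⟩ := (bmem x).mp (E.near (i + 1)).symm'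
      exact ⟨j, by rw [hj, P_self]⟩)
    (fun j => P_sep H x (an j).2.1 (E.near (i + 1)).2.1 (fun e => hi (by rw [← e]; exact an j)))
    (fun j => P_sep H x (bn j).2.1 (E.near i).2.1
      (fun e => hi (by rw [← e]; exact (bn j).symm')))
  have hw : a j = b k := by
    by_contra hne
    have := P_sep H x (an j).2.1 (bn k).2.1 hne
    linarith
  have hwx : a j ≠ x := by
    intro e; exact hj (by rw [e, P_self])
  refine ⟨E.near i, E.near (i + 1), hn1, hi, a j, hwx, (an j).symm', ?_, ?_⟩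
  · rw [hw]; exact (bn k).symm'
  · intro hxw
    obtain ⟨m, hm⟩ := (E.mem _).mp hxw
    have h1 := an j
    rw [← hm] at h1
    have h2 := bn k
    rw [← hw, ← hm] at h2
    have key : ∀ i m : Fin 5, (m = i + 1 ∨ i = m + 1) → ¬ (m = i + 1 + 1 ∨ i + 1 = m + 1) := by
      decide
    exact key i m (E.near_cases H h1) (E.near_cases H h2)

end Pool.Agent.HypPack
end

section

set_option autoImplicit false

open scoped Real UpperHalfPlane
open InnerProductGeometry

namespace Pool.Agent.HypPack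

variable {S : Finset ℍ} {h κ : ℝ}

theorem Enum5.sum_eq {x : ℍ} {n : Fin 5 → ℍ} (E : Enum5 S h κ x n) (f : ℍ → ℝ)
    (hf : ∀ y, ¬ Near S h κ x y → f y = 0) : ∑ y ∈ S, f y = ∑ i, f (n i) := by
  classical
  have h1 : Finset.univ.image n ⊆ S := by
    intro y hy
    obtain ⟨i, -, rfl⟩ := Finset.mem_image.mp hy
    exact (E.near i).2.1
  rw [← Finset.sum_subset h1, Finset.sum_image (fun i _ j _ hij => E.inj hij)]
  intro y _ hy
  apply hf
  intro hxy
  obtain ⟨i, hi⟩ := (E.mem y).mp hxy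
  exact hy (Finset.mem_image.mpr ⟨i, Finset.mem_univ _, hi⟩)

theorem RH.symm' {x y z : ℍ} (hr : RH (Near S h κ) x y z) : RH (Near S h κ) x z y := by
  obtain ⟨h1, h2, h3, h4, w, h5, h6, h7, h8⟩ := hr
  exact ⟨h2, h1, h3.symm, fun hh => h4 hh.symm', w, h5, h7, h6, h8⟩

open Classical in
/-- the rhombus term at a pair -/
noncomputable def FF (S : Finset ℍ) (h κ : ℝ) (x y z : ℍ) : ℝ :=
  if RH (Near S h κ) x y z then π / 2 - ang h x y z else 0

theorem FF_symm (x y z : ℍ) : FF S h κ x y z = FF S h κ x z y := by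
  unfold FF
  by_cases hr : RH (Near S h κ) x y z
  · rw [if_pos hr, if_pos hr.symm', ang_comm]
  · rw [if_neg hr, if_neg (fun hr' => hr hr'.symm')]

theorem FF_zero {x y z : ℍ} (hr : ¬ RH (Near S h κ) x y z) : FF S h κ x y z = 0 := by
  unfold FF; rw [if_neg hr]

theorem GG_eq_enum {x : ℍ} {n : Fin 5 → ℍ} (E : Enum5 S h κ x n) :
    GG S h κ x = ∑ i, ∑ j, FF S h κ x (n i) (n j) := by
  have h1 : GG S h κ x = ∑ y ∈ S, ∑ z ∈ S, FF S h κ x y z := rfl
  rw [h1, E.sum_eq (fun y => ∑ z ∈ S, FF S h κ x y z)]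
  · apply Finset.sum_congr rfl
    intro i _
    rw [E.sum_eq (fun z => FF S h κ x (n i) z)]
    intro z hz
    exact FF_zero (fun hr => hz hr.2.1)
  · intro y hy
    apply Finset.sum_eq_zero
    intro z _
    exact FF_zero (fun hr => hy hr.1)

theorem GG_eq_sum (H : Hyp S h κ) {x : ℍ} {n : Fin 5 → ℍ} (E : Enum5 S h κ x n)
    (hI : ∀ w, ¬ Inter S h κ x w) :
    GG S h κ x = 2 * ∑ i, FF S h κ x (n i) (n (i + 1)) := by
  rw [GG_eq_enum E]
  have h1 : ∀ i : Fin 5, ∑ j, FF S h κ x (n i) (n j) =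
      FF S h κ x (n i) (n (i + 1)) + FF S h κ x (n (i + 4)) (n (i + 4 + 1)) := by
    intro i
    rw [← Equiv.sum_comp (Equiv.addRight i) (fun j => FF S h κ x (n i) (n j)),
      Fin.sum_univ_five]
    simp only [Equiv.coe_addRight]
    have k0 : ∀ i : Fin 5, ¬ (0 + i = i + 1 ∨ i = 0 + i + 1) := by decide
    have k2 : ∀ i : Fin 5, ¬ (2 + i = i + 1 ∨ i = 2 + i + 1) := by decide
    have k3 : ∀ i : Fin 5, ¬ (3 + i = i + 1 ∨ i = 3 + i + 1) := by decide
    have k4 : ∀ i : Fin 5, i + 4 + 1 = i := by decide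
    rw [FF_zero (fun hr => k0 i (E.rh_cases H hI hr)),
      FF_zero (fun hr => k2 i (E.rh_cases H hI hr)),
      FF_zero (fun hr => k3 i (E.rh_cases H hI hr)), k4 i, FF_symm x (n i) (n (4 + i)),
      add_comm 1 i, add_comm 4 i]
    ring
  rw [Finset.sum_congr rfl fun i _ => h1 i, Finset.sum_add_distrib]
  have h2 := Equiv.sum_comp (Equiv.addRight (4 : Fin 5))
    (fun i => FF S h κ x (n i) (n (i + 1)))
  simp only [Equiv.coe_addRight] at h2
  rw [h2]
  ring

/-- `GG` vanishes at a clean vertex with six neighbours. -/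
theorem GG_six (H : Hyp S h κ) {x : ℍ} (hc : CleanN S h κ x) (hx : ndeg S h κ x = 6) :
    GG S h κ x = 0 := by
  obtain ⟨n, hinj, hn, hs, hr, h2, h3⟩ := W_data H hc hx
  have h1 : GG S h κ x = ∑ y ∈ S, ∑ z ∈ S, FF S h κ x y z := rfl
  rw [h1]
  apply Finset.sum_eq_zero
  intro y _
  apply Finset.sum_eq_zero
  intro z _
  apply FF_zero
  intro hrh
  have ha := rh_angle H hc.1.2.2.2 hrh
  obtain ⟨i, rfl⟩ := (hn y).mp hrh.1
  obtain ⟨j, rfl⟩ := (hn z).mp hrh.2.1
  have key : ∀ i j : Fin 6, j = i ∨ j = i + 1 ∨ i = j + 1 ∨ j = i + 2 ∨ i = j + 2 ∨ j = i + 3 := by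
    decide
  rcases key i j with h | h | h | h | h | h
  · subst h; exact hrh.2.2.1 rfl
  · subst h; exact hrh.2.2.2.1 (hr i)
  · subst h; exact hrh.2.2.2.1 (hr j).symm'
  · subst h; linarith [h2 i]
  · subst h
    rw [ang_comm] at ha
    linarith [h2 j]
  · subst h; linarith [h3 i]

/-- The basic lower bound at a vertex with five near neighbours. -/
theorem sum_lower (H : Hyp S h κ) {x : ℍ} {n : Fin 5 → ℍ} (E : Enum5 S h κ x n)
    (hc : CleanN S h κ x) (T O : Finset (Fin 5))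
    (hT : ∀ i, i ∈ T ↔ Near S h κ (n i) (n (i + 1)))
    (hO : ∀ i, i ∈ O → ¬ Near S h κ (n i) (n (i + 1)) ∧ ¬ RH (Near S h κ) x (n i) (n (i + 1))) :
    π / 2 - (T.card : ℝ) * (π / 6 + 4 * κ) + (O.card : ℝ) / 100 ≤
      ∑ i, FF S h κ x (n i) (n (i + 1)) := by
  classical
  have hne : ∀ i : Fin 5, i ≠ i + 1 := by decide
  have key : ∀ i, (π / 2 - (if i ∈ T then (π / 6 + 4 * κ) else 0) +
      (if i ∈ O then (1 / 100 : ℝ) else 0)) - ang h x (n i) (n (i + 1)) ≤
      FF S h κ x (n i) (n (i + 1)) := by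
    intro i
    by_cases hiT : i ∈ T
    · have hnear := (hT i).mp hiT
      have hiO : i ∉ O := fun ho => (hO i ho).1 hnear
      rw [if_pos hiT, if_neg hiO, FF_zero (fun hr => hr.2.2.2.1 hnear)]
      have := ang_ge H (E.near i) (E.near (i + 1)) (E.inj.ne (hne i))
      linarith
    · rw [if_neg hiT]
      have hnn : ¬ Near S h κ (n i) (n (i + 1)) := fun hh => hiT ((hT i).mpr hh)
      by_cases hiO : i ∈ O
      · rw [if_pos hiO, FF_zero (hO i hiO).2]
        by_contra hcon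
        push Not at hcon
        exact (hO i hiO).2 (E.detect H hc hnn (by linarith))
      · rw [if_neg hiO]
        by_cases hr : RH (Near S h κ) x (n i) (n (i + 1))
        · unfold FF; rw [if_pos hr]; linarith
        · rw [FF_zero hr]
          by_contra hcon
          push Not at hcon
          exact hr (E.detect H hc hnn (by linarith))
  have hsum := Finset.sum_le_sum (s := Finset.univ) fun i _ => key i
  rw [Finset.sum_sub_distrib, E.sum, Finset.sum_add_distrib, Finset.sum_sub_distrib] at hsum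
  simp only [Finset.sum_const, Finset.card_univ, Fintype.card_fin, Finset.sum_ite_mem,
    Finset.univ_inter, nsmul_eq_mul] at hsum
  push_cast at hsum
  linarith

/-- Fewer than five triangular corners. -/
theorem card_T_lt (H : Hyp S h κ) {x : ℍ} {n : Fin 5 → ℍ} (E : Enum5 S h κ x n)
    (hc : CleanN S h κ x) (hx : ndeg S h κ x = 5) :
    ∃ i, ¬ Near S h κ (n i) (n (i + 1)) := by
  by_contra hall
  push Not at hall
  have h1 : ∀ i, ang h x (n i) (n (i + 1)) ≤ π / 3 := fun i =>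
    (ang_lt H (E.near i) (E.near (i + 1))
      (cont_of_five H hc hx (E.near i) (E.near (i + 1)) (hall i))).le
  have h2 := Finset.sum_le_sum (s := Finset.univ) fun i _ => h1 i
  rw [E.sum] at h2
  simp only [Finset.sum_const, Finset.card_univ, Fintype.card_fin, nsmul_eq_mul] at h2
  push_cast at h2
  linarith [Real.pi_pos]

/-- A corner that is the only non-triangular one has angle at least `2π/3`, so it is not a rhombus
corner. -/
theorem single_corner (H : Hyp S h κ) {x : ℍ} {n : Fin 5 → ℍ} (E : Enum5 S h κ x n)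
    (hc : CleanN S h κ x) (hx : ndeg S h κ x = 5)
    (h0 : Near S h κ (n 0) (n 1)) (h1 : Near S h κ (n 1) (n 2)) (h2 : Near S h κ (n 2) (n 3))
    (h3 : Near S h κ (n 3) (n 4)) : ¬ RH (Near S h κ) x (n 4) (n 0) := by
  intro hr
  have ha := rh_angle H hc.1.2.2.2 hr
  have g : ∀ i j, Near S h κ (n i) (n j) → ang h x (n i) (n j) < π / 3 := fun i j hij =>
    ang_lt H (E.near i) (E.near j) (cont_of_five H hc hx (E.near i) (E.near j) hij)
  have s := E.sum
  rw [Fin.sum_univ_five] at s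
  have e0 : (0 : Fin 5) + 1 = 1 := rfl
  have e1 : (1 : Fin 5) + 1 = 2 := rfl
  have e2 : (2 : Fin 5) + 1 = 3 := rfl
  have e3 : (3 : Fin 5) + 1 = 4 := rfl
  have e4 : (4 : Fin 5) + 1 = 0 := rfl
  rw [e0, e1, e2, e3, e4] at s
  linarith [g 0 1 h0, g 1 2 h1, g 2 3 h2, g 3 4 h3, H.kpos]

theorem types_five (H : Hyp S h κ) {x : ℍ} (hc : CleanN S h κ x) (hx : ndeg S h κ x = 5) :
    -(1 / 10 ^ 25) ≤ GG S h κ x ∧ (GG S h κ x < 1 / 100 →
      (∃ p m₁ m₂ m₃ q, U1 (Near S h κ) (ang h) x p m₁ m₂ m₃ q) ∨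
      (∃ a b c d e, U2a (Near S h κ) (ang h) x a b c d e) ∨
      (∃ a b c d e, U2b (Near S h κ) (ang h) x a b c d e)) := by
  classical
  obtain ⟨n, hinj, hmem, hsum, hfar⟩ := enum5 H hx
  have E : Enum5 S h κ x n := ⟨hinj, hmem, hsum, hfar⟩
  have hG := GG_eq_sum H E hc.1.2.2.2
  set T : Finset (Fin 5) := Finset.univ.filter (fun i => Near S h κ (n i) (n (i + 1))) with hTdef
  set O : Finset (Fin 5) := Finset.univ.filter (fun i => ¬ Near S h κ (n i) (n (i + 1)) ∧
    ¬ RH (Near S h κ) x (n i) (n (i + 1))) with hOdef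
  have hT : ∀ i, i ∈ T ↔ Near S h κ (n i) (n (i + 1)) := fun i => by simp [hTdef]
  have hO : ∀ i, i ∈ O ↔ (¬ Near S h κ (n i) (n (i + 1)) ∧
    ¬ RH (Near S h κ) x (n i) (n (i + 1))) := fun i => by simp [hOdef]
  have hlow := sum_lower H E hc T O hT (fun i hi => (hO i).mp hi)
  have hk := H.kpos
  have hkl := H.kle
  have hpi := Real.pi_gt_three
  have hk25 : 24 * κ ≤ 1 / 10 ^ 25 := by
    have : (24 : ℝ) * (1 / 10 ^ 30) ≤ 1 / 10 ^ 25 := by norm_num
    linarith
  obtain ⟨i0, hi0⟩ := card_T_lt H E hc hx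
  have hT4 : T.card ≤ 4 := by
    have : T ⊂ Finset.univ := by
      rw [Finset.ssubset_univ_iff]
      intro hall
      exact hi0 ((hT i0).mp (by rw [hall]; exact Finset.mem_univ _))
    have := Finset.card_lt_card this
    rw [Finset.card_univ, Fintype.card_fin] at this
    omega
  by_cases h4 : T.card = 4
  · -- one non-triangular corner
    have hcomp : (Finset.univ \ T).card = 1 := by
      rw [Finset.card_sdiff_of_subset (Finset.subset_univ _), Finset.card_univ, Fintype.card_fin, h4]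
    obtain ⟨j, hj⟩ := Finset.card_eq_one.mp hcomp
    have hnot : ∀ i, ¬ Near S h κ (n i) (n (i + 1)) → i = j := by
      intro i hi
      have : i ∈ Finset.univ \ T := by
        rw [Finset.mem_sdiff]
        exact ⟨Finset.mem_univ _, fun ht => hi ((hT i).mp ht)⟩
      rw [hj] at this
      exact Finset.mem_singleton.mp this
    have hjn : ¬ Near S h κ (n j) (n (j + 1)) := by
      have : j ∈ Finset.univ \ T := by rw [hj]; exact Finset.mem_singleton_self _
      exact fun hh => (Finset.mem_sdiff.mp this).2 ((hT j).mpr hh)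
    have hnear : ∀ i, i ≠ j → Near S h κ (n i) (n (i + 1)) := fun i hi => by
      by_contra hcon; exact hi (hnot i hcon)
    have E' := E.shift (j + 1)
    have s1 : ∀ j : Fin 5, 0 + (j + 1) ≠ j := by decide
    have s2 : ∀ j : Fin 5, 1 + (j + 1) ≠ j := by decide
    have s3 : ∀ j : Fin 5, 2 + (j + 1) ≠ j := by decide
    have s4 : ∀ j : Fin 5, 3 + (j + 1) ≠ j := by decide
    have t1 : ∀ j : Fin 5, 0 + (j + 1) + 1 = 1 + (j + 1) := by decide
    have t2 : ∀ j : Fin 5, 1 + (j + 1) + 1 = 2 + (j + 1) := by decide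
    have t3 : ∀ j : Fin 5, 2 + (j + 1) + 1 = 3 + (j + 1) := by decide
    have t4 : ∀ j : Fin 5, 3 + (j + 1) + 1 = 4 + (j + 1) := by decide
    have n1 := hnear _ (s1 j)
    have n2 := hnear _ (s2 j)
    have n3 := hnear _ (s3 j)
    have n4 := hnear _ (s4 j)
    rw [t1] at n1
    rw [t2] at n2
    rw [t3] at n3
    rw [t4] at n4
    have hnr := single_corner H E' hc hx n1 n2 n3 n4
    have v1 : ∀ j : Fin 5, 4 + (j + 1) = j := by decide
    have v2 : ∀ j : Fin 5, 0 + (j + 1) = j + 1 := by decide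
    have hjr : ¬ RH (Near S h κ) x (n j) (n (j + 1)) := by
      simp only [v1 j, v2 j] at hnr
      exact hnr
    have hzero : GG S h κ x = 0 := by
      rw [hG, Finset.sum_eq_zero, mul_zero]
      intro i _
      apply FF_zero
      by_cases hij : i = j
      · rw [hij]; exact hjr
      · exact fun hr => hr.2.2.2.1 (hnear i hij)
    refine ⟨by rw [hzero]; norm_num, fun _ => Or.inl ?_⟩
    have hp := E'.pent H
    refine ⟨_, _, _, _, _, hp, n1, n2, n3, n4, ?_, ?_⟩
    · simp only [v1 j, v2 j]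
      exact hjn
    · intro w hwp hwq
      by_contra hwx
      by_cases hxw : Near S h κ x w
      · -- `w` in the link
        obtain ⟨i, rfl⟩ := (E'.mem w).mp hxw
        have c1 := E'.near_cases H (i := i) (j := 0) hwp
        have c2 := E'.near_cases H (i := i) (j := 4) hwq
        have key : ∀ i : Fin 5, (0 = i + 1 ∨ i = 0 + 1) → ¬ (4 = i + 1 ∨ i = 4 + 1) := by decide
        exact key i c1 c2
      · apply hnr
        refine ⟨E'.near 4, E'.near 0, E'.inj.ne (by decide), ?_, w, hwx, hwq, hwp, hxw⟩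
        simp only [v1 j, v2 j]
        exact hjn
  · have hT3 : T.card ≤ 3 := by omega
    have hT3' : (T.card : ℝ) ≤ 3 := by exact_mod_cast hT3
    have hOc : (0 : ℝ) ≤ (O.card : ℝ) := by positivity
    have hTc : (T.card : ℝ) * (π / 6 + 4 * κ) ≤ 3 * (π / 6 + 4 * κ) :=
      mul_le_mul_of_nonneg_right hT3' (by positivity)
    refine ⟨by rw [hG]; linarith, fun hGs => Or.inr ?_⟩
    -- exactly three triangular corners
    have hT3e : T.card = 3 := by
      by_contra hne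
      have hT2 : T.card ≤ 2 := by omega
      have hT2' : (T.card : ℝ) ≤ 2 := by exact_mod_cast hT2
      have hTc' : (T.card : ℝ) * (π / 6 + 4 * κ) ≤ 2 * (π / 6 + 4 * κ) :=
        mul_le_mul_of_nonneg_right hT2' (by positivity)
      rw [hG] at hGs
      have hks := H.ksmall
      linarith
    have hO0 : O.card = 0 := by
      by_contra hne
      have : 1 ≤ O.card := Nat.one_le_iff_ne_zero.mpr hne
      have : (1 : ℝ) ≤ (O.card : ℝ) := by exact_mod_cast this
      rw [hG] at hGs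
      rw [hT3e] at hlow
      push_cast at hlow
      have hks := H.ksmall
      linarith
    have hOe : O = ∅ := Finset.card_eq_zero.mp hO0
    have hR : ∀ i, ¬ Near S h κ (n i) (n (i + 1)) → RH (Near S h κ) x (n i) (n (i + 1)) := by
      intro i hi
      by_contra hr
      have : i ∈ O := (hO i).mpr ⟨hi, hr⟩
      rw [hOe] at this
      exact absurd this (Finset.notMem_empty _)
    have hcomp : (Finset.univ \ T).card = 2 := by
      rw [Finset.card_sdiff_of_subset (Finset.subset_univ _), Finset.card_univ, Fintype.card_fin,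
        hT3e]
    obtain ⟨i1, j1, hne1, hij⟩ := Finset.card_eq_two.mp hcomp
    have hnot : ∀ i, ¬ Near S h κ (n i) (n (i + 1)) ↔ (i = i1 ∨ i = j1) := by
      intro i
      have : i ∈ Finset.univ \ T ↔ (i = i1 ∨ i = j1) := by
        rw [hij]; simp
      rw [← this, Finset.mem_sdiff, hT i]
      simp
    have hnear : ∀ i, i ≠ i1 → i ≠ j1 → Near S h κ (n i) (n (i + 1)) := fun i h1 h2 => by
      by_contra hcon
      rcases (hnot i).mp hcon with h | h
      · exact h1 h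
      · exact h2 h
    have hr1 := hR i1 ((hnot i1).mpr (Or.inl rfl))
    have hr2 := hR j1 ((hnot j1).mpr (Or.inr rfl))
    have key : ∀ i j : Fin 5, i ≠ j → (j = i + 1 ∨ i = j + 1) ∨ (j = i + 2 ∨ i = j + 2) := by
      decide
    -- adjacent case
    have adj : ∀ i j : Fin 5, j = i + 1 → (∀ k, k ≠ i → k ≠ j → Near S h κ (n k) (n (k + 1))) →
        RH (Near S h κ) x (n i) (n (i + 1)) → RH (Near S h κ) x (n j) (n (j + 1)) →
        ∃ a b c d e, U2a (Near S h κ) (ang h) x a b c d e := by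
      intro i j hj hk r1 r2
      subst hj
      have hp := E.pent' H (i + 2)
      have a1 : ∀ i : Fin 5, i + 2 ≠ i ∧ i + 2 ≠ i + 1 := by decide
      have a2 : ∀ i : Fin 5, i + 2 + 1 ≠ i ∧ i + 2 + 1 ≠ i + 1 := by decide
      have a3 : ∀ i : Fin 5, i + 2 + 2 ≠ i ∧ i + 2 + 2 ≠ i + 1 := by decide
      have b1 : ∀ i : Fin 5, i + 2 + 1 + 1 = i + 2 + 2 := by decide
      have b2 : ∀ i : Fin 5, i + 2 + 2 + 1 = i + 2 + 3 := by decide
      have b3 : ∀ i : Fin 5, i + 2 + 3 = i := by decide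
      have b4 : ∀ i : Fin 5, i + 2 + 4 = i + 1 := by decide
      have b5 : ∀ i : Fin 5, i + 1 + 1 = i + 2 := by decide
      have k1 := hk _ (a1 i).1 (a1 i).2
      have k2 := hk _ (a2 i).1 (a2 i).2
      have k3 := hk _ (a3 i).1 (a3 i).2
      rw [b1] at k2
      rw [b2] at k3
      refine ⟨_, _, _, _, _, hp, k1, k2, k3, ?_, ?_⟩
      · rw [b3, b4]; exact r1
      · rw [b4]
        rw [b5] at r2
        exact r2
    have opp : ∀ i j : Fin 5, j = i + 2 → (∀ k, k ≠ i → k ≠ j → Near S h κ (n k) (n (k + 1))) →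
        RH (Near S h κ) x (n i) (n (i + 1)) → RH (Near S h κ) x (n j) (n (j + 1)) →
        ∃ a b c d e, U2b (Near S h κ) (ang h) x a b c d e := by
      intro i j hj hk r1 r2
      subst hj
      have hp := E.pent' H (i + 3)
      have a1 : ∀ i : Fin 5, i + 3 ≠ i ∧ i + 3 ≠ i + 2 := by decide
      have a2 : ∀ i : Fin 5, i + 3 + 1 ≠ i ∧ i + 3 + 1 ≠ i + 2 := by decide
      have a3 : ∀ i : Fin 5, i + 3 + 3 ≠ i ∧ i + 3 + 3 ≠ i + 2 := by decide
      have b1 : ∀ i : Fin 5, i + 3 + 1 + 1 = i + 3 + 2 := by decide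
      have b2 : ∀ i : Fin 5, i + 3 + 3 + 1 = i + 3 + 4 := by decide
      have b3 : ∀ i : Fin 5, i + 3 + 2 = i := by decide
      have b4 : ∀ i : Fin 5, i + 3 + 3 = i + 1 := by decide
      have b5 : ∀ i : Fin 5, i + 3 + 4 = i + 2 := by decide
      have b6 : ∀ i : Fin 5, i + 2 + 1 = i + 3 := by decide
      have k1 := hk _ (a1 i).1 (a1 i).2
      have k2 := hk _ (a2 i).1 (a2 i).2
      have k3 := hk _ (a3 i).1 (a3 i).2
      rw [b1] at k2
      rw [b2] at k3
      refine ⟨_, _, _, _, _, hp, k1, k2, ?_, k3, ?_⟩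
      · rw [b3, b4]; exact r1
      · rw [b5]
        rw [b6] at r2
        exact r2
    rcases key i1 j1 hne1 with (hh | hh) | (hh | hh)
    · exact Or.inl (adj i1 j1 hh hnear hr1 hr2)
    · exact Or.inl (adj j1 i1 hh (fun k h1 h2 => hnear k h2 h1) hr2 hr1)
    · exact Or.inr (opp i1 j1 hh hnear hr1 hr2)
    · exact Or.inr (opp j1 i1 hh (fun k h1 h2 => hnear k h2 h1) hr2 hr1)

end Pool.Agent.HypPack
end

section

set_option autoImplicit false

open scoped Real UpperHalfPlane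
open InnerProductGeometry

namespace Pool.Agent.HypPack

variable {S : Finset ℍ} {h κ : ℝ}

theorem GG_clean (H : Hyp S h κ) (x : ℍ) (hx : x ∈ S) (hc : CleanN S h κ x) :
    -(1 / 10 ^ 25) ≤ GG S h κ x := by
  have h6 := ndeg_le_six H x hx
  have h5 := hc.1.1
  by_cases h : ndeg S h κ x = 6
  · rw [GG_six H hc h]; norm_num
  · exact (types_five H hc (by omega)).1

/-- weight of a pair of indices: 1 if consecutive, 2 otherwise -/
def wt (i j : Fin 5) : ℕ := if j = i + 1 ∨ i = j + 1 then 1 else 2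

set_option maxRecDepth 100000 in
theorem key5 : ∀ a b c d e : Fin 5, a ≠ b → a ≠ c → a ≠ d → a ≠ e → b ≠ c → b ≠ d → b ≠ e →
    c ≠ d → c ≠ e → d ≠ e →
    wt a b + wt b c + wt c d + wt d e + wt e a ≤ 6 → ¬ (c = a + 1 ∨ a = c + 1) := by
  decide

theorem Enum5.wt_le (H : Hyp S h κ) {x : ℍ} {n : Fin 5 → ℍ} (E : Enum5 S h κ x n) {i j : Fin 5}
    (hij : i ≠ j) : (wt i j : ℝ) * (π / 3 - 4 * κ) ≤ ang h x (n i) (n j) := by
  have key : ∀ i j : Fin 5, i ≠ j → ¬ (j = i + 1 ∨ i = j + 1) → j = i + 2 ∨ i = j + 2 := by decide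
  unfold wt
  by_cases hw : j = i + 1 ∨ i = j + 1
  · rw [if_pos hw]
    have := ang_ge H (E.near i) (E.near j) (E.inj.ne hij)
    push_cast
    linarith
  · rw [if_neg hw]
    push_cast
    rcases key i j hij hw with h1 | h1
    · subst h1
      exact E.far i
    · subst h1
      rw [ang_comm]
      exact E.far j

theorem rh_cons_fact (H : Hyp S h κ) {x a b c d e : ℍ} (hI : ∀ w, ¬ Inter S h κ x w)
    (hp : PentAt (Near S h κ) (ang h) x a b c d e) : ¬ RH (Near S h κ) x a c := by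
  intro hr
  have hx := ndeg_of_pent hp
  obtain ⟨n, hinj, hmem, hsum, hfar⟩ := enum5 H hx
  have E : Enum5 S h κ x n := ⟨hinj, hmem, hsum, hfar⟩
  obtain ⟨m1, hnd, -, s⟩ := hp
  have na : Near S h κ x a := (m1 a).mpr (by simp)
  have nb : Near S h κ x b := (m1 b).mpr (by simp)
  have nc : Near S h κ x c := (m1 c).mpr (by simp)
  have nd : Near S h κ x d := (m1 d).mpr (by simp)
  have ne : Near S h κ x e := (m1 e).mpr (by simp)
  obtain ⟨ia, rfl⟩ := (hmem _).mp na
  obtain ⟨ib, rfl⟩ := (hmem _).mp nb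
  obtain ⟨ic, rfl⟩ := (hmem _).mp nc
  obtain ⟨id, rfl⟩ := (hmem _).mp nd
  obtain ⟨ie, rfl⟩ := (hmem _).mp ne
  simp only [List.nodup_cons, List.mem_cons, List.not_mem_nil, or_false, not_or,
    List.nodup_nil, hinj.eq_iff, and_true, not_false_eq_true] at hnd
  obtain ⟨⟨ab, ac, ad, ae⟩, ⟨bc, bd, be⟩, ⟨cd, ce⟩, de⟩ := hnd
  have w1 := E.wt_le H ab
  have w2 := E.wt_le H bc
  have w3 := E.wt_le H cd
  have w4 := E.wt_le H de
  have w5 := E.wt_le H (Ne.symm ae)
  have hw : wt ia ib + wt ib ic + wt ic id + wt id ie + wt ie ia ≤ 6 := by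
    by_contra hcon
    push Not at hcon
    have hcon' : (7 : ℝ) ≤ (wt ia ib : ℝ) + wt ib ic + wt ic id + wt id ie + wt ie ia := by
      exact_mod_cast hcon
    have hpos : 0 ≤ π / 3 - 4 * κ := by linarith [H.ksmall, Real.pi_gt_three]
    have := mul_le_mul_of_nonneg_right hcon' hpos
    linarith [H.ksmall, Real.pi_gt_three]
  exact key5 ia ib ic id ie ab ac ad ae bc bd be cd ce de hw (E.rh_cases H hI hr)

/-- All local facts, from the hole lemma. -/
theorem local_facts (H : Hyp S h κ)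
    (hole : ∀ u m m' : ℕ → ℍ, (∀ i, i < 6 →
      PentAt (Near S h κ) (ang h) (u (i + 1)) (u (i + 2)) (m (i + 1)) (m' i) (m i) (u i) ∧
      Cont S h (u (i + 2)) (m (i + 1)) ∧ Cont S h (m (i + 1)) (m' i) ∧ Cont S h (m' i) (m i) ∧
      Cont S h (m i) (u i)) → False) :
    Local (Near S h κ) (Cont S h) (R h) (ang h) (Good S h κ) where
  nr_symm := fun _ _ hxy => hxy.symm'
  nr_irrefl := fun _ hx => hx.2.2.1 rfl
  ct_nr := fun _ _ hxy => hxy.near H
  ct_symm := fun _ _ hxy => hxy.symm'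
  g_symm := fun x y => R_comm h x y
  an_symm := fun x y z => ang_comm h x y z
  common := common_near H
  tri := fun _ _ _ hxy hxz hyz => ang_lt H hxy hxz hyz
  rhomb := by
    intro x y w z hxy hyw hwz hzx hxw hyz
    refine rhomb_le_pi H.hpos hxy.2.2.2 hyw.2.2.2 hwz.2.2.2 hzx.2.2.2 ?_ ?_
    · have := H.sep x hxy.1 w hyw.2.1 hxw
      linarith
    · have := H.sep y hxy.2.1 z hzx.1 hyz
      linarith
  types := by
    intro x hx
    have h6 := ndeg_le_six H x hx.1
    have h5 := hx.2.1.1.1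
    by_cases hd : ndeg S h κ x = 6
    · exact Or.inl (isW_of_clean H hx.2.1 hd)
    · exact Or.inr ((types_five H hx.2.1 (by omega)).2 hx.2.2)
  w_rim := by
    intro x hx hW
    rcases six_rim H x (ndeg_of_isW hW) with hr | ⟨y, z, hy, -, hyz⟩
    · exact hr
    · exact absurd hyz ((hx.2.1.2 y hy).2.2.2 z)
  w_uniq := by
    intro x y z y' z' hx hr hr'
    exact rim_unique (hx.2.1.1.2.1 (ndeg_of_rim H hx.2.1 hr)) hr hr'
  w_gap := by
    intro x y z u hx hr hu _
    exact rim_gap H hx.2.1 hr hu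
  u_rim := by
    intro x y z hx hW hr
    exact hW (isW_of_clean H hx.2.1 (ndeg_of_rim H hx.2.1 hr))
  supp := by
    intro y z hy hyz hn
    obtain ⟨c, d, hcd, ⟨c1, c2, c3⟩, ⟨d1, d2, d3⟩⟩ := exists_two_apex (hy.2.1.1.2.2.1 z hyz hn)
    exact ⟨c, d, hcd, c1, c2, d1, d2, fun hg => isW_of_clean H hg.2.1 c3,
      fun hg => isW_of_clean H hg.2.1 d3⟩
  rh_cons := by
    intro x a b c d e hx hp
    exact rh_cons_fact H hx.2.1.1.2.2.2 hp
  hole := hole

end Pool.Agent.HypPack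
end
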